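import Mathlib

/-!
Theorem W (MP_79abb3_an), block G (static spectral inequality by interior methods): definitions.
Captain: helper69.
-/

set_option autoImplicit false
set_option linter.unusedSectionVars false

open MeasureTheory Set Filter Topology Metric Laplacian
open scoped ContDiff InnerProductSpace

namespace Pool.Agent.Lib.MP_79abb3_an.WG

section
variable {F : Type*} [NormedAddCommGroup F] [InnerProductSpace ℝ F]

/-- The radial weight `(1 - ‖z‖²)₊ ^ k`. -/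
noncomputable def bw (k : ℕ) (z : F) : ℝ := (max 0 (1 - ‖z‖ ^ 2)) ^ k

variable [FiniteDimensional ℝ F] [MeasurableSpace F] [BorelSpace F]

/-- The weighted mean square of `u` at scale `r` around `c`. -/
noncomputable def NN (k : ℕ) (u : F → ℝ) (c : F) (r : ℝ) : ℝ :=
  ∫ z : F, u (c + r • z) ^ 2 * bw k z

end

section
variable {E : Type*} [NormedAddCommGroup E] [InnerProductSpace ℝ E] [FiniteDimensional ℝ E]
  [MeasurableSpace E] [BorelSpace E]

/-- The point `(x, y)` of the Euclidean space `E × ℝ`. -/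
def pt (x : E) (y : ℝ) : WithLp 2 (E × ℝ) := WithLp.toLp 2 (x, y)

/-- The derivatives of `y ^ (2k+2) / (2k+2)!`. -/
noncomputable def cs (m k : ℕ) (y : ℝ) : ℝ :=
  if m ≤ 2 * k + 2 then y ^ (2 * k + 2 - m) / ((2 * k + 2 - m).factorial : ℝ) else 0

/-- The series `f₀(x) - ∑ σ^(k+1) y^(2k+2)/(2k+2)! Δ f_k (x)`: harmonic in `(x,y)` for `σ = 1`, a solution
of the wave equation for `σ = -1` (if `Δ Δ f_k = - Δ f_{k+1}`). -/
noncomputable def Ser (σ : ℝ) (f : ℕ → E → ℝ) (x : E) (y : ℝ) : ℝ :=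
  f 0 x - ∑' k : ℕ, σ ^ (k + 1) * cs 0 k y * Δ (f k) x

/-- The primitive in `y` of `Ser σ f x`, zero for `y = 0`. -/
noncomputable def SerI (σ : ℝ) (f : ℕ → E → ℝ) (x : E) (y : ℝ) : ℝ :=
  y * f 0 x - ∑' k : ℕ, σ ^ (k + 1) * (y ^ (2 * k + 3) / ((2 * k + 3).factorial : ℝ)) * Δ (f k) x

/-- `Ser 1 f` as a function on the Euclidean space `E × ℝ`. -/
noncomputable def UU (f : ℕ → E → ℝ) (z : WithLp 2 (E × ℝ)) : ℝ := Ser 1 f z.fst z.snd

/-- Smooth low frequency sequences with equation on `G` (normalised). -/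
structure LFS (G : Set E) (lam : ℝ) (f : ℕ → E → ℝ) : Prop where
  smooth : ∀ k, ContDiff ℝ ∞ (f k)
  bnd : ∀ n : ℕ, ∃ B : ℝ, ∀ k x, ‖iteratedFDeriv ℝ n (f k) x‖ ≤ B * lam ^ k
  eqn : ∀ k, ∀ x ∈ G, Δ (Δ (f k)) x = - Δ (f (k + 1)) x
  int : ∀ k, Integrable (fun x => f k x ^ 2)
  l2 : ∀ k, ∫ x, f k x ^ 2 ≤ lam ^ (2 * k)

/-- The points of `D` at distance `> ε` from the complement. -/
def er (D : Set E) (ε : ℝ) : Set E := {x | ε < infDist x Dᶜ}

/-- Test functions of `D`. -/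
structure IsTe (D : Set E) (φ : E → ℝ) : Prop where
  smooth : ContDiff ℝ ∞ φ
  cpt : HasCompactSupport φ
  sub : tsupport φ ⊆ D

/-- Low frequency sequences of `D` in the sense of distributions (normalised). -/
structure RFS (D : Set E) (lam : ℝ) (f : ℕ → E → ℝ) : Prop where
  mem : ∀ k, MemLp (f k) 2
  l2 : ∀ k, ∫ x, f k x ^ 2 ≤ lam ^ (2 * k)
  eqn : ∀ k, ∀ φ : E → ℝ, IsTe D φ → ∫ x, f k x * Δ (Δ φ) x = - ∫ x, f (k + 1) x * Δ φ x

/-- The mollifier at scale `ε`. -/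
noncomputable def eta (ε : ℝ) (hε : 0 < ε) : ContDiffBump (0 : E) := ⟨ε / 2, ε, by linarith, by linarith⟩

/-- Mollification at scale `ε`. -/
noncomputable def moll (ε : ℝ) (hε : 0 < ε) (f : E → ℝ) (x : E) : ℝ :=
  ∫ x', (eta ε hε : ContDiffBump (0 : E)).normed volume (x - x') * f x'

/-- Uniform smallness of the harmonic extensions on `ball (x,0) r` in terms of the size on `Z`. -/
def Small (D Z : Set E) (x : E) (r θ C ε₀ : ℝ) : Prop :=
  ∀ ε : ℝ, 0 < ε → ε ≤ ε₀ → ∀ lam : ℝ, 1 ≤ lam → ∀ f : ℕ → E → ℝ, LFS (er D ε) lam f →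
    ∀ δ : ℝ, 0 < δ → δ ≤ 1 → ∫ x in Z, f 0 x ^ 2 ≤ δ ^ 2 →
      ∀ z ∈ ball (pt x 0) r, |UU f z| ≤ C * Real.exp (C * √lam) * δ ^ θ

end

end Pool.Agent.Lib.MP_79abb3_an.WG
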