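import Mathlib

/-!
Theorem W, block G: geometric hypotheses.
-/

set_option autoImplicit false
set_option linter.unusedSectionVars false

open MeasureTheory Set Filter Topology Metric

namespace Pool.Agent.Lib.MP_79abb3_an.WG

section
variable {E : Type} [NormedAddCommGroup E] [InnerProductSpace ℝ E]

/-- Interior balls at the wall, uniform. -/
def IntBall (D : Set E) (t0 : ℝ) : Prop :=
  ∀ x ∈ D, infDist x Dᶜ < t0 → ∃ n : E, ‖n‖ = 1 ∧ ∀ t, infDist x Dᶜ ≤ t → t ≤ t0 →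
    ball (x + (t - infDist x Dᶜ) • n) t ⊆ D

/-- Exterior directions. -/
def ExtDir (D : Set E) (N : Finset E) (C ρ0 : ℝ) : Prop :=
  (∀ ν ∈ N, ‖ν‖ = 1) ∧ 0 ≤ C ∧ 0 < ρ0 ∧ ∀ x ∈ D, ∀ ρ, infDist x Dᶜ < ρ → ρ ≤ ρ0 →
    ∃ ν ∈ N, ∃ s ∈ Icc (0 : ℝ) (C * ρ), x + s • ν ∉ D

end

end Pool.Agent.Lib.MP_79abb3_an.WG
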