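import Mathlib

/-!
Theorem W, block G: the Laplacian (coordinates, scaling, products).
-/

set_option autoImplicit false
set_option linter.unusedSectionVars false
set_option linter.unusedVariables false

open MeasureTheory Set Filter Topology Metric Laplacian
open scoped ContDiff InnerProductSpace

namespace Pool.Agent.Lib.MP_79abb3_an.WG

section
variable {F : Type*} [NormedAddCommGroup F] [InnerProductSpace ℝ F] [FiniteDimensional ℝ F]

private theorem lapA_dd {u : F → ℝ} (hu : ContDiff ℝ 2 u) (b x v : F) :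
    fderiv ℝ (fun y => fderiv ℝ u y b) x v = fderiv ℝ (fderiv ℝ u) x v b := by
  have h1 : DifferentiableAt ℝ (fderiv ℝ u) x :=
    ((hu.fderiv_right (m := 1) (by norm_num)).differentiable (by norm_num)).differentiableAt
  have h2 := h1.hasFDerivAt.clm_apply (hasFDerivAt_const b x)
  rw [h2.fderiv]
  simp

private theorem lapA_cd {u : F → ℝ} (hu : ContDiff ℝ 2 u) (b : F) :
    ContDiff ℝ 1 (fun y => fderiv ℝ u y b) :=
  (hu.fderiv_right (m := 1) (by norm_num)).clm_apply contDiff_const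

/-- The Laplacian in an orthonormal basis, with iterated directional derivatives.
PROOF: `laplacian_eq_iteratedFDeriv_orthonormalBasis`, `iteratedFDeriv_two_apply`, chain rule for the
evaluation `L ↦ L (b i)`. -/
theorem lap_eq_sum {ι : Type*} [Fintype ι] (b : OrthonormalBasis ι ℝ F) {u : F → ℝ}
    (hu : ContDiff ℝ 2 u) (x : F) :
    Δ u x = ∑ i, fderiv ℝ (fun y => fderiv ℝ u y (b i)) x (b i) := by
  rw [InnerProductSpace.laplacian_eq_iteratedFDeriv_orthonormalBasis u b]
  refine Finset.sum_congr rfl fun i _ => ?_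
  rw [lapA_dd hu, iteratedFDeriv_two_apply]
  rfl

private theorem lapA_aff {g : F → ℝ} (hg : Differentiable ℝ g) (c : F) (r : ℝ) (z w : F) :
    fderiv ℝ (fun z => g (c + r • z)) z w = r * fderiv ℝ g (c + r • z) w := by
  have h1 : HasFDerivAt (fun z : F => c + r • z) (r • ContinuousLinearMap.id ℝ F) z :=
    ((hasFDerivAt_id z).const_smul r).const_add c
  have h2 := (hg (c + r • z)).hasFDerivAt.comp z h1
  have h3 := h2.fderiv
  rw [show g ∘ (fun z : F => c + r • z) = fun z => g (c + r • z) from rfl] at h3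
  rw [h3]
  simp

/-- Scaling. -/
theorem lap_affine {u : F → ℝ} (hu : ContDiff ℝ 2 u) (c : F) (r : ℝ) (z : F) :
    Δ (fun z => u (c + r • z)) z = r ^ 2 * Δ u (c + r • z) := by
  have hv : ContDiff ℝ 2 (fun z => u (c + r • z)) :=
    hu.comp (contDiff_const.add (contDiff_id.const_smul r))
  rw [lap_eq_sum (stdOrthonormalBasis ℝ F) hv, lap_eq_sum (stdOrthonormalBasis ℝ F) hu,
    Finset.mul_sum]
  refine Finset.sum_congr rfl fun i _ => ?_
  have h1 : (fun y => fderiv ℝ (fun z => u (c + r • z)) y (stdOrthonormalBasis ℝ F i)) =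
      fun y => r * fderiv ℝ u (c + r • y) (stdOrthonormalBasis ℝ F i) :=
    funext fun y => lapA_aff (hu.differentiable (by norm_num)) c r y _
  have hd : Differentiable ℝ (fun y => fderiv ℝ u y (stdOrthonormalBasis ℝ F i)) :=
    (lapA_cd hu _).differentiable (by norm_num)
  rw [h1, fderiv_const_mul]
  · rw [smul_apply, lapA_aff hd, smul_eq_mul]
    ring
  · exact (hd.comp ((differentiable_id.const_smul r).const_add c)).differentiableAt

/-- Gradient in coordinates. -/
theorem inner_gradient_eq_sum {ι : Type*} [Fintype ι] (b : OrthonormalBasis ι ℝ F) (u v : F → ℝ)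
    (x : F) :
    ⟪gradient u x, gradient v x⟫_ℝ = ∑ i, fderiv ℝ u x (b i) * fderiv ℝ v x (b i) := by
  have h1 : ∀ w : F → ℝ, ∀ y, ⟪gradient w x, y⟫_ℝ = fderiv ℝ w x y := fun w y =>
    InnerProductSpace.toDual_symm_apply
  rw [← b.sum_inner_mul_inner]
  refine Finset.sum_congr rfl fun i _ => ?_
  rw [h1, real_inner_comm, h1]

theorem lap_continuous {u : F → ℝ} (hu : ContDiff ℝ 2 u) : Continuous (Δ u) := by
  have h1 : Δ u = fun x => ∑ i, fderiv ℝ (fun y => fderiv ℝ u y (stdOrthonormalBasis ℝ F i)) x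
      (stdOrthonormalBasis ℝ F i) := funext fun x => lap_eq_sum _ hu x
  rw [h1]
  refine continuous_finsetSum _ fun i _ => ?_
  exact ((lapA_cd hu _).continuous_fderiv (by norm_num)).clm_apply continuous_const

end

section
variable {E : Type*} [NormedAddCommGroup E] [InnerProductSpace ℝ E] [FiniteDimensional ℝ E]

private theorem lapA_A {g : E × ℝ → ℝ} (hg : Differentiable ℝ g) (z w : WithLp 2 (E × ℝ)) :
    fderiv ℝ (fun z : WithLp 2 (E × ℝ) => g (z.fst, z.snd)) z w =
      fderiv ℝ g (z.fst, z.snd) (w.fst, w.snd) := by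
  have h1 : HasFDerivAt (WithLp.prodContinuousLinearEquiv 2 ℝ E ℝ)
      ((WithLp.prodContinuousLinearEquiv 2 ℝ E ℝ : WithLp 2 (E × ℝ) →L[ℝ] E × ℝ)) z :=
    (WithLp.prodContinuousLinearEquiv 2 ℝ E ℝ).hasFDerivAt
  have h2 := (hg (WithLp.prodContinuousLinearEquiv 2 ℝ E ℝ z)).hasFDerivAt.comp z h1
  have h3 := h2.fderiv
  rw [show g ∘ (WithLp.prodContinuousLinearEquiv 2 ℝ E ℝ) =
    fun z : WithLp 2 (E × ℝ) => g (z.fst, z.snd) from rfl] at h3
  rw [h3]
  rfl

private theorem lapA_B {g : E × ℝ → ℝ} (hg : Differentiable ℝ g) (x v : E) (s : ℝ) :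
    fderiv ℝ (fun x => g (x, s)) x v = fderiv ℝ g (x, s) (v, 0) := by
  have h1 : HasFDerivAt (fun x : E => (x, s)) (ContinuousLinearMap.inl ℝ E ℝ) x :=
    hasFDerivAt_prodMk_left x s
  have h2 := (hg (x, s)).hasFDerivAt.comp x h1
  have h3 := h2.fderiv
  rw [show g ∘ (fun x : E => (x, s)) = fun x => g (x, s) from rfl] at h3
  rw [h3]
  rfl

private theorem lapA_C {g : E × ℝ → ℝ} (hg : Differentiable ℝ g) (x : E) (y : ℝ) :
    deriv (fun y => g (x, y)) y = fderiv ℝ g (x, y) (0, 1) := by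
  have h1 : HasFDerivAt (fun y : ℝ => (x, y)) (ContinuousLinearMap.inr ℝ E ℝ) y :=
    hasFDerivAt_prodMk_right x y
  have h2 := (hg (x, y)).hasFDerivAt.comp y h1
  have h3 := h2.hasDerivAt.deriv
  rw [show g ∘ (fun y : ℝ => (x, y)) = fun y => g (x, y) from rfl] at h3
  rw [h3]
  rfl

/-- The Laplacian of a product space. PROOF: `lap_eq_sum` with
`(stdOrthonormalBasis ℝ E).prod (stdOrthonormalBasis ℝ ℝ or OrthonormalBasis.singleton (Fin 1) ℝ)`. -/
theorem lap_prod {u : E → ℝ → ℝ} (hu : ContDiff ℝ 2 (fun p : E × ℝ => u p.1 p.2))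
    (z : WithLp 2 (E × ℝ)) :
    Δ (fun z : WithLp 2 (E × ℝ) => u z.fst z.snd) z =
      Δ (fun x => u x z.snd) z.fst + deriv (fun y => deriv (fun y => u z.fst y) y) z.snd := by
  set U : E × ℝ → ℝ := fun p => u p.1 p.2 with hU
  have hUd : Differentiable ℝ U := hu.differentiable (by norm_num)
  have hG : ∀ w : E × ℝ, Differentiable ℝ (fun p => fderiv ℝ U p w) := fun w =>
    ((hu.fderiv_right (m := 1) (by norm_num)).clm_apply contDiff_const).differentiable
      (by norm_num)
  have hc1 : ContDiff ℝ 2 (fun z : WithLp 2 (E × ℝ) => u z.fst z.snd) :=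
    hu.comp (WithLp.prodContinuousLinearEquiv 2 ℝ E ℝ).contDiff
  have hc2 : ContDiff ℝ 2 (fun x : E => u x z.snd) :=
    hu.comp (contDiff_id.prodMk contDiff_const)
  rw [lap_eq_sum ((stdOrthonormalBasis ℝ E).prod (OrthonormalBasis.singleton (Fin 1) ℝ)) hc1,
    lap_eq_sum (stdOrthonormalBasis ℝ E) hc2, Fintype.sum_sum_type]
  congr 1
  · refine Finset.sum_congr rfl fun i _ => ?_
    have e0 : ((stdOrthonormalBasis ℝ E).prod (OrthonormalBasis.singleton (Fin 1) ℝ)) (Sum.inl i) =
        WithLp.toLp 2 (stdOrthonormalBasis ℝ E i, (0:ℝ)) := by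
      rw [OrthonormalBasis.prod_apply]
      rfl
    rw [e0]
    have e1 : (fun y : WithLp 2 (E × ℝ) => fderiv ℝ (fun z : WithLp 2 (E × ℝ) => u z.fst z.snd) y
        (WithLp.toLp 2 (stdOrthonormalBasis ℝ E i, (0:ℝ)))) =
        fun y => (fun p => fderiv ℝ U p (stdOrthonormalBasis ℝ E i, 0)) (y.fst, y.snd) :=
      funext fun y => lapA_A hUd y _
    have e2 : (fun y : E => fderiv ℝ (fun x => u x z.snd) y (stdOrthonormalBasis ℝ E i)) =
        fun y => (fun p => fderiv ℝ U p (stdOrthonormalBasis ℝ E i, 0)) (y, z.snd) :=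
      funext fun y => lapA_B hUd y _ _
    rw [e1, e2, lapA_A (hG _), lapA_B (hG _)]
    rfl
  · rw [Fintype.sum_unique]
    have e0 : ((stdOrthonormalBasis ℝ E).prod (OrthonormalBasis.singleton (Fin 1) ℝ))
        (Sum.inr default) =
        WithLp.toLp 2 ((0:E), (1:ℝ)) := by
      rw [OrthonormalBasis.prod_apply]
      simp
    rw [e0]
    have e1 : (fun y : WithLp 2 (E × ℝ) => fderiv ℝ (fun z : WithLp 2 (E × ℝ) => u z.fst z.snd) y
        (WithLp.toLp 2 ((0:E), (1:ℝ)))) =
        fun y => (fun p => fderiv ℝ U p (0, 1)) (y.fst, y.snd) :=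
      funext fun y => lapA_A hUd y _
    have e2 : (fun y : ℝ => deriv (fun y => u z.fst y) y) =
        fun y => (fun p => fderiv ℝ U p (0, 1)) (z.fst, y) :=
      funext fun y => lapA_C hUd _ y
    rw [e1, e2, lapA_A (hG _), lapA_C (hG _)]
    rfl

end

end Pool.Agent.Lib.MP_79abb3_an.WG
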