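import Pool.Agent.Lib.MP_79abb3_an.WG.Def
import Pool.Agent.Lib.MP_79abb3_an.WG.LapA

/-!
Theorem W, block G: integration by parts.
-/

set_option autoImplicit false
set_option linter.unusedSectionVars false
set_option linter.unusedVariables false

open MeasureTheory Set Filter Topology Metric Laplacian
open scoped ContDiff InnerProductSpace

namespace Pool.Agent.Lib.MP_79abb3_an.WG

section
variable {F : Type*} [NormedAddCommGroup F] [InnerProductSpace ℝ F] [FiniteDimensional ℝ F]
  [MeasurableSpace F] [BorelSpace F]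

private theorem lapB_int {f g : F → ℝ} (hf : Continuous f) (hg : Continuous g)
    (h : HasCompactSupport f ∨ HasCompactSupport g) : Integrable fun x => f x * g x := by
  refine (hf.mul hg).integrable_of_hasCompactSupport ?_
  rcases h with h | h
  · exact h.mul_right
  · exact h.mul_left

private theorem lapB_ibp {f g : F → ℝ} (hf : ContDiff ℝ 1 f) (hg : ContDiff ℝ 1 g)
    (h : HasCompactSupport f ∨ HasCompactSupport g) (b : F) :
    ∫ x, f x * fderiv ℝ g x b = - ∫ x, fderiv ℝ f x b * g x := by
  have hf' : Continuous fun x => fderiv ℝ f x b :=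
    (hf.continuous_fderiv (by norm_num)).clm_apply continuous_const
  have hg' : Continuous fun x => fderiv ℝ g x b :=
    (hg.continuous_fderiv (by norm_num)).clm_apply continuous_const
  refine integral_mul_fderiv_eq_neg_fderiv_mul_of_integrable (lapB_int hf' hg.continuous ?_)
    (lapB_int hf.continuous hg' ?_) (lapB_int hf.continuous hg.continuous h)
    (fun x _ => hf.differentiable (by norm_num) x) (fun x _ => hg.differentiable (by norm_num) x)
  · exact h.imp (fun h => h.fderiv_apply ℝ b) id
  · exact h.imp id fun h => h.fderiv_apply ℝ b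

private theorem lapB_cd {u : F → ℝ} (hu : ContDiff ℝ 2 u) (b : F) :
    ContDiff ℝ 1 (fun y => fderiv ℝ u y b) :=
  (hu.fderiv_right (m := 1) (by norm_num)).clm_apply contDiff_const

/-- INTEGRATION BY PARTS. PROOF: `lap_eq_sum`, `inner_gradient_eq_sum` with `stdOrthonormalBasis`, and for
each `i` `integral_mul_fderiv_eq_neg_fderiv_mul_of_integrable` for `f = ψ`, `g = fun y => fderiv ℝ W y (b i)`
(all products are continuous with compact support, hence integrable). -/
theorem ibp_grad {W ψ : F → ℝ} (hW : ContDiff ℝ 2 W) (hψ : ContDiff ℝ 1 ψ)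
    (hc : HasCompactSupport ψ) :
    ∫ x, ⟪gradient W x, gradient ψ x⟫_ℝ = - ∫ x, ψ x * Δ W x := by
  set b := stdOrthonormalBasis ℝ F with hb
  have hψ' : ∀ i, Continuous fun x => fderiv ℝ ψ x (b i) := fun i =>
    (hψ.continuous_fderiv (by norm_num)).clm_apply continuous_const
  have hW'' : ∀ i, Continuous fun x => fderiv ℝ (fun y => fderiv ℝ W y (b i)) x (b i) := fun i =>
    ((lapB_cd hW (b i)).continuous_fderiv (by norm_num)).clm_apply continuous_const
  have e1 : (fun x => ⟪gradient W x, gradient ψ x⟫_ℝ) =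
      fun x => ∑ i, fderiv ℝ W x (b i) * fderiv ℝ ψ x (b i) :=
    funext fun x => inner_gradient_eq_sum b W ψ x
  have e2 : (fun x => ψ x * Δ W x) =
      fun x => ∑ i, fderiv ℝ (fun y => fderiv ℝ W y (b i)) x (b i) * ψ x := by
    funext x
    rw [lap_eq_sum b hW, Finset.mul_sum]
    exact Finset.sum_congr rfl fun i _ => mul_comm _ _
  rw [e1, e2, integral_finsetSum _ fun i _ => lapB_int (lapB_cd hW (b i)).continuous (hψ' i)
    (Or.inr (hc.fderiv_apply ℝ (b i))), integral_finsetSum _ fun i _ => lapB_int (hW'' i)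
    hψ.continuous (Or.inr hc), ← Finset.sum_neg_distrib]
  exact Finset.sum_congr rfl fun i _ => lapB_ibp (lapB_cd hW (b i)) hψ (Or.inr hc) (b i)

/-- GREEN. PROOF: `ibp_grad` twice (`(W, ψ) = (u, g)` and, for the second, use a cut-off: `∫ ⟪∇u,∇g⟫` is also
`- ∫ u Δ g`: in coordinates `∫ ∂_i u ∂_i g = - ∫ u ∂_i ∂_i g` because `∂_i g` has compact support). -/
theorem green {u g : F → ℝ} (hu : ContDiff ℝ 2 u) (hg : ContDiff ℝ 2 g) (hc : HasCompactSupport g) :
    ∫ x, Δ u x * g x = ∫ x, u x * Δ g x := by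
  set b := stdOrthonormalBasis ℝ F with hb
  have hu' : ∀ i, Continuous fun x => fderiv ℝ u x (b i) := fun i => (lapB_cd hu (b i)).continuous
  have hu'' : ∀ i, Continuous fun x => fderiv ℝ (fun y => fderiv ℝ u y (b i)) x (b i) := fun i =>
    ((lapB_cd hu (b i)).continuous_fderiv (by norm_num)).clm_apply continuous_const
  have hg'' : ∀ i, Continuous fun x => fderiv ℝ (fun y => fderiv ℝ g y (b i)) x (b i) := fun i =>
    ((lapB_cd hg (b i)).continuous_fderiv (by norm_num)).clm_apply continuous_const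
  have hgc : ∀ i, HasCompactSupport fun x => fderiv ℝ g x (b i) := fun i => hc.fderiv_apply ℝ (b i)
  have e1 : (fun x => Δ u x * g x) =
      fun x => ∑ i, fderiv ℝ (fun y => fderiv ℝ u y (b i)) x (b i) * g x := by
    funext x
    rw [lap_eq_sum b hu, Finset.sum_mul]
  have e2 : (fun x => u x * Δ g x) =
      fun x => ∑ i, u x * fderiv ℝ (fun y => fderiv ℝ g y (b i)) x (b i) := by
    funext x
    rw [lap_eq_sum b hg, Finset.mul_sum]
  rw [e1, e2, integral_finsetSum _ fun i _ => lapB_int (hu'' i) hg.continuous (Or.inr hc),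
    integral_finsetSum _ fun i _ => lapB_int hu.continuous (hg'' i)
      (Or.inr ((hgc i).fderiv_apply ℝ (b i)))]
  refine Finset.sum_congr rfl fun i _ => ?_
  have h1 := lapB_ibp (lapB_cd hu (b i)) (hg.of_le (by norm_num)) (Or.inr hc) (b i)
  have h2 := lapB_ibp (hu.of_le (by norm_num)) (lapB_cd hg (b i)) (Or.inr (hgc i)) (b i)
  rw [h2, ← neg_eq_iff_eq_neg.2 h1]

end

section
variable {E : Type*} [NormedAddCommGroup E] [InnerProductSpace ℝ E] [FiniteDimensional ℝ E]
variable [MeasurableSpace E] [BorelSpace E]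

/-- Integrals over `E × ℝ` (Euclidean) as iterated integrals.
PROOF: `WithLp.volume_preserving_ofLp`, `integral_prod_symm`. -/
theorem integral_UU {g : WithLp 2 (E × ℝ) → ℝ} (hg : Integrable g) :
    ∫ z, g z = ∫ y : ℝ, ∫ x : E, g (pt x y) := by
  have hmp : MeasurePreserving (WithLp.toLp 2 : E × ℝ → WithLp 2 (E × ℝ)) :=
    WithLp.volume_preserving_toLp E ℝ
  have he : MeasurableEmbedding (WithLp.toLp 2 : E × ℝ → WithLp 2 (E × ℝ)) :=
    (MeasurableEquiv.toLp 2 (E × ℝ)).measurableEmbedding
  rw [← hmp.integral_comp he]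
  have hi : Integrable (fun p : E × ℝ => g (WithLp.toLp 2 p)) (volume.prod volume) :=
    (hmp.integrable_comp_emb he).2 hg
  exact integral_prod_symm _ hi

end

end Pool.Agent.Lib.MP_79abb3_an.WG
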