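import Pool.Agent.Lib.MP_79abb3_an.WG.Bw
import Pool.Agent.Lib.MP_79abb3_an.WG.LapB

section

/-!
Theorem W, block G: the dilation generator is symmetric on harmonic functions, for radial weights.
-/

set_option autoImplicit false
set_option linter.unusedSectionVars false

open MeasureTheory Set Filter Topology Metric Laplacian
open scoped ContDiff InnerProductSpace

namespace Pool.Agent.Lib.MP_79abb3_an.WG

section
variable {F : Type*} [NormedAddCommGroup F] [InnerProductSpace ℝ F] [FiniteDimensional ℝ F]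
  [MeasurableSpace F] [BorelSpace F]

private theorem rad_grad (w : F → ℝ) (x y : F) : ⟪gradient w x, y⟫_ℝ = fderiv ℝ w x y :=
  InnerProductSpace.toDual_symm_apply

private theorem rad_grad' (w : F → ℝ) (x y : F) : ⟪y, gradient w x⟫_ℝ = fderiv ℝ w x y := by
  rw [real_inner_comm, rad_grad]

private theorem rad_cont {u : F → ℝ} (hu : ContDiff ℝ 1 u) : Continuous (gradient u) :=
  (InnerProductSpace.toDual ℝ F).symm.continuous.comp (hu.continuous_fderiv (by norm_num))

/-- integrability and vanishing of the pairing with `u2 Θ` -/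
private theorem rad_one {u1 u2 : F → ℝ} (h1 : ContDiff ℝ 2 u1) (h2 : ContDiff ℝ 2 u2)
    (H1 : ∀ z ∈ ball (0 : F) 1, Δ u1 z = 0) {k : ℕ} (hk : 1 ≤ k) :
    (Integrable fun z => (-(2 * ((k : ℝ) + 1)) * (u2 z * fderiv ℝ u1 z z * bw k z)) +
      bw (k + 1) z * ⟪gradient u1 z, gradient u2 z⟫_ℝ) ∧
    ∫ z, ((-(2 * ((k : ℝ) + 1)) * (u2 z * fderiv ℝ u1 z z * bw k z)) +
      bw (k + 1) z * ⟪gradient u1 z, gradient u2 z⟫_ℝ) = 0 := by
  have hΘ : ContDiff ℝ 1 (bw (k + 1) : F → ℝ) := (bw_contDiff k).of_le (by exact_mod_cast hk)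
  have hΘc : HasCompactSupport (bw (k + 1) : F → ℝ) := bw_cpt (by omega)
  have h21 : ContDiff ℝ 1 u2 := h2.of_le (by norm_num)
  have hψ : ContDiff ℝ 1 (fun z => u2 z * bw (k + 1) z) := h21.mul hΘ
  have hψc : HasCompactSupport (fun z => u2 z * bw (k + 1) z) := hΘc.mul_left
  have e : (fun z => ⟪gradient u1 z, gradient (fun z => u2 z * bw (k + 1) z) z⟫_ℝ) =
      fun z => (-(2 * ((k : ℝ) + 1)) * (u2 z * fderiv ℝ u1 z z * bw k z)) +
        bw (k + 1) z * ⟪gradient u1 z, gradient u2 z⟫_ℝ := by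
    funext z
    have hd : HasFDerivAt (fun z => u2 z * bw (k + 1) z)
        (u2 z • ((-(2 * ((k : ℝ) + 1)) * bw k z) • innerSL ℝ z) + bw (k + 1) z • fderiv ℝ u2 z) z :=
      ((h21.differentiable (by norm_num) z).hasFDerivAt).mul (bw_hasFDerivAt hk z)
    rw [rad_grad', hd.fderiv]
    simp only [add_apply, smul_apply, smul_eq_mul, innerSL_apply_apply]
    rw [rad_grad', rad_grad']
    ring
  have hint : Integrable (fun z => ⟪gradient u1 z, gradient (fun z => u2 z * bw (k + 1) z) z⟫_ℝ) := by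
    refine Continuous.integrable_of_hasCompactSupport ?_ ?_
    · exact (rad_cont (h1.of_le (by norm_num))).inner (rad_cont hψ)
    · refine (hψc.fderiv ℝ).mono fun z hz => ?_
      rw [Function.mem_support] at hz ⊢
      intro h0
      apply hz
      rw [rad_grad', h0]
      rfl
  rw [e] at hint
  refine ⟨hint, ?_⟩
  rw [← e, ibp_grad h1 hψ hψc, neg_eq_zero]
  have : (fun z => u2 z * bw (k + 1) z * Δ u1 z) = fun _ => 0 := by
    funext z
    by_cases hz : ‖z‖ < 1
    · rw [H1 z (by rwa [mem_ball_zero_iff]), mul_zero]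
    · rw [bw_zero (by omega) (not_lt.1 hz), mul_zero, zero_mul]
  rw [this, integral_zero]

/-- PROOF. `Θ := bw (k+1)` is `C^1` (`bw_contDiff`, `k ≥ 1`), compactly supported, zero outside the open unit
ball, `∇Θ z = -2(k+1) bw k z • z` (`bw_hasFDerivAt`). `ibp_grad` with `(W, ψ) = (u1, u2 Θ)`:
`∫ ⟪∇u1, ∇(u2 Θ)⟫ = - ∫ u2 Θ Δu1 = 0` (`Θ = 0` where `‖z‖ ≥ 1`, `Δ u1 = 0` where `‖z‖ < 1`), and
`⟪∇u1, ∇(u2 Θ)⟫ = Θ ⟪∇u1, ∇u2⟫ + u2 ⟪∇u1, ∇Θ⟫`. Same with `u1, u2` exchanged. Subtract:
`∫ (u2 ⟪∇u1, ∇Θ⟫ - u1 ⟪∇u2, ∇Θ⟫) = 0`, and `⟪∇u1, ∇Θ⟫ = -2(k+1) bw k z * fderiv ℝ u1 z z`. -/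
theorem green_radial {u1 u2 : F → ℝ} (h1 : ContDiff ℝ 2 u1) (h2 : ContDiff ℝ 2 u2)
    (H1 : ∀ z ∈ ball (0 : F) 1, Δ u1 z = 0) (H2 : ∀ z ∈ ball (0 : F) 1, Δ u2 z = 0)
    {k : ℕ} (hk : 1 ≤ k) :
    ∫ z, (u2 z * fderiv ℝ u1 z z - u1 z * fderiv ℝ u2 z z) * bw k z = 0 := by
  obtain ⟨i1, e1⟩ := rad_one h1 h2 H1 hk
  obtain ⟨i2, e2⟩ := rad_one h2 h1 H2 hk
  have e3 := integral_sub i1 i2
  rw [e1, e2, sub_zero] at e3
  have e4 : (fun z : F => (-(2 * ((k : ℝ) + 1)) * (u2 z * fderiv ℝ u1 z z * bw k z)) +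
      bw (k + 1) z * ⟪gradient u1 z, gradient u2 z⟫_ℝ -
      ((-(2 * ((k : ℝ) + 1)) * (u1 z * fderiv ℝ u2 z z * bw k z)) +
      bw (k + 1) z * ⟪gradient u2 z, gradient u1 z⟫_ℝ)) =
      fun z => -(2 * ((k : ℝ) + 1)) *
        ((u2 z * fderiv ℝ u1 z z - u1 z * fderiv ℝ u2 z z) * bw k z) := by
    funext z
    rw [real_inner_comm (gradient u1 z) (gradient u2 z)]
    ring
  rw [e4, integral_const_mul] at e3
  have h0 : (-(2 * ((k : ℝ) + 1))) ≠ 0 := by
    have : (0:ℝ) ≤ k := Nat.cast_nonneg k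
    linarith
  exact (mul_eq_zero.1 e3).resolve_left h0

end

end Pool.Agent.Lib.MP_79abb3_an.WG
end

section

/-!
Theorem W, block G: differentiation of weighted pairings.
-/

set_option autoImplicit false
set_option linter.unusedSectionVars false
set_option linter.unusedVariables false

open MeasureTheory Set Filter Topology Metric Laplacian
open scoped ContDiff InnerProductSpace

namespace Pool.Agent.Lib.MP_79abb3_an.WG

section
variable {F : Type*} [NormedAddCommGroup F] [InnerProductSpace ℝ F] [FiniteDimensional ℝ F]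
  [MeasurableSpace F] [BorelSpace F]

/-- Differentiation of `s ↦ ∫ u(c + a(s) z) v(c + b(s) z) bw k z`. PROOF:
`hasDerivAt_integral_of_dominated_loc_of_deriv_le` (everything is continuous, the weight has compact
support, so the derivatives are bounded for `s'` near `s`, `z` in the closed unit ball). -/
theorem hasDerivAt_pair {u v : F → ℝ} (hu : ContDiff ℝ 1 u) (hv : ContDiff ℝ 1 v) (c : F)
    {k : ℕ} (hk : 1 ≤ k) {a b a' b' : ℝ → ℝ} (ha : ∀ s, HasDerivAt a (a' s) s)
    (hb : ∀ s, HasDerivAt b (b' s) s) (ca : Continuous a') (cb : Continuous b') (s : ℝ) :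
    HasDerivAt (fun s => ∫ z, u (c + a s • z) * v (c + b s • z) * bw k z)
      (∫ z, (a' s * fderiv ℝ u (c + a s • z) z * v (c + b s • z) +
        b' s * u (c + a s • z) * fderiv ℝ v (c + b s • z) z) * bw k z) s := by
  have hac : Continuous a := continuous_iff_continuousAt.2 fun s => (ha s).continuousAt
  have hbc : Continuous b := continuous_iff_continuousAt.2 fun s => (hb s).continuousAt
  have huc := hu.continuous
  have hvc := hv.continuous
  have hu' : Continuous (fderiv ℝ u) := hu.continuous_fderiv (by norm_num)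
  have hv' : Continuous (fderiv ℝ v) := hv.continuous_fderiv (by norm_num)
  have hbw : Continuous (bw k : F → ℝ) := bw_continuous k
  have c1 : Continuous fun p : ℝ × F => u (c + a p.1 • p.2) * v (c + b p.1 • p.2) :=
    (huc.comp (continuous_const.add ((hac.comp continuous_fst).smul continuous_snd))).mul
      (hvc.comp (continuous_const.add ((hbc.comp continuous_fst).smul continuous_snd)))
  have c2 : Continuous fun p : ℝ × F => a' p.1 * fderiv ℝ u (c + a p.1 • p.2) p.2 *
      v (c + b p.1 • p.2) + b' p.1 * u (c + a p.1 • p.2) * fderiv ℝ v (c + b p.1 • p.2) p.2 := by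
    have e1 : Continuous fun p : ℝ × F => c + a p.1 • p.2 :=
      continuous_const.add ((hac.comp continuous_fst).smul continuous_snd)
    have e2 : Continuous fun p : ℝ × F => c + b p.1 • p.2 :=
      continuous_const.add ((hbc.comp continuous_fst).smul continuous_snd)
    exact (((ca.comp continuous_fst).mul ((hu'.comp e1).clm_apply continuous_snd)).mul
      (hvc.comp e2)).add (((cb.comp continuous_fst).mul (huc.comp e1)).mul
      ((hv'.comp e2).clm_apply continuous_snd))
  -- the bound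
  obtain ⟨M, hM⟩ : ∃ M : ℝ, ∀ p ∈ Icc (s - 1) (s + 1) ×ˢ closedBall (0 : F) 1,
      ‖a' p.1 * fderiv ℝ u (c + a p.1 • p.2) p.2 *
      v (c + b p.1 • p.2) + b' p.1 * u (c + a p.1 • p.2) * fderiv ℝ v (c + b p.1 • p.2) p.2‖ ≤ M :=
    (isCompact_Icc.prod (isCompact_closedBall 0 1)).exists_bound_of_continuousOn c2.continuousOn
  have cs : ∀ s : ℝ, Continuous fun z : F => (s, z) := fun s => by fun_prop
  refine (hasDerivAt_integral_of_dominated_loc_of_deriv_le
    (F := fun s z => u (c + a s • z) * v (c + b s • z) * bw k z)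
    (F' := fun s z => (a' s * fderiv ℝ u (c + a s • z) z * v (c + b s • z) +
        b' s * u (c + a s • z) * fderiv ℝ v (c + b s • z) z) * bw k z)
    (bound := fun z => M * bw k z) (s := Icc (s - 1) (s + 1))
    (Icc_mem_nhds (by linarith) (by linarith)) ?_ ?_ ?_ ?_ ?_ ?_).2
  · exact Eventually.of_forall fun s' => ((c1.comp (cs s')).mul hbw).aestronglyMeasurable
  · exact ((c1.comp (cs s)).mul hbw).integrable_of_hasCompactSupport (bw_cpt hk).mul_left
  · exact ((c2.comp (cs s)).mul hbw).aestronglyMeasurable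
  · refine Eventually.of_forall fun z s' hs' => ?_
    by_cases hz : ‖z‖ ≤ 1
    · rw [norm_mul, Real.norm_of_nonneg (bw_nonneg k z)]
      refine mul_le_mul_of_nonneg_right ?_ (bw_nonneg k z)
      exact hM (s', z) ⟨hs', by rwa [mem_closedBall_zero_iff]⟩
    · rw [bw_zero hk (not_le.1 hz).le, mul_zero, mul_zero, norm_zero]
  · exact (bw_integrable hk).const_mul M
  · refine Eventually.of_forall fun z s' _ => ?_
    have d1 : HasDerivAt (fun s => u (c + a s • z)) (a' s' * fderiv ℝ u (c + a s' • z) z) s' := by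
      have h1 : HasDerivAt (fun s => c + a s • z) (a' s' • z) s' :=
        ((ha s').smul_const z).const_add c
      have h2 := ((hu.differentiable (by norm_num) (c + a s' • z)).hasFDerivAt).comp_hasDerivAt s' h1
      rw [map_smul, smul_eq_mul] at h2
      exact h2
    have d2 : HasDerivAt (fun s => v (c + b s • z)) (b' s' * fderiv ℝ v (c + b s' • z) z) s' := by
      have h1 : HasDerivAt (fun s => c + b s • z) (b' s' • z) s' :=
        ((hb s').smul_const z).const_add c
      have h2 := ((hv.differentiable (by norm_num) (c + b s' • z)).hasFDerivAt).comp_hasDerivAt s' h1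
      rw [map_smul, smul_eq_mul] at h2
      exact h2
    have d3 := (d1.mul d2).mul_const (bw k z)
    refine d3.congr_deriv ?_
    ring

end

end Pool.Agent.Lib.MP_79abb3_an.WG
end
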