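import Pool.Agent.Lib.MP_79abb3_an.WG.DilA

/-!
Theorem W, block G: mean value property.
-/

set_option autoImplicit false
set_option linter.unusedSectionVars false
set_option linter.unusedVariables false

open MeasureTheory Set Filter Topology Metric Laplacian
open scoped ContDiff InnerProductSpace

namespace Pool.Agent.Lib.MP_79abb3_an.WG

section
variable {F : Type*} [NormedAddCommGroup F] [InnerProductSpace ℝ F] [FiniteDimensional ℝ F]
  [MeasurableSpace F] [BorelSpace F]

private theorem dilB_fderiv {u : F → ℝ} (hu : ContDiff ℝ 2 u) (c : F) (ρ : ℝ) (z : F) :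
    fderiv ℝ (fun z => u (c + ρ • z)) z z = ρ * fderiv ℝ u (c + ρ • z) z := by
  have h1 : HasFDerivAt (fun z : F => c + ρ • z) (ρ • ContinuousLinearMap.id ℝ F) z :=
    ((hasFDerivAt_id z).const_smul ρ).const_add c
  have h2 : HasFDerivAt u (fderiv ℝ u (c + ρ • z)) (c + ρ • z) :=
    (hu.differentiable (by norm_num) _).hasFDerivAt
  have h3 := (h2.comp z h1).fderiv
  have h4 : fderiv ℝ (fun z => u (c + ρ • z)) z =
      (fderiv ℝ u (c + ρ • z)).comp (ρ • ContinuousLinearMap.id ℝ F) := h3
  rw [h4]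
  simp

private theorem dilB_int {f : F → ℝ} (hf : Continuous f) {k : ℕ} (hk : 1 ≤ k) :
    Integrable fun z => f z * bw k z :=
  (hf.mul (bw_continuous k)).integrable_of_hasCompactSupport (bw_cpt hk).mul_left

/-- MEAN VALUE PROPERTY. PROOF. `M(s) = ∫ u(c + s z) bw k z` has derivative
`∫ fderiv ℝ u (c + s z) z * bw k z` (`hasDerivAt_pair` with `v = 1`, `a s = s`, `b = 0`), and for
`0 < s ≤ R` this is `s⁻¹ * ∫ fderiv ℝ u_s z z * bw k z = 0`, `u_s z = u (c + s z)`, by `green_radial` with
`u2 = 1` (`lap_affine`: `Δ u_s z = s² Δ u (c + s z) = 0` for `‖z‖ < 1`). At `s = 0` the integrand of the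
derivative is `fderiv ℝ u c z * bw k z`, odd (or use continuity of `M` at `0`). So `M(r) = M(0)`
(`constant_of_has_deriv_right_zero` on `[0,r]`). -/
theorem mean_value {u : F → ℝ} (hu : ContDiff ℝ 2 u) {c : F} {R : ℝ}
    (H : ∀ z ∈ ball c R, Δ u z = 0) {k : ℕ} (hk : 1 ≤ k) {r : ℝ} (hr : 0 ≤ r) (hR : r ≤ R) :
    ∫ z, u (c + r • z) * bw k z = u c * ∫ z : F, bw k z := by
  have hu1 : ContDiff ℝ 1 u := hu.of_le (by norm_num)
  set M : ℝ → ℝ := fun s => ∫ z, u (c + s • z) * bw k z with hM
  have hD : ∀ s : ℝ, HasDerivAt M (∫ z, fderiv ℝ u (c + s • z) z * bw k z) s := by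
    intro s
    have h := hasDerivAt_pair hu1 (contDiff_const (c := (1 : ℝ))) c hk (a := fun s => s)
      (b := fun _ => (0 : ℝ)) (a' := fun _ => (1 : ℝ)) (b' := fun _ => (0 : ℝ))
      (fun s => hasDerivAt_id s) (fun s => hasDerivAt_const s 0) continuous_const continuous_const s
    have e1 : (fun s : ℝ => ∫ z, u (c + s • z) * 1 * bw k z) = M := by
      funext s
      simp only [mul_one, hM]
    have e2 : (∫ z, (1 * fderiv ℝ u (c + s • z) z * 1 + 0 * u (c + s • z) *
        fderiv ℝ (fun _ : F => (1 : ℝ)) (c + (0 : ℝ) • z) z) * bw k z) =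
        ∫ z, fderiv ℝ u (c + s • z) z * bw k z := by
      refine integral_congr_ae (Eventually.of_forall fun z => ?_)
      show (1 * fderiv ℝ u (c + s • z) z * 1 + 0 * u (c + s • z) *
        fderiv ℝ (fun _ : F => (1 : ℝ)) (c + (0 : ℝ) • z) z) * bw k z =
        fderiv ℝ u (c + s • z) z * bw k z
      ring
    rw [← e1, ← e2]
    exact h
  have hzero : ∀ s ∈ Ico (0 : ℝ) r, (∫ z, fderiv ℝ u (c + s • z) z * bw k z) = 0 := by
    intro s hs
    rcases eq_or_lt_of_le hs.1 with h0 | h0
    · subst h0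
      have h1 : ∀ z : F, fderiv ℝ u (c + (0 : ℝ) • (-z)) (-z) * bw k (-z) =
          -(fderiv ℝ u (c + (0 : ℝ) • z) z * bw k z) := by
        intro z
        have hb : bw k (-z) = bw k z := by unfold bw; rw [norm_neg]
        rw [hb, map_neg, zero_smul, zero_smul]
        ring
      have h2 := integral_neg_eq_self (fun z : F => fderiv ℝ u (c + (0 : ℝ) • z) z * bw k z) volume
      have h3 : (∫ z : F, fderiv ℝ u (c + (0 : ℝ) • (-z)) (-z) * bw k (-z)) =
          -∫ z : F, fderiv ℝ u (c + (0 : ℝ) • z) z * bw k z := by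
        rw [← integral_neg]
        exact integral_congr_ae (Eventually.of_forall h1)
      rw [h3] at h2
      linarith
    · have hsR : s ≤ R := hs.2.le.trans hR
      have hs1 : ContDiff ℝ 2 fun z => u (c + s • z) :=
        hu.comp (contDiff_const.add (contDiff_const.smul contDiff_id))
      have hl1 : ∀ z ∈ ball (0 : F) 1, Δ (fun z => u (c + s • z)) z = 0 := by
        intro z hz
        rw [lap_affine hu, H, mul_zero]
        rw [mem_ball, dist_eq_norm, add_sub_cancel_left, norm_smul, Real.norm_of_nonneg h0.le]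
        have hz1 : ‖z‖ < 1 := mem_ball_zero_iff.1 hz
        nlinarith
      have hl2 : ∀ z ∈ ball (0 : F) 1, Δ (fun _ : F => (1 : ℝ)) z = 0 := by
        intro z hz
        rw [lap_eq_sum (stdOrthonormalBasis ℝ F) contDiff_const]
        simp
      have h4 := green_radial hs1 (contDiff_const (c := (1 : ℝ))) hl1 hl2 hk
      have h5 : s * (∫ z, fderiv ℝ u (c + s • z) z * bw k z) = 0 := by
        rw [← h4, ← integral_const_mul]
        refine integral_congr_ae (Eventually.of_forall fun z => ?_)
        show s * (fderiv ℝ u (c + s • z) z * bw k z) =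
          (1 * fderiv ℝ (fun z => u (c + s • z)) z z - u (c + s • z) *
            fderiv ℝ (fun _ : F => (1 : ℝ)) z z) * bw k z
        rw [dilB_fderiv hu]
        simp
        ring
      rcases mul_eq_zero.1 h5 with h6 | h6
      · exact absurd h6 h0.ne'
      · exact h6
  have hconst := constant_of_has_deriv_right_zero (f := M) (a := 0) (b := r)
    (fun s hs => (hD s).continuousAt.continuousWithinAt)
    (fun s hs => by
      have h := hD s
      rw [hzero s hs] at h
      exact h.hasDerivWithinAt) r ⟨hr, le_rfl⟩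
  have e1 : M 0 = u c * ∫ z : F, bw k z := by
    rw [← integral_const_mul]
    refine integral_congr_ae (Eventually.of_forall fun z => ?_)
    show u (c + (0 : ℝ) • z) * bw k z = u c * bw k z
    rw [zero_smul, add_zero]
  rw [← e1, ← hconst]

/-- PROOF: `mean_value` and Cauchy-Schwarz. -/
theorem sq_le_NN {u : F → ℝ} (hu : ContDiff ℝ 2 u) {c : F} {R : ℝ}
    (H : ∀ z ∈ ball c R, Δ u z = 0) {k : ℕ} (hk : 1 ≤ k) {r : ℝ} (hr : 0 ≤ r) (hR : r ≤ R) :
    u c ^ 2 * ∫ z : F, bw k z ≤ NN k u c r := by
  have hmv := mean_value hu H hk hr hR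
  set I : ℝ := ∫ z : F, bw k z with hI
  have hIpos : 0 < I := bw_integral_pos hk
  have hcont : Continuous fun z : F => u (c + r • z) := hu.continuous.comp (by fun_prop)
  have h1 : 0 ≤ ∫ z, (u (c + r • z) - u c) ^ 2 * bw k z :=
    integral_nonneg fun z => mul_nonneg (sq_nonneg _) (bw_nonneg k z)
  have h2 : ∫ z, (u (c + r • z) - u c) ^ 2 * bw k z = NN k u c r -
      2 * u c * (∫ z, u (c + r • z) * bw k z) + u c ^ 2 * I := by
    rw [hI, NN, ← integral_const_mul, ← integral_const_mul, ← integral_sub, ← integral_add]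
    · refine integral_congr_ae (Eventually.of_forall fun z => ?_)
      show (u (c + r • z) - u c) ^ 2 * bw k z = _
      ring
    · exact (dilB_int (hcont.pow 2) hk).sub ((dilB_int hcont hk).const_mul _)
    · exact (bw_integrable hk).const_mul _
    · exact dilB_int (hcont.pow 2) hk
    · exact (dilB_int hcont hk).const_mul _
  rw [h2, hmv] at h1
  nlinarith

end

end Pool.Agent.Lib.MP_79abb3_an.WG
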