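import Mathlib

/-!
Theorem W, block G: convex sequences, radii.
-/

set_option autoImplicit false
set_option linter.unusedSectionVars false
set_option linter.unusedVariables false

open MeasureTheory Set Filter Topology Metric Laplacian
open scoped ContDiff InnerProductSpace

namespace Pool.Agent.Lib.MP_79abb3_an.WG

section

/-- PROOF. If `a 5 = 0` trivial (`0 ^ 9 = 0`). Otherwise all `a j > 0`, `0 ≤ j ≤ 9` (from `a 5 ^ 2 ≤ a 4 * a 6`,
then `a 4 ^ 2 ≤ a 3 * a 5`, ...). With `l j = log (a j)`: `2 l j ≤ l (j-1) + l (j+1)`; a nonnegative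
combination of the eight inequalities gives `9 l 5 ≤ 4 l 0 + 5 l 9` (coefficients `c_j = 4 j` for `j ≤ 5` and
`c_j = 5 (9 - j)` for `j ≥ 5`, by `linarith`). -/
theorem seq_convex (a : ℕ → ℝ) (h0 : ∀ j, j ≤ 9 → 0 ≤ a j)
    (h : ∀ j, 1 ≤ j → j ≤ 8 → a j ^ 2 ≤ a (j - 1) * a (j + 1)) :
    a 5 ^ 9 ≤ a 0 ^ 4 * a 9 ^ 5 := by
  have hn0 := h0 0 (by norm_num)
  have hn9 := h0 9 (by norm_num)
  have hn5 := h0 5 (by norm_num)
  rcases hn5.eq_or_lt with h5 | h5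
  · rw [← h5]
    have : (0 : ℝ) ^ 9 = 0 := by norm_num
    rw [this]
    positivity
  have key : ∀ x y z : ℝ, 0 < x → 0 ≤ y → 0 ≤ z → x ^ 2 ≤ y * z → 0 < y ∧ 0 < z := by
    intro x y z hx hy hz hh
    have h1 : 0 < y * z := lt_of_lt_of_le (by positivity) hh
    rcases hy.eq_or_lt with hy' | hy'
    · rw [← hy', zero_mul] at h1
      exact absurd h1 (lt_irrefl _)
    rcases hz.eq_or_lt with hz' | hz'
    · rw [← hz', mul_zero] at h1
      exact absurd h1 (lt_irrefl _)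
    exact ⟨hy', hz'⟩
  have q5 : a 5 ^ 2 ≤ a 4 * a 6 := h 5 (by norm_num) (by norm_num)
  have q4 : a 4 ^ 2 ≤ a 3 * a 5 := h 4 (by norm_num) (by norm_num)
  have q3 : a 3 ^ 2 ≤ a 2 * a 4 := h 3 (by norm_num) (by norm_num)
  have q2 : a 2 ^ 2 ≤ a 1 * a 3 := h 2 (by norm_num) (by norm_num)
  have q1 : a 1 ^ 2 ≤ a 0 * a 2 := h 1 (by norm_num) (by norm_num)
  have q6 : a 6 ^ 2 ≤ a 5 * a 7 := h 6 (by norm_num) (by norm_num)
  have q7 : a 7 ^ 2 ≤ a 6 * a 8 := h 7 (by norm_num) (by norm_num)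
  have q8 : a 8 ^ 2 ≤ a 7 * a 9 := h 8 (by norm_num) (by norm_num)
  obtain ⟨p4, p6⟩ := key _ _ _ h5 (h0 4 (by norm_num)) (h0 6 (by norm_num)) q5
  obtain ⟨p3, -⟩ := key _ _ _ p4 (h0 3 (by norm_num)) hn5 q4
  obtain ⟨p2, -⟩ := key _ _ _ p3 (h0 2 (by norm_num)) (h0 4 (by norm_num)) q3
  obtain ⟨p1, -⟩ := key _ _ _ p2 (h0 1 (by norm_num)) (h0 3 (by norm_num)) q2
  obtain ⟨p0, -⟩ := key _ _ _ p1 hn0 (h0 2 (by norm_num)) q1
  obtain ⟨-, p7⟩ := key _ _ _ p6 hn5 (h0 7 (by norm_num)) q6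
  obtain ⟨-, p8⟩ := key _ _ _ p7 (h0 6 (by norm_num)) (h0 8 (by norm_num)) q7
  obtain ⟨-, p9⟩ := key _ _ _ p8 (h0 7 (by norm_num)) hn9 q8
  have lg : ∀ x y z : ℝ, 0 < x → 0 < y → 0 < z → x ^ 2 ≤ y * z →
      2 * Real.log x ≤ Real.log y + Real.log z := by
    intro x y z hx hy hz hh
    have h1 := Real.log_le_log (by positivity) hh
    rw [Real.log_pow, Real.log_mul hy.ne' hz.ne'] at h1
    exact_mod_cast h1
  have l1 := lg _ _ _ p1 p0 p2 q1
  have l2 := lg _ _ _ p2 p1 p3 q2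
  have l3 := lg _ _ _ p3 p2 p4 q3
  have l4 := lg _ _ _ p4 p3 h5 q4
  have l5 := lg _ _ _ h5 p4 p6 q5
  have l6 := lg _ _ _ p6 h5 p7 q6
  have l7 := lg _ _ _ p7 p6 p8 q7
  have l8 := lg _ _ _ p8 p7 p9 q8
  have hl : 9 * Real.log (a 5) ≤ 4 * Real.log (a 0) + 5 * Real.log (a 9) := by linarith
  have e1 : Real.log (a 5 ^ 9) = 9 * Real.log (a 5) := by
    rw [Real.log_pow]
    norm_num
  have e2 : Real.log (a 0 ^ 4 * a 9 ^ 5) = 4 * Real.log (a 0) + 5 * Real.log (a 9) := by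
    rw [Real.log_mul (by positivity) (by positivity), Real.log_pow, Real.log_pow]
    norm_num
  rw [← Real.log_le_log_iff (by positivity) (by positivity), e1, e2]
  exact hl

/-- The ratio of consecutive radii. -/
noncomputable def gr : ℝ := (999 / 800 : ℝ) ^ ((1 : ℝ) / 9)

theorem gr_pow : gr ^ 9 = 999 / 800 := by
  unfold gr
  rw [← Real.rpow_natCast, ← Real.rpow_mul (by norm_num)]
  norm_num

theorem one_le_gr : 1 ≤ gr := by
  unfold gr
  exact Real.one_le_rpow (by norm_num) (by norm_num)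

/-- `(904/800)^9 ≤ (999/800)^5`. -/
theorem gr_five : 904 / 800 ≤ gr ^ 5 := by
  have h1 := one_le_gr
  have h2 : (904 / 800 : ℝ) ^ 9 ≤ (gr ^ 5) ^ 9 := by
    have h3 : (gr ^ 5) ^ 9 = (gr ^ 9) ^ 5 := by ring
    rw [h3, gr_pow]
    norm_num
  exact le_of_pow_le_pow_left₀ (by norm_num) (by positivity) h2

end

end Pool.Agent.Lib.MP_79abb3_an.WG
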