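import Pool.Agent.Lib.MP_79abb3_an.WG.Bw
import Pool.Agent.Lib.MP_79abb3_an.WG.DilA
import Pool.Agent.Lib.MP_79abb3_an.WG.DilB
import Pool.Agent.Lib.MP_79abb3_an.WG.ThA

section

/-!
Theorem W, block G: comparison of weighted means and suprema.
-/

set_option autoImplicit false
set_option linter.unusedSectionVars false
set_option linter.unusedVariables false

open MeasureTheory Set Filter Topology Metric Laplacian
open scoped ContDiff InnerProductSpace

namespace Pool.Agent.Lib.MP_79abb3_an.WG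

section
variable {F : Type*} [NormedAddCommGroup F] [InnerProductSpace ℝ F] [FiniteDimensional ℝ F]
  [MeasurableSpace F] [BorelSpace F]

/-- `NN` against the supremum. -/
theorem NN_le_sup {u : F → ℝ} (hu : Continuous u) {c : F} {r A : ℝ} (hr : 0 < r)
    (h : ∀ z ∈ ball c r, |u z| ≤ A) {k : ℕ} (hk : 1 ≤ k) :
    NN k u c r ≤ A ^ 2 * ∫ z : F, bw k z := by
  unfold NN
  rw [← integral_const_mul]
  refine integral_mono ?_ ((bw_integrable hk).const_mul _) fun z => ?_
  · have h1 : Continuous fun z : F => u (c + r • z) ^ 2 * bw k z :=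
      ((hu.comp (continuous_const.add (continuous_const.smul continuous_id))).pow 2).mul
        (bw_continuous k)
    exact h1.integrable_of_hasCompactSupport (bw_cpt hk).mul_left
  · show u (c + r • z) ^ 2 * bw k z ≤ A ^ 2 * bw k z
    rcases lt_or_ge ‖z‖ 1 with hz | hz
    · refine mul_le_mul_of_nonneg_right ?_ (bw_nonneg k z)
      have h1 : c + r • z ∈ ball c r := by
        rw [mem_ball, dist_eq_norm, add_sub_cancel_left, norm_smul, Real.norm_of_nonneg hr.le]
        nlinarith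
      have h2 := h _ h1
      rw [← sq_abs (u (c + r • z))]
      exact pow_le_pow_left₀ (abs_nonneg _) h2 2
    · rw [bw_zero hk hz, mul_zero, mul_zero]

/-- Shifting the centre: if `dist c' c + s ≤ ρ < r` then
`NN k u c' s ≤ (r/s)^n (1 - (ρ/r)²)^{-k} NN k u c r`. PROOF: change of variables
`z ↦ (c' - c + s z)/r` (`integral_comp_smul`, translation), `bw k ≤ 1` on the left and
`(1 - (ρ/r)²)^k ≤ bw k` on the right (`bw_ge`). -/
theorem NN_shift {u : F → ℝ} (hu : Continuous u) {c c' : F} {s ρ r : ℝ} (hs : 0 < s)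
    (h : dist c' c + s ≤ ρ) (hρ : ρ < r) {k : ℕ} (hk : 1 ≤ k) :
    NN k u c' s ≤ (r / s) ^ Module.finrank ℝ F * ((1 - (ρ / r) ^ 2) ^ k)⁻¹ * NN k u c r := by
  have hρ0 : 0 < ρ := lt_of_lt_of_le hs (le_trans (by linarith [dist_nonneg (x := c') (y := c)]) h)
  have hr : 0 < r := hρ0.trans hρ
  have hR : 0 < r / s := div_pos hr hs
  set x0 : F := s⁻¹ • (c - c') with hx0
  have hpt : ∀ w : F, c' + s • (x0 + (r / s) • w) = c + r • w := by
    intro w
    rw [hx0, smul_add, smul_smul, smul_smul, mul_inv_cancel₀ hs.ne', one_smul,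
      mul_div_cancel₀ _ hs.ne']
    abel
  have hfar : ∀ w : F, ‖x0 + (r / s) • w‖ < 1 → ‖w‖ ≤ ρ / r := by
    intro w hw
    have h1 : ‖s • (x0 + (r / s) • w)‖ < s := by
      rw [norm_smul, Real.norm_of_nonneg hs.le]
      nlinarith
    have h2 : r • w = s • (x0 + (r / s) • w) + (c' - c) := by
      have h3 := hpt w
      have h4 : s • (x0 + (r / s) • w) = c + r • w - c' := eq_sub_of_add_eq' h3
      rw [h4]
      abel
    have h3 : ‖r • w‖ ≤ s + dist c' c := by
      rw [h2, dist_eq_norm]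
      exact (norm_add_le _ _).trans (by linarith)
    rw [norm_smul, Real.norm_of_nonneg hr.le] at h3
    rw [le_div_iff₀ hr]
    linarith
  have hρr : ρ / r < 1 := (div_lt_one hr).2 hρ
  have hρr0 : 0 ≤ ρ / r := by positivity
  have hq0 : 0 < (1 - (ρ / r) ^ 2) ^ k := by
    have : (ρ / r) ^ 2 < 1 := by nlinarith
    exact pow_pos (by linarith) k
  set f : F → ℝ := fun z => u (c' + s • z) ^ 2 * bw k z with hf
  have h1 : ∫ w : F, f (x0 + (r / s) • w) =
      |((r / s) ^ Module.finrank ℝ F)⁻¹| • ∫ z : F, f z := by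
    rw [Measure.integral_comp_smul volume (fun w => f (x0 + w)) (r / s),
      integral_add_left_eq_self]
  have h2 : ∫ z : F, f z = (r / s) ^ Module.finrank ℝ F * ∫ w : F, f (x0 + (r / s) • w) := by
    have h3 : 0 < (r / s) ^ Module.finrank ℝ F := pow_pos hR _
    rw [h1, abs_of_pos (inv_pos.2 h3), smul_eq_mul, ← mul_assoc, mul_inv_cancel₀ h3.ne', one_mul]
  have h3 : NN k u c' s = (r / s) ^ Module.finrank ℝ F * ∫ w : F, f (x0 + (r / s) • w) := h2
  rw [h3, mul_assoc]
  refine mul_le_mul_of_nonneg_left ?_ (pow_pos hR _).le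
  unfold NN
  rw [← integral_const_mul]
  have hc1 : Continuous fun w : F => u (c + r • w) ^ 2 :=
    (hu.comp (continuous_const.add (continuous_const.smul continuous_id))).pow 2
  have hfw : ∀ w : F, f (x0 + (r / s) • w) = u (c + r • w) ^ 2 * bw k (x0 + (r / s) • w) := by
    intro w
    rw [hf]
    show u (c' + s • (x0 + (r / s) • w)) ^ 2 * bw k (x0 + (r / s) • w) = _
    rw [hpt]
  refine integral_mono ?_ ?_ fun w => ?_
  · have h4 : Continuous fun w : F => f (x0 + (r / s) • w) := by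
      simp only [hfw]
      exact hc1.mul ((bw_continuous k).comp
        (continuous_const.add (continuous_const.smul continuous_id)))
    refine h4.integrable_of_hasCompactSupport ?_
    refine HasCompactSupport.intro (isCompact_closedBall 0 1) fun w hw => ?_
    rw [hfw]
    have h5 : 1 ≤ ‖x0 + (r / s) • w‖ := by
      by_contra h6
      push Not at h6
      apply hw
      rw [mem_closedBall_zero_iff]
      exact (hfar w h6).trans hρr.le
    rw [bw_zero hk h5, mul_zero]
  · exact ((hc1.mul (bw_continuous k)).integrable_of_hasCompactSupport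
      (bw_cpt hk).mul_left).const_mul _
  · show f (x0 + (r / s) • w) ≤ ((1 - (ρ / r) ^ 2) ^ k)⁻¹ * (u (c + r • w) ^ 2 * bw k w)
    rw [hfw]
    rcases lt_or_ge ‖x0 + (r / s) • w‖ 1 with hw | hw
    · have h4 := bw_ge k hρr0 hρr.le (hfar w hw)
      have h5 := bw_le_one k (x0 + (r / s) • w)
      have h6 : 1 ≤ ((1 - (ρ / r) ^ 2) ^ k)⁻¹ * bw k w := by
        rw [inv_mul_eq_div, one_le_div hq0]
        exact h4
      have h7 : u (c + r • w) ^ 2 * bw k (x0 + (r / s) • w) ≤
          u (c + r • w) ^ 2 * (((1 - (ρ / r) ^ 2) ^ k)⁻¹ * bw k w) :=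
        mul_le_mul_of_nonneg_left (h5.trans h6) (sq_nonneg _)
      linarith
    · rw [bw_zero hk hw, mul_zero]
      exact mul_nonneg (inv_nonneg.2 hq0.le) (mul_nonneg (sq_nonneg _) (bw_nonneg k w))

end

end Pool.Agent.Lib.MP_79abb3_an.WG
end

section

/-!
Theorem W, block G: logarithmic convexity of the weighted means.
-/

set_option autoImplicit false
set_option linter.unusedSectionVars false
set_option linter.unusedVariables false

open MeasureTheory Set Filter Topology Metric Laplacian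
open scoped ContDiff InnerProductSpace

namespace Pool.Agent.Lib.MP_79abb3_an.WG

section
variable {F : Type*} [NormedAddCommGroup F] [InnerProductSpace ℝ F] [FiniteDimensional ℝ F]
  [MeasurableSpace F] [BorelSpace F]

private theorem dilC_fderiv {u : F → ℝ} (hu : ContDiff ℝ 2 u) (c : F) (ρ : ℝ) (z : F) :
    fderiv ℝ (fun z => u (c + ρ • z)) z z = ρ * fderiv ℝ u (c + ρ • z) z := by
  have h1 : HasFDerivAt (fun z : F => c + ρ • z) (ρ • ContinuousLinearMap.id ℝ F) z :=
    ((hasFDerivAt_id z).const_smul ρ).const_add c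
  have h2 : HasFDerivAt u (fderiv ℝ u (c + ρ • z)) (c + ρ • z) :=
    (hu.differentiable (by norm_num) _).hasFDerivAt
  have h3 := (h2.comp z h1).fderiv
  have h4 : fderiv ℝ (fun z => u (c + ρ • z)) z =
      (fderiv ℝ u (c + ρ • z)).comp (ρ • ContinuousLinearMap.id ℝ F) := h3
  rw [h4]
  simp

private theorem dilC_lap {u : F → ℝ} (hu : ContDiff ℝ 2 u) {c : F} {R : ℝ}
    (H : ∀ z ∈ ball c R, Δ u z = 0) {ρ : ℝ} (h0 : 0 < ρ) (hρ : ρ ≤ R) :
    ∀ z ∈ ball (0 : F) 1, Δ (fun z => u (c + ρ • z)) z = 0 := by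
  intro z hz
  rw [lap_affine hu, H, mul_zero]
  rw [mem_ball, dist_eq_norm, add_sub_cancel_left, norm_smul, Real.norm_of_nonneg h0.le]
  have hz1 : ‖z‖ < 1 := mem_ball_zero_iff.1 hz
  nlinarith

private theorem dilC_int {f : F → ℝ} (hf : Continuous f) {k : ℕ} (hk : 1 ≤ k) :
    Integrable fun z => f z * bw k z :=
  (hf.mul (bw_continuous k)).integrable_of_hasCompactSupport (bw_cpt hk).mul_left

private theorem dilC_cs {f g : F → ℝ} (hf : Continuous f) (hg : Continuous g) {k : ℕ} (hk : 1 ≤ k) :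
    (∫ z, f z * g z * bw k z) ^ 2 ≤ (∫ z, f z ^ 2 * bw k z) * ∫ z, g z ^ 2 * bw k z := by
  have h := discrim_le_zero (K := ℝ) (a := ∫ z, g z ^ 2 * bw k z) (b := -2 * ∫ z, f z * g z * bw k z)
    (c := ∫ z, f z ^ 2 * bw k z) (fun x => by
      have h1 : 0 ≤ ∫ z, (f z - x * g z) ^ 2 * bw k z :=
        integral_nonneg fun z => mul_nonneg (sq_nonneg _) (bw_nonneg k z)
      have h2 : ∫ z, (f z - x * g z) ^ 2 * bw k z =
          (∫ z, f z ^ 2 * bw k z) - 2 * x * (∫ z, f z * g z * bw k z) +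
            x ^ 2 * ∫ z, g z ^ 2 * bw k z := by
        rw [← integral_const_mul, ← integral_const_mul, ← integral_sub, ← integral_add]
        · refine integral_congr_ae (Eventually.of_forall fun z => ?_)
          show (f z - x * g z) ^ 2 * bw k z = _
          ring
        · exact (dilC_int (hf.pow 2) hk).sub ((dilC_int (hf.mul hg) hk).const_mul _)
        · exact (dilC_int (hg.pow 2) hk).const_mul _
        · exact dilC_int (hf.pow 2) hk
        · exact (dilC_int (hf.mul hg) hk).const_mul _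
      rw [h2] at h1
      linarith)
  unfold discrim at h
  nlinarith

/-- PROOF. `Φ(s) = ∫ u(c + r e^{-s} z) u(c + r e^s z) bw k z`, `0 ≤ s ≤ log g`. By `hasDerivAt_pair` and
`green_radial` (`u1 z = u (c + r e^s z)`, `u2 z = u (c + r e^{-s} z)`; `fderiv ℝ u1 z z =
r e^s fderiv ℝ u (c + r e^s z) z`) `Φ' = 0` for `0 ≤ s < log g` (`r e^s < R`). Hence `Φ(log g) = Φ(0)`. -/
theorem dil_mul {u : F → ℝ} (hu : ContDiff ℝ 2 u) {c : F} {R : ℝ}
    (H : ∀ z ∈ ball c R, Δ u z = 0) {k : ℕ} (hk : 1 ≤ k) {r g : ℝ} (hr : 0 < r) (hg : 1 ≤ g)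
    (hR : r * g ≤ R) :
    ∫ z, u (c + (r / g) • z) * u (c + (r * g) • z) * bw k z = NN k u c r := by
  have hg0 : 0 < g := by linarith
  have hL : 0 ≤ Real.log g := Real.log_nonneg hg
  have hu1 : ContDiff ℝ 1 u := hu.of_le (by norm_num)
  set Φ : ℝ → ℝ := fun s => ∫ z, u (c + (r * Real.exp (-s)) • z) * u (c + (r * Real.exp s) • z) *
    bw k z with hΦ
  have hD := fun s => hasDerivAt_pair hu1 hu1 c hk (a := fun s => r * Real.exp (-s))
    (b := fun s => r * Real.exp s) (a' := fun s => r * (Real.exp (-s) * (-1)))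
    (b' := fun s => r * Real.exp s)
    (fun s => (((hasDerivAt_id s).neg).exp).const_mul r)
    (fun s => (Real.hasDerivAt_exp s).const_mul r)
    (by fun_prop) (by fun_prop) s
  have hzero : ∀ s ∈ Icc (0 : ℝ) (Real.log g), HasDerivAt Φ 0 s := by
    intro s hs
    have h1 := hD s
    have hpos1 : 0 < r * Real.exp s := by positivity
    have hpos2 : 0 < r * Real.exp (-s) := by positivity
    have hle1 : r * Real.exp s ≤ R := by
      have : Real.exp s ≤ g := by
        rw [← Real.exp_log hg0]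
        exact Real.exp_le_exp.2 hs.2
      nlinarith
    have hle2 : r * Real.exp (-s) ≤ R := by
      have h2 : Real.exp (-s) ≤ 1 := Real.exp_le_one_iff.2 (by linarith [hs.1])
      have h3 : r ≤ R := by nlinarith
      nlinarith
    have hs1 : ContDiff ℝ 2 fun z => u (c + (r * Real.exp s) • z) :=
      hu.comp (contDiff_const.add (contDiff_const.smul contDiff_id))
    have hs2 : ContDiff ℝ 2 fun z => u (c + (r * Real.exp (-s)) • z) :=
      hu.comp (contDiff_const.add (contDiff_const.smul contDiff_id))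
    have h4 := green_radial hs1 hs2 (dilC_lap hu H hpos1 hle1) (dilC_lap hu H hpos2 hle2) hk
    have h5 : (∫ z, (r * (Real.exp (-s) * (-1)) * fderiv ℝ u (c + (r * Real.exp (-s)) • z) z *
        u (c + (r * Real.exp s) • z) + r * Real.exp s * u (c + (r * Real.exp (-s)) • z) *
        fderiv ℝ u (c + (r * Real.exp s) • z) z) * bw k z) = 0 := by
      rw [← h4]
      refine integral_congr_ae (Eventually.of_forall fun z => ?_)
      show _ = (u (c + (r * Real.exp (-s)) • z) * fderiv ℝ (fun z => u (c + (r * Real.exp s) • z)) z z -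
        u (c + (r * Real.exp s) • z) * fderiv ℝ (fun z => u (c + (r * Real.exp (-s)) • z)) z z) * bw k z
      rw [dilC_fderiv hu, dilC_fderiv hu]
      ring
    rw [h5] at h1
    exact h1
  have hconst := constant_of_has_deriv_right_zero (f := Φ) (a := 0) (b := Real.log g)
    (fun s hs => (hzero s hs).continuousAt.continuousWithinAt)
    (fun s hs => (hzero s ⟨hs.1, hs.2.le⟩).hasDerivWithinAt) (Real.log g) ⟨hL, le_rfl⟩
  have e1 : Φ (Real.log g) = ∫ z, u (c + (r / g) • z) * u (c + (r * g) • z) * bw k z := by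
    show (∫ z, u (c + (r * Real.exp (-Real.log g)) • z) * u (c + (r * Real.exp (Real.log g)) • z) *
      bw k z) = _
    rw [Real.exp_neg, Real.exp_log hg0, ← div_eq_mul_inv]
  have e2 : Φ 0 = NN k u c r := by
    show (∫ z, u (c + (r * Real.exp (-0)) • z) * u (c + (r * Real.exp 0) • z) * bw k z) = _
    rw [neg_zero, Real.exp_zero, mul_one]
    unfold NN
    refine integral_congr_ae (Eventually.of_forall fun z => ?_)
    show u (c + r • z) * u (c + r • z) * bw k z = u (c + r • z) ^ 2 * bw k z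
    rw [sq]
  rw [← e1, hconst, e2]

/-- LOGARITHMIC CONVEXITY. PROOF: `dil_mul` and Cauchy-Schwarz with the weight `bw k`. -/
theorem NN_sq_le {u : F → ℝ} (hu : ContDiff ℝ 2 u) {c : F} {R : ℝ}
    (H : ∀ z ∈ ball c R, Δ u z = 0) {k : ℕ} (hk : 1 ≤ k) {r g : ℝ} (hr : 0 < r) (hg : 1 ≤ g)
    (hR : r * g ≤ R) :
    NN k u c r ^ 2 ≤ NN k u c (r / g) * NN k u c (r * g) := by
  have h := dilC_cs (f := fun z => u (c + (r / g) • z)) (g := fun z => u (c + (r * g) • z))
    (hu.continuous.comp (by fun_prop)) (hu.continuous.comp (by fun_prop)) hk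
  rw [← dil_mul hu H hk hr hg hR]
  exact h

end

end Pool.Agent.Lib.MP_79abb3_an.WG
end

section

/-!
Theorem W, block G: three balls inequality with exponent `4/9`, radii `(4/5) t, (901/1000) t, (999/1000) t`.
-/

set_option autoImplicit false
set_option linter.unusedSectionVars false
set_option linter.unusedVariables false

open MeasureTheory Set Filter Topology Metric Laplacian
open scoped ContDiff InnerProductSpace

namespace Pool.Agent.Lib.MP_79abb3_an.WG

section
variable {F : Type*} [NormedAddCommGroup F] [InnerProductSpace ℝ F] [FiniteDimensional ℝ F]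
  [MeasurableSpace F] [BorelSpace F]

variable (F) in
/-- THREE BALLS. PROOF. `k = 2`. `r_j = (4/5) t gr^j`, `a j = NN 2 u c (r_j)`: `NN_sq_le` with `g = gr`, `R = t`
gives `seq_convex`: `N(r_5)^9 ≤ N(r_0)^4 N(r_9)^5`, `r_9 = (999/1000) t`, `r_5 ≥ (904/1000) t`. `NN_le_sup`:
`N(r_0) ≤ A² m`, `N(r_9) ≤ B² m`, `m = ∫ bw 2`. For `dist z c < (901/1000) t`: `sq_le_NN` at `z` with radius
`s = t/1000` and `NN_shift` with `ρ = (902/1000) t`, `r = r_5`:
`u z² m ≤ N_z(s) ≤ C N(r_5)`, `C` depending only on the dimension (`r_5/s ≤ 1000`,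
`ρ/r_5 ≤ 902/904`). So `u z ^ 18 ≤ C' A^8 B^10`; take the power `1/18`. -/
theorem three_balls : ∃ C : ℝ, 1 ≤ C ∧ ∀ (u : F → ℝ), ContDiff ℝ 2 u → ∀ (c : F) (t A B : ℝ), 0 < t →
    (∀ z ∈ ball c t, Δ u z = 0) → 0 ≤ A → 0 ≤ B →
    (∀ z ∈ ball c (4 / 5 * t), |u z| ≤ A) → (∀ z ∈ ball c (999 / 1000 * t), |u z| ≤ B) →
    ∀ z ∈ ball c (901 / 1000 * t), |u z| ≤ C * A ^ ((4 : ℝ) / 9) * B ^ ((5 : ℝ) / 9) := by
  set q : ℝ := ((1 - ((902 : ℝ) / 904) ^ 2) ^ 2)⁻¹ with hq
  have hq1 : 1 ≤ q := by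
    rw [hq, one_le_inv₀ (by norm_num)]
    norm_num
  refine ⟨1000 ^ Module.finrank ℝ F * q, ?_, ?_⟩
  · have h1 : (1 : ℝ) ≤ 1000 ^ Module.finrank ℝ F := one_le_pow₀ (by norm_num)
    nlinarith
  intro u hu c t A B ht H hA hB hA' hB' z hz
  set C : ℝ := 1000 ^ Module.finrank ℝ F * q with hC
  have hC1 : 1 ≤ C := by
    have h1 : (1 : ℝ) ≤ 1000 ^ Module.finrank ℝ F := one_le_pow₀ (by norm_num)
    rw [hC]
    nlinarith
  have hg1 := one_le_gr
  have hg0 : 0 < gr := by linarith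
  have hmon : ∀ i j : ℕ, i ≤ j → gr ^ i ≤ gr ^ j := fun i j hij => pow_le_pow_right₀ hg1 hij
  set r : ℕ → ℝ := fun j => 4 / 5 * t * gr ^ j with hrdef
  have hr0 : ∀ j, 0 < r j := fun j => by
    simp only [hrdef]
    positivity
  have hr9 : r 9 = 999 / 1000 * t := by
    simp only [hrdef]
    rw [gr_pow]
    ring
  have hrmon : ∀ i j : ℕ, i ≤ j → r i ≤ r j := fun i j hij => by
    simp only [hrdef]
    exact mul_le_mul_of_nonneg_left (hmon i j hij) (by positivity)
  have hr5 : 904 / 1000 * t ≤ r 5 := by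
    simp only [hrdef]
    have h1 := gr_five
    nlinarith
  have hr5' : r 5 ≤ 999 / 1000 * t := hr9 ▸ hrmon 5 9 (by norm_num)
  have hconv : NN 2 u c (r 5) ^ 9 ≤ NN 2 u c (r 0) ^ 4 * NN 2 u c (r 9) ^ 5 := by
    refine seq_convex (fun j => NN 2 u c (r j)) (fun j _ => ?_) (fun j hj1 hj2 => ?_)
    · exact integral_nonneg fun z => mul_nonneg (sq_nonneg _) (bw_nonneg 2 z)
    · have h1 : r j * gr = r (j + 1) := by
        simp only [hrdef]
        ring
      have h2 : r j / gr = r (j - 1) := by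
        obtain ⟨i, rfl⟩ : ∃ i, j = i + 1 := ⟨j - 1, by omega⟩
        rw [Nat.add_sub_cancel]
        simp only [hrdef]
        field_simp
        ring
      have h3 := NN_sq_le hu H (k := 2) (by norm_num) (hr0 j) hg1 (by
        rw [h1]
        refine (hrmon (j + 1) 9 (by omega)).trans ?_
        rw [hr9]
        linarith)
      rw [h1, h2] at h3
      exact h3
  have hm : 0 < ∫ z : F, bw 2 z := bw_integral_pos (by norm_num)
  set m : ℝ := ∫ z : F, bw 2 z with hmdef
  have hN0 : NN 2 u c (r 0) ≤ A ^ 2 * m := by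
    refine NN_le_sup hu.continuous (hr0 0) (fun z hz => hA' z ?_) (by norm_num)
    have : r 0 = 4 / 5 * t := by simp [hrdef]
    rwa [this] at hz
  have hN9 : NN 2 u c (r 9) ≤ B ^ 2 * m := by
    refine NN_le_sup hu.continuous (hr0 9) (fun z hz => hB' z ?_) (by norm_num)
    rwa [hr9] at hz
  have hnn : ∀ j, 0 ≤ NN 2 u c (r j) := fun j =>
    integral_nonneg fun z => mul_nonneg (sq_nonneg _) (bw_nonneg 2 z)
  rw [mem_ball] at hz
  have hs : 0 < t / 1000 := by positivity
  have h1 : u z ^ 2 * m ≤ NN 2 u z (t / 1000) := by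
    refine sq_le_NN hu (R := t / 1000) (fun w hw => H w ?_) (by norm_num) hs.le le_rfl
    rw [mem_ball] at hw ⊢
    have := dist_triangle w z c
    linarith
  have h2 := NN_shift hu.continuous (c := c) (c' := z) (s := t / 1000) (ρ := 902 / 1000 * t)
    (r := r 5) hs (by linarith) (by linarith) (k := 2) (by norm_num)
  have h3 : (r 5 / (t / 1000)) ^ Module.finrank ℝ F ≤ 1000 ^ Module.finrank ℝ F := by
    refine pow_le_pow_left₀ (div_nonneg (hr0 5).le hs.le) ?_ _
    rw [div_le_iff₀ hs]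
    linarith
  have h4 : ((1 - (902 / 1000 * t / r 5) ^ 2) ^ 2)⁻¹ ≤ q := by
    rw [hq]
    have h5 : 902 / 1000 * t / r 5 ≤ 902 / 904 := by
      rw [div_le_iff₀ (hr0 5)]
      linarith
    have h6 : 0 ≤ 902 / 1000 * t / r 5 := by
      have := hr0 5
      positivity
    have h7 : (902 / 1000 * t / r 5) ^ 2 ≤ (902 / 904) ^ 2 := pow_le_pow_left₀ h6 h5 2
    refine inv_anti₀ (by norm_num) ?_
    refine pow_le_pow_left₀ (by norm_num) ?_ 2
    linarith
  have h5 : u z ^ 2 * m ≤ C * NN 2 u c (r 5) := by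
    refine h1.trans (h2.trans (mul_le_mul_of_nonneg_right ?_ (hnn 5)))
    rw [hC]
    refine mul_le_mul h3 h4 (inv_nonneg.2 (sq_nonneg _)) (by positivity)
  have h6 : (u z ^ 2 * m) ^ 9 ≤ C ^ 9 * ((A ^ 2 * m) ^ 4 * (B ^ 2 * m) ^ 5) := by
    calc (u z ^ 2 * m) ^ 9 ≤ (C * NN 2 u c (r 5)) ^ 9 :=
          pow_le_pow_left₀ (by positivity) h5 9
      _ = C ^ 9 * NN 2 u c (r 5) ^ 9 := by ring
      _ ≤ C ^ 9 * (NN 2 u c (r 0) ^ 4 * NN 2 u c (r 9) ^ 5) :=
          mul_le_mul_of_nonneg_left hconv (by positivity)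
      _ ≤ C ^ 9 * ((A ^ 2 * m) ^ 4 * (B ^ 2 * m) ^ 5) := by
          refine mul_le_mul_of_nonneg_left ?_ (by positivity)
          exact mul_le_mul (pow_le_pow_left₀ (hnn 0) hN0 4) (pow_le_pow_left₀ (hnn 9) hN9 5)
            (pow_nonneg (hnn 9) 5) (by positivity)
  have h7 : |u z| ^ 18 ≤ C ^ 9 * (A ^ 8 * B ^ 10) := by
    have h8 : |u z| ^ 18 * m ^ 9 ≤ C ^ 9 * (A ^ 8 * B ^ 10) * m ^ 9 := by
      calc |u z| ^ 18 * m ^ 9 = (|u z| ^ 2 * m) ^ 9 := by ring
        _ = (u z ^ 2 * m) ^ 9 := by rw [sq_abs]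
        _ ≤ _ := h6
        _ = C ^ 9 * (A ^ 8 * B ^ 10) * m ^ 9 := by ring
    exact le_of_mul_le_mul_right h8 (by positivity)
  have h8 : (C * A ^ ((4 : ℝ) / 9) * B ^ ((5 : ℝ) / 9)) ^ 18 = C ^ 18 * (A ^ 8 * B ^ 10) := by
    rw [mul_pow, mul_pow, ← Real.rpow_natCast (A ^ ((4 : ℝ) / 9)), ← Real.rpow_mul hA,
      ← Real.rpow_natCast (B ^ ((5 : ℝ) / 9)), ← Real.rpow_mul hB]
    have e1 : (4 : ℝ) / 9 * ((18 : ℕ) : ℝ) = ((8 : ℕ) : ℝ) := by norm_num
    have e2 : (5 : ℝ) / 9 * ((18 : ℕ) : ℝ) = ((10 : ℕ) : ℝ) := by norm_num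
    rw [e1, e2, Real.rpow_natCast, Real.rpow_natCast]
    ring
  have h9 : |u z| ^ 18 ≤ (C * A ^ ((4 : ℝ) / 9) * B ^ ((5 : ℝ) / 9)) ^ 18 := by
    rw [h8]
    refine h7.trans (mul_le_mul_of_nonneg_right ?_ (by positivity))
    exact pow_le_pow_right₀ hC1 (by norm_num)
  exact (pow_le_pow_iff_left₀ (abs_nonneg _) (by positivity) (by norm_num)).1 h9

end

end Pool.Agent.Lib.MP_79abb3_an.WG
end
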