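import Pool.Agent.Lib.MP_79abb3_an.WG.SerDef
import Pool.Agent.Lib.MP_79abb3_an.WG.Def

section

/-!
Theorem W, block G: series `∑ a_k(y) h_k(x)`, derivative.
-/

set_option autoImplicit false
set_option linter.unusedSectionVars false
set_option linter.unusedVariables false

open MeasureTheory Set Filter Topology Metric Laplacian
open scoped ContDiff InnerProductSpace

namespace Pool.Agent.Lib.MP_79abb3_an.WG

section

/-- `a_k' ` is again a family of coefficients. -/
theorem Coe.deriv {a : ℕ → ℝ → ℝ} (h : Coe a) : Coe (fun k => deriv (a k)) := by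
  refine ⟨fun k => (contDiff_infty_iff_deriv.1 (h.smooth k)).2, fun m Y L => ?_⟩
  obtain ⟨w, hw1, hw2⟩ := h.sm (m + 1) Y L
  refine ⟨w, hw1, fun k y hy => ?_⟩
  rw [← iteratedDeriv_succ']
  exact hw2 k y hy

end

section
variable {E : Type} [NormedAddCommGroup E] [NormedSpace ℝ E]

/-- PROOF: `norm_iteratedFDeriv_fderiv`. -/
theorem Geom.fderiv {H : Type} [NormedAddCommGroup H] [NormedSpace ℝ H] {lam : ℝ} {h : ℕ → E → H}
    (hh : Geom lam h) : Geom lam (fun k => fderiv ℝ (h k)) := by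
  refine ⟨fun k => (contDiff_infty_iff_fderiv.1 (hh.smooth k)).2, fun n => ?_⟩
  obtain ⟨B, hB⟩ := hh.bnd (n + 1)
  refine ⟨B, fun k x => ?_⟩
  rw [norm_iteratedFDeriv_fderiv]
  exact hB k x

/-- PROOF: composition with a continuous linear map `L`, `‖iteratedFDeriv n (L ∘ f)‖ ≤ ‖L‖ ...`
(`ContinuousLinearMap.norm_iteratedFDeriv_comp_left`). -/
theorem Geom.clm {H H' : Type} [NormedAddCommGroup H] [NormedSpace ℝ H] [NormedAddCommGroup H']
    [NormedSpace ℝ H'] (L : H →L[ℝ] H') {lam : ℝ} {h : ℕ → E → H}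
    (hh : Geom lam h) : Geom lam (fun k x => L (h k x)) := by
  refine ⟨fun k => L.contDiff.comp (hh.smooth k), fun n => ?_⟩
  obtain ⟨B, hB⟩ := hh.bnd n
  refine ⟨‖L‖ * B, fun k x => ?_⟩
  have h1 := L.norm_iteratedFDeriv_comp_left (f := h k) (x := x) (N := ∞) (n := n)
    (hh.smooth k).contDiffAt (by exact_mod_cast le_top)
  refine le_trans h1 ?_
  rw [mul_assoc]
  exact mul_le_mul_of_nonneg_left (hB k x) (norm_nonneg L)

private theorem geom_bnd0 {H : Type} [NormedAddCommGroup H] [NormedSpace ℝ H] {lam : ℝ}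
    {h : ℕ → E → H} (hh : Geom lam h) : ∃ B : ℝ, 0 ≤ B ∧ ∀ k x, ‖h k x‖ ≤ B * lam ^ k := by
  obtain ⟨B, hB⟩ := hh.bnd 0
  refine ⟨B, ?_, fun k x => ?_⟩
  · have h1 := hB 0 0
    rw [pow_zero, mul_one] at h1
    exact (norm_nonneg _).trans h1
  · have h1 := hB k x
    rwa [norm_iteratedFDeriv_zero] at h1

/-- PROOF: norm bound `|a_k(y)| B lam^k`, `Coe.sm 0`. -/
theorem SS_summable {H : Type} [NormedAddCommGroup H] [NormedSpace ℝ H] [CompleteSpace H]
    {a : ℕ → ℝ → ℝ} (ha : Coe a) {lam : ℝ} (hl : 0 ≤ lam) {h : ℕ → E → H} (hh : Geom lam h)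
    (p : E × ℝ) : Summable fun k => a k p.2 • h k p.1 := by
  obtain ⟨B, hB0, hB⟩ := geom_bnd0 hh
  obtain ⟨w, hw1, hw2⟩ := ha.sm 0 |p.2| lam
  refine Summable.of_norm_bounded (hw1.mul_left B) fun k => ?_
  have h1 := hw2 k p.2 le_rfl
  rw [iteratedDeriv_zero] at h1
  rw [norm_smul, Real.norm_eq_abs]
  calc |a k p.2| * ‖h k p.1‖ ≤ |a k p.2| * (B * lam ^ k) :=
        mul_le_mul_of_nonneg_left (hB k p.1) (abs_nonneg _)
    _ = B * (|a k p.2| * lam ^ k) := by ring
    _ ≤ B * w k := mul_le_mul_of_nonneg_left h1 hB0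

/-- The derivative of the series is a sum of two series of the same kind.
PROOF: `hasFDerivAt_tsum_of_isPreconnected` on the open convex set `{p | |p.2| < Y}`, `Y = |p.2| + 1`, with
bound `w_0 + w_1` from `Coe.sm 0`, `Coe.sm 1` (`L = lam`) and `Geom.bnd 0`, `Geom.bnd 1`
(`‖fderiv ℝ (h k) x‖ = ‖iteratedFDeriv ℝ 1 (h k) x‖`); then split the series
(`tsum_add`) and move the continuous linear maps out (`ContinuousLinearMap.map_tsum`) or keep them inside. -/
theorem SS_hasFDerivAt {H : Type} [NormedAddCommGroup H] [NormedSpace ℝ H] [CompleteSpace H]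
    {a : ℕ → ℝ → ℝ} (ha : Coe a) {lam : ℝ} (hl : 0 ≤ lam) {h : ℕ → E → H} (hh : Geom lam h)
    (p : E × ℝ) :
    HasFDerivAt (SS a h)
      ((SS a (fun k => fderiv ℝ (h k)) p).comp (ContinuousLinearMap.fst ℝ E ℝ) +
        (ContinuousLinearMap.snd ℝ E ℝ).smulRight (SS (fun k => deriv (a k)) h p)) p := by
  obtain ⟨B0, hB00, hB0⟩ := geom_bnd0 hh
  obtain ⟨B1, hB10, hB1⟩ := geom_bnd0 hh.fderiv
  obtain ⟨w0, hw01, hw02⟩ := ha.sm 0 (|p.2| + 1) lam
  obtain ⟨w1, hw11, hw12⟩ := ha.sm 1 (|p.2| + 1) lam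
  set s : Set (E × ℝ) := {q | |q.2| < |p.2| + 1} with hs
  have hso : IsOpen s := isOpen_lt (continuous_abs.comp continuous_snd) continuous_const
  have hsc : IsPreconnected s := by
    have h1 : s = Set.univ ×ˢ Metric.ball (0 : ℝ) (|p.2| + 1) := by
      ext q
      rw [hs, Set.mem_prod, Metric.mem_ball, Real.dist_eq, sub_zero]
      simp
    rw [h1]
    exact isPreconnected_univ.prod (convex_ball 0 _).isPreconnected
  have hps : p ∈ s := by
    show |p.2| < |p.2| + 1
    linarith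
  set f' : ℕ → E × ℝ → (E × ℝ →L[ℝ] H) := fun k q =>
    (a k q.2 • fderiv ℝ (h k) q.1).comp (ContinuousLinearMap.fst ℝ E ℝ) +
      (ContinuousLinearMap.snd ℝ E ℝ).smulRight (deriv (a k) q.2 • h k q.1) with hf'
  have hder : ∀ k q, q ∈ s → HasFDerivAt (fun q : E × ℝ => a k q.2 • h k q.1) (f' k q) q := by
    intro k q _
    have h1 : HasFDerivAt (fun q : E × ℝ => h k q.1)
        ((fderiv ℝ (h k) q.1).comp (ContinuousLinearMap.fst ℝ E ℝ)) q :=
      (((hh.smooth k).differentiable (by simp)) q.1).hasFDerivAt.comp q hasFDerivAt_fst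
    have h2 : HasFDerivAt (fun q : E × ℝ => a k q.2)
        (deriv (a k) q.2 • ContinuousLinearMap.snd ℝ E ℝ) q :=
      (((ha.smooth k).differentiable (by simp)) q.2).hasDerivAt.comp_hasFDerivAt q hasFDerivAt_snd
    refine (h2.smul h1).congr_fderiv ?_
    ext v <;> simp [hf', smul_smul]
  have hbd : ∀ k q, q ∈ s → ‖f' k q‖ ≤ B1 * w0 k + B0 * w1 k := by
    intro k q hq
    have hq' : |q.2| ≤ |p.2| + 1 := le_of_lt hq
    have h1 := hw02 k q.2 hq'
    have h2 := hw12 k q.2 hq'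
    rw [iteratedDeriv_zero] at h1
    rw [iteratedDeriv_one] at h2
    refine (norm_add_le _ _).trans (add_le_add ?_ ?_)
    · refine (ContinuousLinearMap.opNorm_comp_le _ _).trans ?_
      refine (mul_le_of_le_one_right (norm_nonneg _)
        (ContinuousLinearMap.norm_fst_le ℝ E ℝ)).trans ?_
      rw [norm_smul, Real.norm_eq_abs]
      calc |a k q.2| * ‖fderiv ℝ (h k) q.1‖ ≤ |a k q.2| * (B1 * lam ^ k) :=
            mul_le_mul_of_nonneg_left (hB1 k q.1) (abs_nonneg _)
        _ = B1 * (|a k q.2| * lam ^ k) := by ring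
        _ ≤ B1 * w0 k := mul_le_mul_of_nonneg_left h1 hB10
    · rw [ContinuousLinearMap.norm_smulRight_apply]
      refine (mul_le_of_le_one_left (norm_nonneg _)
        (ContinuousLinearMap.norm_snd_le ℝ E ℝ)).trans ?_
      rw [norm_smul, Real.norm_eq_abs]
      calc |deriv (a k) q.2| * ‖h k q.1‖ ≤ |deriv (a k) q.2| * (B0 * lam ^ k) :=
            mul_le_mul_of_nonneg_left (hB0 k q.1) (abs_nonneg _)
        _ = B0 * (|deriv (a k) q.2| * lam ^ k) := by ring
        _ ≤ B0 * w1 k := mul_le_mul_of_nonneg_left h2 hB00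
  have hmain := hasFDerivAt_tsum_of_isPreconnected ((hw01.mul_left B1).add (hw11.mul_left B0))
    hso hsc hder hbd hps (SS_summable ha hl hh p) hps
  refine hmain.congr_fderiv ?_
  have hA : HasSum (fun k => a k p.2 • fderiv ℝ (h k) p.1) (SS a (fun k => fderiv ℝ (h k)) p) :=
    (SS_summable ha hl hh.fderiv p).hasSum
  have hB : HasSum (fun k => deriv (a k) p.2 • h k p.1) (SS (fun k => deriv (a k)) h p) :=
    (SS_summable ha.deriv hl hh p).hasSum
  have hA' := ((ContinuousLinearMap.compL ℝ (E × ℝ) E H).flip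
    (ContinuousLinearMap.fst ℝ E ℝ)).hasSum hA
  have hB' := (ContinuousLinearMap.smulRightL ℝ (E × ℝ) H
    (ContinuousLinearMap.snd ℝ E ℝ)).hasSum hB
  exact (hA'.add hB').tsum_eq

end

end Pool.Agent.Lib.MP_79abb3_an.WG
end

section

/-!
Theorem W, block G: series `∑ a_k(y) h_k(x)`, smoothness.
-/

set_option autoImplicit false
set_option linter.unusedSectionVars false
set_option linter.unusedVariables false

open MeasureTheory Set Filter Topology Metric Laplacian
open scoped ContDiff InnerProductSpace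

namespace Pool.Agent.Lib.MP_79abb3_an.WG

section
variable {E : Type} [NormedAddCommGroup E] [NormedSpace ℝ E]

private theorem serA2_aux {lam : ℝ} (hl : 0 ≤ lam) (n : ℕ) :
    ∀ (H : Type) [NormedAddCommGroup H] [NormedSpace ℝ H] [CompleteSpace H]
      (a : ℕ → ℝ → ℝ) (_ : Coe a) (h : ℕ → E → H) (_ : Geom lam h), ContDiff ℝ n (SS a h) := by
  induction n with
  | zero =>
    intro H _ _ _ a ha h hh
    refine contDiff_zero.2 (continuous_iff_continuousAt.2 fun p => ?_)
    exact (SS_hasFDerivAt ha hl hh p).continuousAt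
  | succ n ih =>
    intro H _ _ _ a ha h hh
    rw [Nat.cast_succ, contDiff_succ_iff_fderiv]
    refine ⟨fun p => (SS_hasFDerivAt ha hl hh p).differentiableAt,
      fun h => absurd h (by simp), ?_⟩
    have h1 : fderiv ℝ (SS a h) = fun p =>
        (SS a (fun k => fderiv ℝ (h k)) p).comp (ContinuousLinearMap.fst ℝ E ℝ) +
        (ContinuousLinearMap.smulRightL ℝ (E × ℝ) H (ContinuousLinearMap.snd ℝ E ℝ))
          (SS (fun k => deriv (a k)) h p) :=
      funext fun p => (SS_hasFDerivAt ha hl hh p).fderiv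
    rw [h1]
    refine ContDiff.add ?_ ?_
    · exact (ih (E →L[ℝ] H) a ha _ hh.fderiv).clm_comp contDiff_const
    · exact (ContinuousLinearMap.contDiff _).comp (ih H _ ha.deriv h hh)

/-- PROOF: induction on `n` for all `H`, `a`, `h` simultaneously (`contDiff_succ_iff_fderiv`,
`SS_hasFDerivAt`, `Geom.fderiv`, `Coe.deriv`; composition with fixed continuous linear maps is smooth). -/
theorem SS_contDiff {H : Type} [NormedAddCommGroup H] [NormedSpace ℝ H] [CompleteSpace H]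
    {a : ℕ → ℝ → ℝ} (ha : Coe a) {lam : ℝ} (hl : 0 ≤ lam) {h : ℕ → E → H} (hh : Geom lam h) (n : ℕ) :
    ContDiff ℝ n (SS a h) :=
  serA2_aux hl n H a ha h hh

/-- Derivative in `y`. PROOF: from `SS_hasFDerivAt` (restrict to the line `y ↦ (x, y)`). -/
theorem SS_hasDerivAt {H : Type} [NormedAddCommGroup H] [NormedSpace ℝ H] [CompleteSpace H]
    {a : ℕ → ℝ → ℝ} (ha : Coe a) {lam : ℝ} (hl : 0 ≤ lam) {h : ℕ → E → H} (hh : Geom lam h)
    (x : E) (y : ℝ) :
    HasDerivAt (fun y => SS a h (x, y)) (SS (fun k => deriv (a k)) h (x, y)) y := by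
  have h1 : HasDerivAt (fun y : ℝ => (x, y)) ((0 : E), (1 : ℝ)) y :=
    (hasDerivAt_const y x).prodMk (hasDerivAt_id y)
  have h2 := (SS_hasFDerivAt ha hl hh (x, y)).comp_hasDerivAt y h1
  have h3 : ((SS a (fun k => fderiv ℝ (h k)) (x, y)).comp (ContinuousLinearMap.fst ℝ E ℝ) +
      (ContinuousLinearMap.snd ℝ E ℝ).smulRight (SS (fun k => deriv (a k)) h (x, y)))
        ((0 : E), (1 : ℝ)) = SS (fun k => deriv (a k)) h (x, y) := by
    simp
  rw [h3] at h2
  exact h2

end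

end Pool.Agent.Lib.MP_79abb3_an.WG
end

section

/-!
Theorem W, block G: series `∑ a_k(y) h_k(x)`, Laplacian.
-/

set_option autoImplicit false
set_option linter.unusedSectionVars false
set_option linter.unusedVariables false

open MeasureTheory Set Filter Topology Metric Laplacian
open scoped ContDiff InnerProductSpace

namespace Pool.Agent.Lib.MP_79abb3_an.WG

section
variable {E : Type} [NormedAddCommGroup E] [InnerProductSpace ℝ E] [FiniteDimensional ℝ E]

/-- the trace of a bilinear form in the standard orthonormal basis -/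
private noncomputable def serA3_tr : (E →L[ℝ] (E →L[ℝ] ℝ)) →L[ℝ] ℝ :=
  ∑ i, (ContinuousLinearMap.apply ℝ ℝ (stdOrthonormalBasis ℝ E i)).comp
    (ContinuousLinearMap.apply ℝ (E →L[ℝ] ℝ) (stdOrthonormalBasis ℝ E i))

private theorem serA3_lap (u : E → ℝ) (x : E) :
    Δ u x = serA3_tr (fderiv ℝ (fderiv ℝ u) x) := by
  rw [InnerProductSpace.laplacian_eq_iteratedFDeriv_orthonormalBasis u (stdOrthonormalBasis ℝ E)]
  unfold serA3_tr
  simp only [sum_apply, ContinuousLinearMap.comp_apply,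
    ContinuousLinearMap.apply_apply]
  refine Finset.sum_congr rfl fun i _ => ?_
  rw [iteratedFDeriv_two_apply]
  rfl

private theorem serA3_hasFDerivAt {H : Type} [NormedAddCommGroup H] [NormedSpace ℝ H]
    [CompleteSpace H] {a : ℕ → ℝ → ℝ} (ha : Coe a) {lam : ℝ} (hl : 0 ≤ lam) {h : ℕ → E → H}
    (hh : Geom lam h) (x : E) (y : ℝ) :
    HasFDerivAt (fun x => SS a h (x, y)) (SS a (fun k => fderiv ℝ (h k)) (x, y)) x := by
  have h1 : HasFDerivAt (fun x : E => (x, y)) (ContinuousLinearMap.inl ℝ E ℝ) x :=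
    hasFDerivAt_prodMk_left x y
  have h2 := (SS_hasFDerivAt ha hl hh (x, y)).comp x h1
  refine h2.congr_fderiv ?_
  ext v
  simp

/-- PROOF: `laplacian_eq_iteratedFDeriv_stdOrthonormalBasis`: `Δ u = L ∘ iteratedFDeriv ℝ 2 u` for a continuous
linear `L`; `norm_iteratedFDeriv_iteratedFDeriv...` or twice `Geom.fderiv` and `Geom.clm`
(`lap_eq_sum`). -/
theorem Geom.lap {lam : ℝ} {h : ℕ → E → ℝ} (hh : Geom lam h) : Geom lam (fun k => Δ (h k)) := by
  have h1 := Geom.clm serA3_tr hh.fderiv.fderiv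
  have h2 : (fun k => Δ (h k)) = fun k x => serA3_tr (_root_.fderiv ℝ (_root_.fderiv ℝ (h k)) x) :=
    funext fun k => funext fun x => serA3_lap (h k) x
  rw [h2]
  exact h1

/-- Laplacian in `x`. PROOF: for fixed `y`, `contDiff_tsum` / `iteratedFDeriv_tsum` (`N = 2`) with the global
bounds `|a_k(y)| B_n lam^k`; the Laplacian is a continuous linear function of `iteratedFDeriv ℝ 2`
(`laplacian_eq_iteratedFDeriv_stdOrthonormalBasis`), exchange with `tsum`. -/
theorem SS_lap {a : ℕ → ℝ → ℝ} (ha : Coe a) {lam : ℝ} (hl : 0 ≤ lam) {h : ℕ → E → ℝ}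
    (hh : Geom lam h) (x : E) (y : ℝ) :
    Δ (fun x => ∑' k, a k y * h k x) x = ∑' k, a k y * Δ (h k) x := by
  have h1 : (fun x => ∑' k, a k y * h k x) = fun x => SS a h (x, y) := rfl
  have h2 : fderiv ℝ (fun x => SS a h (x, y)) = fun x => SS a (fun k => fderiv ℝ (h k)) (x, y) :=
    funext fun x => (serA3_hasFDerivAt ha hl hh x y).fderiv
  rw [h1, serA3_lap, h2, (serA3_hasFDerivAt ha hl hh.fderiv x y).fderiv]
  have h3 := serA3_tr.hasSum (SS_summable ha hl hh.fderiv.fderiv (x, y)).hasSum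
  have h4 := h3.tsum_eq
  have h5 : SS a (fun k => fderiv ℝ (fderiv ℝ (h k))) (x, y) =
      ∑' k, a k (x, y).2 • fderiv ℝ (fderiv ℝ (h k)) (x, y).1 := rfl
  rw [h5, ← h4]
  refine tsum_congr fun k => ?_
  rw [map_smul, smul_eq_mul, serA3_lap]

end

end Pool.Agent.Lib.MP_79abb3_an.WG
end

section

/-!
Theorem W, block G: the coefficients.
-/

set_option autoImplicit false
set_option linter.unusedSectionVars false
set_option linter.unusedVariables false

open MeasureTheory Set Filter Topology Metric Laplacian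
open scoped ContDiff InnerProductSpace

namespace Pool.Agent.Lib.MP_79abb3_an.WG

section

theorem deriv_cs (m k : ℕ) (y : ℝ) : HasDerivAt (cs m k) (cs (m + 1) k y) y := by
  rcases lt_trichotomy m (2 * k + 2) with h | h | h
  · have h1 : cs m k = fun y => y ^ (2 * k + 2 - m) / ((2 * k + 2 - m).factorial : ℝ) := by
      funext y
      unfold cs
      rw [if_pos h.le]
    obtain ⟨j, hj⟩ : ∃ j, 2 * k + 2 - m = j + 1 := ⟨2 * k + 2 - m - 1, by omega⟩
    have h2 : cs (m + 1) k y = y ^ j / (j.factorial : ℝ) := by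
      unfold cs
      rw [if_pos (by omega), show 2 * k + 2 - (m + 1) = j by omega]
    rw [h1, h2, hj]
    have h3 := (hasDerivAt_pow (j + 1) y).div_const ((j + 1).factorial : ℝ)
    refine h3.congr_deriv ?_
    have h4 : ((j.factorial : ℕ) : ℝ) ≠ 0 := by exact_mod_cast j.factorial_ne_zero
    have h5 : ((j : ℝ) + 1) ≠ 0 := by positivity
    rw [Nat.factorial_succ, Nat.add_sub_cancel]
    push_cast
    field_simp
  · have h1 : cs m k = fun _ => 1 := by
      funext y
      unfold cs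
      rw [if_pos h.le, h, Nat.sub_self]
      simp
    have h2 : cs (m + 1) k y = 0 := by
      unfold cs
      rw [if_neg (by omega)]
    rw [h1, h2]
    exact hasDerivAt_const y 1
  · have h1 : cs m k = fun _ => 0 := by
      funext y
      unfold cs
      rw [if_neg (by omega)]
    have h2 : cs (m + 1) k y = 0 := by
      unfold cs
      rw [if_neg (by omega)]
    rw [h1, h2]
    exact hasDerivAt_const y 0

private theorem serA4_cs_contDiff (m k : ℕ) : ContDiff ℝ ∞ (cs m k) := by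
  unfold cs
  split_ifs
  · exact (contDiff_id.pow _).div_const _
  · exact contDiff_const

private theorem serA4_iter (σ : ℝ) (k j : ℕ) : ∀ m : ℕ,
    iteratedDeriv j (fun y => σ ^ (k + 1) * cs m k y) = fun y => σ ^ (k + 1) * cs (m + j) k y := by
  induction j with
  | zero =>
    intro m
    rw [iteratedDeriv_zero, add_zero]
  | succ j ih =>
    intro m
    have h1 : deriv (fun y => σ ^ (k + 1) * cs m k y) = fun y => σ ^ (k + 1) * cs (m + 1) k y :=
      funext fun y => ((deriv_cs m k y).const_mul _).deriv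
    rw [iteratedDeriv_succ', h1, ih (m + 1)]
    funext y
    rw [show m + 1 + j = m + (j + 1) by omega]

private theorem serA4_summable (n : ℕ) {A M : ℝ} (hA : 0 ≤ A) (hM : 1 ≤ M) :
    Summable fun k : ℕ => (if n ≤ 2 * k + 2 then A ^ (2 * k + 2 - n) /
      ((2 * k + 2 - n).factorial : ℝ) else 0) * M ^ k := by
  rw [← summable_nat_add_iff n]
  have hs : Summable fun k : ℕ => (A * M) ^ (2 * k + n + 2) / ((2 * k + n + 2).factorial : ℝ) :=
    (Real.summable_pow_div_factorial (A * M)).comp_injective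
      (i := fun k : ℕ => 2 * k + n + 2) fun a b hab => by
        have hab' : 2 * a + n + 2 = 2 * b + n + 2 := hab
        omega
  refine Summable.of_nonneg_of_le (fun k => ?_) (fun k => ?_) (hs.mul_left (M ^ n))
  · rw [if_pos (by omega)]
    positivity
  · rw [if_pos (by omega), show 2 * (k + n) + 2 - n = 2 * k + n + 2 by omega]
    have h1 : M ^ (k + n) ≤ M ^ n * M ^ (2 * k + n + 2) := by
      rw [← pow_add]
      exact pow_le_pow_right₀ hM (by omega)
    have h2 : 0 ≤ A ^ (2 * k + n + 2) / ((2 * k + n + 2).factorial : ℝ) := by positivity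
    calc A ^ (2 * k + n + 2) / ((2 * k + n + 2).factorial : ℝ) * M ^ (k + n)
        ≤ A ^ (2 * k + n + 2) / ((2 * k + n + 2).factorial : ℝ) *
          (M ^ n * M ^ (2 * k + n + 2)) := mul_le_mul_of_nonneg_left h1 h2
      _ = M ^ n * ((A * M) ^ (2 * k + n + 2) / ((2 * k + n + 2).factorial : ℝ)) := by
          rw [mul_pow]
          ring

private theorem serA4_abs {σ : ℝ} (hσ : |σ| ≤ 1) (k : ℕ) (x : ℝ) {z L : ℝ} (hx : |x| ≤ z) :
    |σ ^ (k + 1) * x| * L ^ k ≤ z * (|L| + 1) ^ k := by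
  have h1 : |σ ^ (k + 1)| ≤ 1 := by
    rw [abs_pow]
    exact pow_le_one₀ (abs_nonneg _) hσ
  have h2 : |σ ^ (k + 1) * x| ≤ z := by
    rw [abs_mul]
    calc |σ ^ (k + 1)| * |x| ≤ 1 * |x| := mul_le_mul_of_nonneg_right h1 (abs_nonneg _)
      _ ≤ z := by rw [one_mul]; exact hx
  have h3 : L ^ k ≤ (|L| + 1) ^ k := by
    calc L ^ k ≤ |L ^ k| := le_abs_self _
      _ = |L| ^ k := abs_pow _ _
      _ ≤ (|L| + 1) ^ k := pow_le_pow_left₀ (abs_nonneg _) (by linarith) k
  have hz : 0 ≤ z := (abs_nonneg _).trans hx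
  calc |σ ^ (k + 1) * x| * L ^ k ≤ |σ ^ (k + 1) * x| * (|L| + 1) ^ k :=
        mul_le_mul_of_nonneg_left h3 (abs_nonneg _)
    _ ≤ z * (|L| + 1) ^ k := mul_le_mul_of_nonneg_right h2 (by positivity)

/-- The coefficients of `Ser`: `σ^(k+1) y^(2k+2-m)/(2k+2-m)!` (zero if `m > 2k+2`), `|σ| ≤ 1`.
PROOF: the `j`-th derivative of `cs m k` is `cs (m+j) k` (induction), and
`|cs n k y| L^k ≤ Y^{2k+2-n} L^k/(2k+2-n)!`, summable for `L ≥ 1` w.l.o.g. by comparison with the exponential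
series (with `j = 2k+2-n`, `L^k ≤ (L+1)^{(j+n)/2} ≤ (L+1)^{j+n}`: `∑_j Y^j (L+1)^j/j!`). -/
theorem coe_cs (σ : ℝ) (hσ : |σ| ≤ 1) (m : ℕ) : Coe (fun k y => σ ^ (k + 1) * cs m k y) := by
  refine ⟨fun k => contDiff_const.mul (serA4_cs_contDiff m k), fun j Y L => ?_⟩
  refine ⟨_, serA4_summable (m + j) (abs_nonneg Y) (M := |L| + 1)
    (by linarith [abs_nonneg L]), fun k y hy => ?_⟩
  rw [serA4_iter]
  refine serA4_abs hσ k _ ?_
  unfold cs
  split_ifs
  · rw [abs_div, abs_pow, abs_of_nonneg (Nat.cast_nonneg (α := ℝ) (Nat.factorial _))]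
    refine div_le_div_of_nonneg_right ?_ (Nat.cast_nonneg _)
    exact pow_le_pow_left₀ (abs_nonneg _) (hy.trans (le_abs_self Y)) _
  · rw [abs_zero]

private theorem serA4_deriv_I (σ : ℝ) (k : ℕ) :
    deriv (fun y : ℝ => σ ^ (k + 1) * (y ^ (2 * k + 3) / ((2 * k + 3).factorial : ℝ))) =
      fun y => σ ^ (k + 1) * cs 0 k y := by
  funext y
  have h3 := ((hasDerivAt_pow (2 * k + 3) y).div_const ((2 * k + 3).factorial : ℝ)).const_mul
    (σ ^ (k + 1))
  rw [h3.deriv]
  unfold cs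
  rw [if_pos (by omega), show 2 * k + 2 - 0 = 2 * k + 2 by omega,
    show 2 * k + 3 = (2 * k + 2) + 1 by omega, Nat.add_sub_cancel, Nat.factorial_succ]
  have h4 : (((2 * k + 2).factorial : ℕ) : ℝ) ≠ 0 := by
    exact_mod_cast (2 * k + 2).factorial_ne_zero
  have h5 : (((2 * k + 2 + 1 : ℕ)) : ℝ) ≠ 0 := by positivity
  push_cast at h5 ⊢
  field_simp

/-- The coefficients of `SerI`. -/
theorem coe_csI (σ : ℝ) (hσ : |σ| ≤ 1) :
    Coe (fun k y => σ ^ (k + 1) * (y ^ (2 * k + 3) / ((2 * k + 3).factorial : ℝ))) := by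
  refine ⟨fun k => contDiff_const.mul ((contDiff_id.pow _).div_const _), fun j Y L => ?_⟩
  cases j with
  | zero =>
    have hM : 1 ≤ |L| + 1 := by linarith [abs_nonneg L]
    have hs : Summable fun k : ℕ => (|Y| * (|L| + 1)) ^ (2 * k + 3) /
        ((2 * k + 3).factorial : ℝ) :=
      (Real.summable_pow_div_factorial (|Y| * (|L| + 1))).comp_injective
        (i := fun k : ℕ => 2 * k + 3) fun a b hab => by
          have hab' : 2 * a + 3 = 2 * b + 3 := hab
          omega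
    refine ⟨_, hs, fun k y hy => ?_⟩
    rw [iteratedDeriv_zero]
    have h1 : |y ^ (2 * k + 3) / ((2 * k + 3).factorial : ℝ)| ≤
        |Y| ^ (2 * k + 3) / ((2 * k + 3).factorial : ℝ) := by
      rw [abs_div, abs_pow, abs_of_nonneg (Nat.cast_nonneg (α := ℝ) (Nat.factorial _))]
      refine div_le_div_of_nonneg_right ?_ (Nat.cast_nonneg _)
      exact pow_le_pow_left₀ (abs_nonneg _) (hy.trans (le_abs_self Y)) _
    refine (serA4_abs hσ k _ h1).trans ?_
    rw [mul_pow, mul_div_right_comm]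
    refine mul_le_mul_of_nonneg_left ?_ (by positivity)
    exact pow_le_pow_right₀ hM (by omega)
  | succ j =>
    obtain ⟨w, hw1, hw2⟩ := (coe_cs σ hσ 0).sm j Y L
    refine ⟨w, hw1, fun k y hy => ?_⟩
    rw [iteratedDeriv_succ', serA4_deriv_I]
    exact hw2 k y hy

end

end Pool.Agent.Lib.MP_79abb3_an.WG
end

section

/-!
Theorem W, block G: the harmonic and hyperbolic extensions, smoothness and derivatives in `y`.
-/

set_option autoImplicit false
set_option linter.unusedSectionVars false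
set_option linter.unusedVariables false

open MeasureTheory Set Filter Topology Metric Laplacian
open scoped ContDiff InnerProductSpace

namespace Pool.Agent.Lib.MP_79abb3_an.WG

section
variable {E : Type} [NormedAddCommGroup E] [InnerProductSpace ℝ E] [FiniteDimensional ℝ E]
  [MeasurableSpace E] [BorelSpace E] {G : Set E} {lam : ℝ} {f : ℕ → E → ℝ}

theorem LFS.geom (h : LFS G lam f) : Geom lam f := ⟨h.smooth, h.bnd⟩

theorem LFS.geomLap (h : LFS G lam f) : Geom lam (fun k => Δ (f k)) := h.geom.lap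

private theorem serB1_Ser (σ : ℝ) (f : ℕ → E → ℝ) (x : E) (y : ℝ) : Ser σ f x y =
    f 0 x - SS (fun k y => σ ^ (k + 1) * cs 0 k y) (fun k => Δ (f k)) (x, y) := rfl

private theorem serB1_SerI (σ : ℝ) (f : ℕ → E → ℝ) (x : E) (y : ℝ) : SerI σ f x y =
    y * f 0 x - SS (fun k y => σ ^ (k + 1) * (y ^ (2 * k + 3) / ((2 * k + 3).factorial : ℝ)))
      (fun k => Δ (f k)) (x, y) := rfl

private theorem serB1_deriv_cs (σ : ℝ) (m k : ℕ) :
    deriv (fun y => σ ^ (k + 1) * cs m k y) = fun y => σ ^ (k + 1) * cs (m + 1) k y :=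
  funext fun y => ((deriv_cs m k y).const_mul _).deriv

private theorem serB1_deriv_I (σ : ℝ) (k : ℕ) :
    deriv (fun y : ℝ => σ ^ (k + 1) * (y ^ (2 * k + 3) / ((2 * k + 3).factorial : ℝ))) =
      fun y => σ ^ (k + 1) * cs 0 k y := by
  funext y
  have h3 := ((hasDerivAt_pow (2 * k + 3) y).div_const ((2 * k + 3).factorial : ℝ)).const_mul
    (σ ^ (k + 1))
  rw [h3.deriv]
  unfold cs
  rw [if_pos (by omega), show 2 * k + 2 - 0 = 2 * k + 2 by omega,
    show 2 * k + 3 = (2 * k + 2) + 1 by omega, Nat.add_sub_cancel, Nat.factorial_succ]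
  have h4 : (((2 * k + 2).factorial : ℕ) : ℝ) ≠ 0 := by
    exact_mod_cast (2 * k + 2).factorial_ne_zero
  have h5 : (((2 * k + 2 + 1 : ℕ)) : ℝ) ≠ 0 := by positivity
  push_cast at h5 ⊢
  field_simp

/-- `Ser σ f` is smooth in `(x,y)`. PROOF: `Ser σ f x y = f 0 x - SS a (Δ f_k) (x,y)`, `SS_contDiff`,
`coe_cs σ hσ 0`. -/
theorem LFS.Ser_contDiff (h : LFS G lam f) (hl : 0 ≤ lam) {σ : ℝ} (hσ : |σ| ≤ 1) (n : ℕ) :
    ContDiff ℝ n (fun p : E × ℝ => Ser σ f p.1 p.2) := by
  have h1 : (fun p : E × ℝ => Ser σ f p.1 p.2) = fun p => f 0 p.1 -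
      SS (fun k y => σ ^ (k + 1) * cs 0 k y) (fun k => Δ (f k)) p := rfl
  rw [h1]
  exact (((h.smooth 0).of_le (by exact_mod_cast le_top)).comp contDiff_fst).sub
    (SS_contDiff (coe_cs σ hσ 0) hl h.geomLap n)

theorem LFS.SerI_contDiff (h : LFS G lam f) (hl : 0 ≤ lam) {σ : ℝ} (hσ : |σ| ≤ 1) (n : ℕ) :
    ContDiff ℝ n (fun p : E × ℝ => SerI σ f p.1 p.2) := by
  have h1 : (fun p : E × ℝ => SerI σ f p.1 p.2) = fun p => p.2 * f 0 p.1 -
      SS (fun k y => σ ^ (k + 1) * (y ^ (2 * k + 3) / ((2 * k + 3).factorial : ℝ)))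
        (fun k => Δ (f k)) p := rfl
  rw [h1]
  exact (contDiff_snd.mul (((h.smooth 0).of_le (by exact_mod_cast le_top)).comp contDiff_fst)).sub
    (SS_contDiff (coe_csI σ hσ) hl h.geomLap n)

theorem LFS.UU_contDiff (h : LFS G lam f) (hl : 0 ≤ lam) (n : ℕ) : ContDiff ℝ n (UU f) :=
  (h.Ser_contDiff hl (σ := 1) (by norm_num) n).comp
    (WithLp.prodContinuousLinearEquiv 2 ℝ E ℝ).contDiff

/-- PROOF: `SS_hasDerivAt`; the derivative of `y^(2k+3)/(2k+3)!` is `y^(2k+2)/(2k+2)! = cs 0 k y`. -/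
theorem LFS.SerI_deriv (h : LFS G lam f) (hl : 0 ≤ lam) {σ : ℝ} (hσ : |σ| ≤ 1) (x : E) (y : ℝ) :
    HasDerivAt (fun y => SerI σ f x y) (Ser σ f x y) y := by
  have h1 := SS_hasDerivAt (coe_csI σ hσ) hl h.geomLap x y
  simp only [serB1_deriv_I] at h1
  have h2 := ((hasDerivAt_id y).mul_const (f 0 x)).sub h1
  rw [one_mul] at h2
  exact h2

/-- PROOF: `SS_hasDerivAt`: `∂_y Ser = - ∑ σ^(k+1) cs 1 k y Δ f_k x`. -/
theorem LFS.Ser_deriv (h : LFS G lam f) (hl : 0 ≤ lam) {σ : ℝ} (hσ : |σ| ≤ 1) (x : E) (y : ℝ) :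
    HasDerivAt (fun y => Ser σ f x y) (- ∑' k, σ ^ (k + 1) * cs 1 k y * Δ (f k) x) y := by
  have h1 := SS_hasDerivAt (coe_cs σ hσ 0) hl h.geomLap x y
  simp only [serB1_deriv_cs] at h1
  have h2 := (hasDerivAt_const y (f 0 x)).sub h1
  rw [zero_sub] at h2
  exact h2

/-- PROOF: `SS_hasDerivAt` twice. `∂_y² Ser = - ∑ σ^(k+1) cs 2 k y Δ f_k x`. -/
theorem LFS.Ser_deriv2 (h : LFS G lam f) (hl : 0 ≤ lam) {σ : ℝ} (hσ : |σ| ≤ 1) (x : E) (y : ℝ) :
    deriv (fun y => deriv (fun y => Ser σ f x y) y) y =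
      - ∑' k, σ ^ (k + 1) * cs 2 k y * Δ (f k) x := by
  have h0 : (fun y => deriv (fun y => Ser σ f x y) y) =
      fun y => - SS (fun k y => σ ^ (k + 1) * cs 1 k y) (fun k => Δ (f k)) (x, y) :=
    funext fun y => (h.Ser_deriv hl hσ x y).deriv
  rw [h0]
  have h1 := SS_hasDerivAt (coe_cs σ hσ 1) hl h.geomLap x y
  simp only [serB1_deriv_cs] at h1
  exact h1.neg.deriv

private theorem serB1_cs_zero (k : ℕ) : cs 0 k 0 = 0 := by
  unfold cs
  rw [if_pos (by omega), zero_pow (by omega), zero_div]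

theorem UU_zero (f : ℕ → E → ℝ) (x : E) : UU f (pt x 0) = f 0 x := by
  show f 0 x - ∑' k : ℕ, (1 : ℝ) ^ (k + 1) * cs 0 k 0 * Δ (f k) x = f 0 x
  simp only [serB1_cs_zero, mul_zero, zero_mul, tsum_zero, sub_zero]

theorem Ser_zero (σ : ℝ) (f : ℕ → E → ℝ) (x : E) : Ser σ f x 0 = f 0 x := by
  unfold Ser
  simp only [serB1_cs_zero, mul_zero, zero_mul, tsum_zero, sub_zero]

theorem SerI_zero (σ : ℝ) (f : ℕ → E → ℝ) (x : E) : SerI σ f x 0 = 0 := by
  unfold SerI
  have h1 : ∀ k : ℕ, (0 : ℝ) ^ (2 * k + 3) = 0 := fun k => zero_pow (by omega)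
  simp only [h1, zero_div, mul_zero, zero_mul, tsum_zero, sub_zero]

theorem Ser_neg (σ : ℝ) (f : ℕ → E → ℝ) (x : E) (y : ℝ) : Ser σ f x (-y) = Ser σ f x y := by
  unfold Ser
  have h1 : ∀ k : ℕ, cs 0 k (-y) = cs 0 k y := by
    intro k
    unfold cs
    rw [if_pos (by omega), if_pos (by omega), Even.neg_pow (by
      rw [show 2 * k + 2 - 0 = 2 * (k + 1) by omega]
      exact even_two_mul _)]
  simp only [h1]

end

end Pool.Agent.Lib.MP_79abb3_an.WG
end
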