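import Pool.Agent.Lib.MP_79abb3_an.WG.LapB
import Pool.Agent.Lib.MP_79abb3_an.WG.SerB1

/-!
Theorem W, block G: pairing of the extensions with test functions of `x`.
-/

set_option autoImplicit false
set_option linter.unusedSectionVars false
set_option linter.unusedVariables false

open MeasureTheory Set Filter Topology Metric Laplacian
open scoped ContDiff InnerProductSpace

namespace Pool.Agent.Lib.MP_79abb3_an.WG

section
variable {E : Type} [NormedAddCommGroup E] [InnerProductSpace ℝ E] [FiniteDimensional ℝ E]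
  [MeasurableSpace E] [BorelSpace E] {G : Set E} {lam : ℝ} {f : ℕ → E → ℝ}

/-- The `L²` norm of a function. -/
noncomputable def n2 (g : E → ℝ) : ℝ := √(∫ x, g x ^ 2)

/-- Cauchy-Schwarz (also when the integrals are junk: `f g` is then bounded by the integrable case; here
both squares are integrable). -/
theorem abs_integral_mul_le {p g : E → ℝ} (hp : Continuous p) (hg : Continuous g)
    (hp2 : Integrable fun x => p x ^ 2) (hg2 : Integrable fun x => g x ^ 2) :
    |∫ x, p x * g x| ≤ n2 p * n2 g := by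
  have mp : MemLp p (ENNReal.ofReal 2) volume := by
    rw [ENNReal.ofReal_ofNat]
    exact (memLp_two_iff_integrable_sq hp.aestronglyMeasurable).2 hp2
  have mg : MemLp g (ENNReal.ofReal 2) volume := by
    rw [ENNReal.ofReal_ofNat]
    exact (memLp_two_iff_integrable_sq hg.aestronglyMeasurable).2 hg2
  have h1 := integral_mul_norm_le_Lp_mul_Lq Real.HolderConjugate.two_two mp mg
  have e : ∀ u : E → ℝ, (∫ x, ‖u x‖ ^ (2 : ℝ)) ^ (1 / (2 : ℝ)) = n2 u := by
    intro u
    unfold n2
    rw [Real.sqrt_eq_rpow]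
    congr 1
    refine integral_congr_ae (Eventually.of_forall fun x => ?_)
    show ‖u x‖ ^ (2 : ℝ) = u x ^ 2
    rw [Real.rpow_two, Real.norm_eq_abs, sq_abs]
  rw [e, e] at h1
  refine le_trans ?_ h1
  refine (abs_integral_le_integral_abs).trans (le_of_eq ?_)
  refine integral_congr_ae (Eventually.of_forall fun x => ?_)
  show |p x * g x| = ‖p x‖ * ‖g x‖
  rw [abs_mul, Real.norm_eq_abs, Real.norm_eq_abs]

/-- `|∫ f_k g| ≤ lam^k |g|`. -/
theorem LFS.pair_le (h : LFS G lam f) (hl : 0 ≤ lam) (k : ℕ) {g : E → ℝ} (hg : Continuous g)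
    (hc : HasCompactSupport g) : |∫ x, f k x * g x| ≤ lam ^ k * n2 g := by
  have hg2 : Integrable fun x => g x ^ 2 := by
    have e : (fun x => g x ^ 2) = fun x => g x * g x := funext fun x => sq (g x)
    rw [e]
    exact (hg.mul hg).integrable_of_hasCompactSupport hc.mul_left
  refine (abs_integral_mul_le (h.smooth k).continuous hg (h.int k) hg2).trans ?_
  refine mul_le_mul_of_nonneg_right ?_ (Real.sqrt_nonneg _)
  unfold n2
  have h1 : lam ^ (2 * k) = (lam ^ k) ^ 2 := by rw [← pow_mul, mul_comm]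
  rw [← Real.sqrt_sq (pow_nonneg hl k), ← h1]
  exact Real.sqrt_le_sqrt (h.l2 k)

/-- The pairing is a series. PROOF: exchange `∑` and `∫` (`integral_tsum`-type or
`hasSum_integral_of_summable_integral_norm`; on the compact support of `g`, `|Δ f_k| ≤ B lam^k`) and `green`. -/
theorem LFS.pair_Ser (h : LFS G lam f) (hl : 0 ≤ lam) {σ : ℝ} (hσ : |σ| ≤ 1) (y : ℝ) {g : E → ℝ}
    (hg : ContDiff ℝ 2 g) (hc : HasCompactSupport g) :
    ∫ x, Ser σ f x y * g x =
      (∫ x, f 0 x * g x) - ∑' k : ℕ, σ ^ (k + 1) * cs 0 k y * ∫ x, f k x * Δ g x := by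
  have hgc : Continuous g := hg.continuous
  have hint : ∀ u : E → ℝ, Continuous u → Integrable fun x => u x * g x := fun u hu =>
    (hu.mul hgc).integrable_of_hasCompactSupport hc.mul_left
  have hsc : Continuous fun x => Ser σ f x y := by
    have h1 : Continuous fun p : E × ℝ => Ser σ f p.1 p.2 := (h.Ser_contDiff hl hσ 0).continuous
    exact h1.comp (by fun_prop : Continuous fun x : E => (x, y))
  have h2 : ∀ k, ContDiff ℝ 2 (f k) := fun k => contDiff_infty.1 (h.smooth k) 2
  have hL : ∀ k, Continuous (Δ (f k)) := fun k => lap_continuous (h2 k)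
  have i0 := hint (f 0) (h.smooth 0).continuous
  have i1 := hint _ hsc
  -- the series
  set F : ℕ → E → ℝ := fun k x => σ ^ (k + 1) * cs 0 k y * Δ (f k) x * g x with hF
  have hFi : ∀ k, Integrable (F k) := fun k =>
    hint (fun x => σ ^ (k + 1) * cs 0 k y * Δ (f k) x) (continuous_const.mul (hL k))
  obtain ⟨B, hB⟩ := h.geomLap.bnd 0
  have hB' : ∀ k x, |Δ (f k) x| ≤ B * lam ^ k := by
    intro k x
    have := hB k x
    rwa [norm_iteratedFDeriv_zero, Real.norm_eq_abs] at this
  have hB0 : 0 ≤ B := by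
    have := (abs_nonneg _).trans (hB' 0 0)
    simpa using this
  obtain ⟨w, hw, hwb⟩ := (coe_cs σ hσ 0).sm 0 |y| lam
  have hwk : ∀ k, |σ ^ (k + 1) * cs 0 k y| * lam ^ k ≤ w k := by
    intro k
    have := hwb k y le_rfl
    rwa [iteratedDeriv_zero] at this
  have hgi : Integrable fun x => |g x| := (hgc.integrable_of_hasCompactSupport hc).abs
  have hFs : Summable fun k => ∫ x, ‖F k x‖ := by
    refine Summable.of_nonneg_of_le (fun k => integral_nonneg fun x => norm_nonneg _) (fun k => ?_)
      ((hw.mul_right B).mul_right (∫ x, |g x|))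
    rw [← integral_const_mul]
    refine integral_mono (hFi k).norm (hgi.const_mul _) fun x => ?_
    show ‖σ ^ (k + 1) * cs 0 k y * Δ (f k) x * g x‖ ≤ w k * B * |g x|
    rw [Real.norm_eq_abs, abs_mul, abs_mul]
    refine mul_le_mul_of_nonneg_right ?_ (abs_nonneg _)
    calc |σ ^ (k + 1) * cs 0 k y| * |Δ (f k) x|
        ≤ |σ ^ (k + 1) * cs 0 k y| * (B * lam ^ k) :=
          mul_le_mul_of_nonneg_left (hB' k x) (abs_nonneg _)
      _ = |σ ^ (k + 1) * cs 0 k y| * lam ^ k * B := by ring
      _ ≤ w k * B := mul_le_mul_of_nonneg_right (hwk k) hB0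
  have hts := integral_tsum_of_summable_integral_norm hFi hFs
  have e1 : ∀ k, ∫ x, F k x = σ ^ (k + 1) * cs 0 k y * ∫ x, f k x * Δ g x := by
    intro k
    rw [← green (h2 k) hg hc, ← integral_const_mul]
    refine integral_congr_ae (Eventually.of_forall fun x => ?_)
    show σ ^ (k + 1) * cs 0 k y * Δ (f k) x * g x = σ ^ (k + 1) * cs 0 k y * (Δ (f k) x * g x)
    ring
  have e2 : ∀ x, ∑' k, F k x = f 0 x * g x - Ser σ f x y * g x := by
    intro x
    show ∑' k, σ ^ (k + 1) * cs 0 k y * Δ (f k) x * g x = _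
    rw [tsum_mul_right]
    unfold Ser
    ring
  have e3 : ∫ x, ∑' k, F k x = (∫ x, f 0 x * g x) - ∫ x, Ser σ f x y * g x := by
    rw [← integral_sub i0 i1]
    exact integral_congr_ae (Eventually.of_forall e2)
  have e4 : ∑' k, ∫ x, F k x = ∑' k : ℕ, σ ^ (k + 1) * cs 0 k y * ∫ x, f k x * Δ g x :=
    tsum_congr e1
  rw [← e4, hts, e3]
  ring

end

end Pool.Agent.Lib.MP_79abb3_an.WG
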