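import Pool.Agent.Lib.MP_79abb3_an.WG.Bw

/-!
Theorem W, block G: the slices of the weight `bw 4`, rescaled.
-/

set_option autoImplicit false
set_option linter.unusedSectionVars false
set_option linter.unusedVariables false

open MeasureTheory Set Filter Topology Metric Laplacian
open scoped ContDiff InnerProductSpace

namespace Pool.Agent.Lib.MP_79abb3_an.WG

section
variable {E : Type} [NormedAddCommGroup E] [InnerProductSpace ℝ E] [FiniteDimensional ℝ E]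
  [MeasurableSpace E] [BorelSpace E]

/-- `x ↦ r^{-d} bw 4 ((x - x')/r, s)`. -/
noncomputable def sl (r s : ℝ) (x' x : E) : ℝ :=
  (r ^ Module.finrank ℝ E)⁻¹ * bw 4 (pt (r⁻¹ • (x - x')) s)

private theorem slA_norm (x : E) (s : ℝ) : ‖pt x s‖ ^ 2 = ‖x‖ ^ 2 + s ^ 2 := by
  rw [WithLp.prod_norm_sq_eq_of_L2]
  simp [pt]

private theorem slA_zero {x : E} {s : ℝ} (h : 1 ≤ ‖x‖ ^ 2 + s ^ 2) : bw 4 (pt x s) = 0 := by
  apply bw_zero (by norm_num)
  rw [← slA_norm] at h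
  by_contra h1
  rw [not_le] at h1
  have := pow_lt_one₀ (norm_nonneg (pt x s)) h1 two_ne_zero
  linarith

/-- PROOF: `bw 4 (pt x s) = pp 4 (1 - ‖x‖² - s²)`, `pp_contDiff 3`. -/
theorem sl_contDiff (r s : ℝ) (x' : E) : ContDiff ℝ 2 (sl r s x' : E → ℝ) := by
  have e : (sl r s x' : E → ℝ) = fun x => (r ^ Module.finrank ℝ E)⁻¹ *
      pp 4 (1 - (‖r⁻¹ • (x - x')‖ ^ 2 + s ^ 2)) := by
    funext x
    rw [sl, bw_eq_pp, slA_norm]
  rw [e]
  have h1 : ContDiff ℝ 2 (fun x : E => r⁻¹ • (x - x')) :=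
    (contDiff_id.sub contDiff_const).const_smul _
  have h2 : ContDiff ℝ 2 (fun x : E => 1 - (‖r⁻¹ • (x - x')‖ ^ 2 + s ^ 2)) :=
    contDiff_const.sub ((h1.norm_sq ℝ).add contDiff_const)
  have h3 : ContDiff ℝ 2 (pp 4) := (pp_contDiff 3).of_le (by norm_cast)
  exact contDiff_const.mul (h3.comp h2)

theorem sl_cpt {r : ℝ} (hr : 0 < r) (s : ℝ) (x' : E) : HasCompactSupport (sl r s x' : E → ℝ) := by
  refine HasCompactSupport.intro (isCompact_closedBall x' r) fun x hx => ?_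
  rw [mem_closedBall, not_le] at hx
  have h1 : r ^ 2 ≤ ‖x - x'‖ ^ 2 := by
    rw [← dist_eq_norm]
    exact pow_le_pow_left₀ hr.le hx.le 2
  rw [sl, slA_zero, mul_zero]
  rw [norm_smul, mul_pow, Real.norm_eq_abs, sq_abs, inv_pow]
  have h2 : 1 ≤ (r ^ 2)⁻¹ * ‖x - x'‖ ^ 2 := by
    rw [← div_eq_inv_mul, one_le_div (by positivity)]
    exact h1
  have := sq_nonneg s
  linarith

theorem sl_zero {r : ℝ} (hr : 0 < r) (s : ℝ) {x' x : E} (h : r ≤ dist x x') : sl r s x' x = 0 := by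
  have h1 : r ^ 2 ≤ ‖x - x'‖ ^ 2 := by
    rw [← dist_eq_norm]
    exact pow_le_pow_left₀ hr.le h 2
  rw [sl, slA_zero, mul_zero]
  rw [norm_smul, mul_pow, Real.norm_eq_abs, sq_abs, inv_pow]
  have h2 : 1 ≤ (r ^ 2)⁻¹ * ‖x - x'‖ ^ 2 := by
    rw [← div_eq_inv_mul, one_le_div (by positivity)]
    exact h1
  have := sq_nonneg s
  linarith

theorem sl_zero' (r : ℝ) {s : ℝ} (hs : 1 ≤ |s|) (x' x : E) : sl r s x' x = 0 := by
  rw [sl, slA_zero, mul_zero]
  have h1 : 1 ≤ s ^ 2 := by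
    rw [← sq_abs]
    exact one_le_pow₀ hs
  have := sq_nonneg ‖r⁻¹ • (x - x')‖
  linarith

end

end Pool.Agent.Lib.MP_79abb3_an.WG
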