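import Mathlib
import Pool.Agent.Lib.MP_79abb3_an.WG.LapA
import Pool.Agent.Lib.MP_79abb3_an.WG.SerB1
import Pool.Agent.Lib.MP_79abb3_an.WG.SliceA
import Pool.Agent.Lib.MP_79abb3_an.WG.DilB
import Pool.Agent.Lib.MP_79abb3_an.WG.PairA
import Pool.Agent.Lib.MP_79abb3_an.WG.Def

section

/-!
Theorem W, block G: a two constants theorem (small on the imaginary diameter).
-/

set_option autoImplicit false

namespace Pool.Agent.Lib.MP_79abb3_an.WG

private lemma re_sq_aux (R : ℝ) (ζ : ℂ) :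
    (((1 : ℂ) - ζ / R) ^ 2).re = (1 - ζ.re / R) ^ 2 - (ζ.im / R) ^ 2 := by
  have h1 : ((1 : ℂ) - ζ / R).re = 1 - ζ.re / R := by
    rw [Complex.sub_re, Complex.one_re, Complex.div_ofReal_re]
  have h2 : ((1 : ℂ) - ζ / R).im = -(ζ.im / R) := by
    rw [Complex.sub_im, Complex.one_im, Complex.div_ofReal_im, zero_sub]
  rw [pow_two, Complex.mul_re, h1, h2]
  ring

/-- The real part of `(1 - ζ/R)²` is `≤ 0` on the right half circle `|ζ| = R`, `Re ζ ≥ 0`:
it equals `2 (a/R)(a/R - 1)`, `a = Re ζ`. -/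
theorem re_sq_circle {R : ℝ} (hR : 0 < R) {ζ : ℂ} (h : ‖ζ‖ = R) (h0 : 0 ≤ ζ.re) :
    (((1 : ℂ) - ζ / R) ^ 2).re ≤ 0 := by
  rw [re_sq_aux]
  have h1 : ζ.re ^ 2 + ζ.im ^ 2 = R ^ 2 := by
    rw [← h, Complex.sq_norm, Complex.normSq_apply]
    ring
  have h2 : (ζ.im / R) ^ 2 = 1 - (ζ.re / R) ^ 2 := by
    field_simp
    linarith
  have h3 : ζ.re / R ≤ 1 := by
    rw [div_le_one hR, ← h]
    exact Complex.re_le_norm ζ
  have h4 : 0 ≤ ζ.re / R := div_nonneg h0 hR.le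
  rw [h2]
  nlinarith

/-- The real part of `(1 - ζ/R)²` is `≤ 1` on the imaginary axis: it equals `1 - (Im ζ/R)²`. -/
theorem re_sq_line {R : ℝ} (hR : 0 < R) {ζ : ℂ} (h0 : ζ.re = 0) :
    (((1 : ℂ) - ζ / R) ^ 2).re ≤ 1 := by
  rw [re_sq_aux, h0, zero_div, sub_zero]
  have := sq_nonneg (ζ.im / R)
  linarith

/-- PROOF. `U = {ζ | ‖ζ‖ < R, 0 < Re ζ}`, `L = log (M/ε) ≥ 0`, `Gf ζ = F ζ * exp (L (1 - ζ/R)²)`. On the frontier of `U`
either `‖ζ‖ = R`, `Re ζ ≥ 0`, then `‖Gf ζ‖ ≤ M` by `re_sq_circle`, or `Re ζ = 0`, `‖ζ‖ ≤ R`, then `ζ = η i` and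
`‖Gf ζ‖ ≤ ε e^L = M` by `re_sq_line`. Maximum modulus (`Complex.norm_le_of_forall_mem_frontier_norm_le`):
`‖F y‖ ≤ M exp (-L (1 - y/R)²) ≤ M (ε/M)^{1/4}` for `0 < y ≤ R/2`. -/
theorem two_const_pos {F : ℂ → ℂ} (hF : Differentiable ℂ F) {R M ε : ℝ} (hR : 0 < R) (hε : 0 < ε)
    (hεM : ε ≤ M) (h1 : ∀ η : ℝ, |η| ≤ R → ‖F (η * Complex.I)‖ ≤ ε)
    (h2 : ∀ ζ : ℂ, ‖ζ‖ ≤ R → ‖F ζ‖ ≤ M) {y : ℝ} (hy : 0 < y) (hy2 : y ≤ R / 2) :
    ‖F y‖ ≤ M ^ ((3 : ℝ) / 4) * ε ^ ((1 : ℝ) / 4) := by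
  have hM : 0 < M := hε.trans_le hεM
  obtain ⟨L, hL⟩ : ∃ L : ℝ, L = Real.log (M / ε) := ⟨_, rfl⟩
  have hL0 : 0 ≤ L := by
    rw [hL]
    exact Real.log_nonneg (by rw [le_div_iff₀ hε, one_mul]; exact hεM)
  have hexpL : Real.exp L = M / ε := by
    rw [hL, Real.exp_log (div_pos hM hε)]
  have hnorm : ∀ ζ : ℂ, ‖F ζ * Complex.exp (L * (1 - ζ / R) ^ 2)‖ =
      ‖F ζ‖ * Real.exp (L * (((1 : ℂ) - ζ / R) ^ 2).re) := by
    intro ζ
    rw [norm_mul, Complex.norm_exp, Complex.re_ofReal_mul]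
  set U : Set ℂ := Metric.ball 0 R ∩ {ζ : ℂ | 0 < ζ.re} with hU
  have hUo : IsOpen U := Metric.isOpen_ball.inter (isOpen_lt continuous_const Complex.continuous_re)
  have hcl : closure U ⊆ Metric.closedBall 0 R ∩ {ζ : ℂ | 0 ≤ ζ.re} := by
    apply closure_minimal
    · rintro ζ ⟨h3, h4⟩
      have h5 : (0 : ℝ) < ζ.re := h4
      exact ⟨Metric.ball_subset_closedBall h3, h5.le⟩
    · exact Metric.isClosed_closedBall.inter (isClosed_le continuous_const Complex.continuous_re)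
  have hdiff : Differentiable ℂ fun ζ : ℂ => F ζ * Complex.exp (L * (1 - ζ / R) ^ 2) := by
    apply hF.mul
    fun_prop
  have hfr : ∀ ζ ∈ frontier U, ‖F ζ * Complex.exp (L * (1 - ζ / R) ^ 2)‖ ≤ M := by
    intro ζ hζ
    rw [hUo.frontier_eq] at hζ
    obtain ⟨h3, h4⟩ := hcl hζ.1
    have h5 : ‖ζ‖ ≤ R := mem_closedBall_zero_iff.mp h3
    have h6 : 0 ≤ ζ.re := h4
    rw [hnorm]
    rcases eq_or_lt_of_le h6 with h7 | h7
    · have h8 := re_sq_line hR h7.symm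
      have h9 : ζ = (ζ.im : ℂ) * Complex.I := by
        apply Complex.ext
        · simp [← h7]
        · simp
      have h10 : |ζ.im| ≤ R := (Complex.abs_im_le_norm ζ).trans h5
      have h11 : ‖F ζ‖ ≤ ε := by
        rw [h9]
        exact h1 _ h10
      calc ‖F ζ‖ * Real.exp (L * (((1 : ℂ) - ζ / R) ^ 2).re) ≤ ε * Real.exp L := by
            apply mul_le_mul h11 _ (Real.exp_pos _).le hε.le
            apply Real.exp_le_exp.mpr
            calc L * (((1 : ℂ) - ζ / R) ^ 2).re ≤ L * 1 := mul_le_mul_of_nonneg_left h8 hL0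
              _ = L := mul_one L
        _ = M := by rw [hexpL]; field_simp
    · have h8 : ‖ζ‖ = R := by
        apply le_antisymm h5
        by_contra hcon
        push Not at hcon
        exact hζ.2 ⟨mem_ball_zero_iff.mpr hcon, h7⟩
      have h9 := re_sq_circle hR h8 h6
      calc ‖F ζ‖ * Real.exp (L * (((1 : ℂ) - ζ / R) ^ 2).re) ≤ M * 1 := by
            apply mul_le_mul (h2 ζ h5) _ (Real.exp_pos _).le hM.le
            rw [← Real.exp_zero]
            apply Real.exp_le_exp.mpr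
            exact mul_nonpos_of_nonneg_of_nonpos hL0 h9
        _ = M := mul_one M
  have hyU : (y : ℂ) ∈ closure U := by
    apply subset_closure
    refine ⟨mem_ball_zero_iff.mpr ?_, ?_⟩
    · rw [Complex.norm_real, Real.norm_eq_abs, abs_of_pos hy]
      linarith
    · change 0 < (y : ℂ).re
      rw [Complex.ofReal_re]
      exact hy
  have hmain := Complex.norm_le_of_forall_mem_frontier_norm_le
    (Metric.isBounded_ball.subset Set.inter_subset_left) hdiff.diffContOnCl hfr hyU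
  rw [hnorm] at hmain
  have hre : (((1 : ℂ) - (y : ℂ) / R) ^ 2).re = (1 - y / R) ^ 2 := by
    rw [re_sq_aux, Complex.ofReal_re, Complex.ofReal_im]
    ring
  rw [hre] at hmain
  have h14 : 1 / 4 ≤ (1 - y / R) ^ 2 := by
    have h3 : y / R ≤ 1 / 2 := by
      rw [div_le_iff₀ hR]; linarith
    nlinarith
  have h5 : ‖F y‖ * Real.exp (L * (1 / 4)) ≤ M := by
    refine le_trans ?_ hmain
    apply mul_le_mul_of_nonneg_left _ (norm_nonneg _)
    exact Real.exp_le_exp.mpr (mul_le_mul_of_nonneg_left h14 hL0)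
  have h6 : Real.exp (L * (1 / 4)) = (M / ε) ^ ((1 : ℝ) / 4) := by
    rw [← hexpL, ← Real.exp_mul]
  rw [h6, Real.div_rpow hM.le hε.le] at h5
  have hMe : 0 < M ^ ((1 : ℝ) / 4) := Real.rpow_pos_of_pos hM _
  have hεe : 0 < ε ^ ((1 : ℝ) / 4) := Real.rpow_pos_of_pos hε _
  have h7 : M = M ^ ((3 : ℝ) / 4) * M ^ ((1 : ℝ) / 4) := by
    rw [← Real.rpow_add hM]
    norm_num
  rw [← mul_div_assoc, div_le_iff₀ hεe] at h5
  have h8 : ‖F y‖ * M ^ ((1 : ℝ) / 4) ≤
      (M ^ ((3 : ℝ) / 4) * ε ^ ((1 : ℝ) / 4)) * M ^ ((1 : ℝ) / 4) := by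
    calc ‖F y‖ * M ^ ((1 : ℝ) / 4) ≤ M * ε ^ ((1 : ℝ) / 4) := h5
      _ = (M ^ ((3 : ℝ) / 4) * M ^ ((1 : ℝ) / 4)) * ε ^ ((1 : ℝ) / 4) := by rw [← h7]
      _ = _ := by ring
  exact le_of_mul_le_mul_right h8 hMe

/-- PROOF: `two_const_pos` for `F` and `ζ ↦ F (-ζ)`; `y = 0` directly. -/
theorem two_const {F : ℂ → ℂ} (hF : Differentiable ℂ F) {R M ε : ℝ} (hR : 0 < R) (hε : 0 < ε)
    (hεM : ε ≤ M) (h1 : ∀ η : ℝ, |η| ≤ R → ‖F (η * Complex.I)‖ ≤ ε)
    (h2 : ∀ ζ : ℂ, ‖ζ‖ ≤ R → ‖F ζ‖ ≤ M) {y : ℝ} (hy2 : |y| ≤ R / 2) :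
    ‖F y‖ ≤ M ^ ((3 : ℝ) / 4) * ε ^ ((1 : ℝ) / 4) := by
  rcases lt_trichotomy y 0 with hy | hy | hy
  · have h3 := two_const_pos (F := fun ζ => F (-ζ)) (hF.comp differentiable_neg) hR hε hεM
      (fun η hη => by
        have := h1 (-η) (by rwa [abs_neg])
        push_cast at this
        rwa [neg_mul] at this) (fun ζ hζ => h2 (-ζ) (by rwa [norm_neg])) (y := -y)
      (by linarith) (by rwa [abs_of_neg hy] at hy2)
    simpa using h3
  · subst hy
    have hM : 0 < M := hε.trans_le hεM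
    have h3 := h1 0 (by rw [abs_zero]; exact hR.le)
    rw [Complex.ofReal_zero, zero_mul] at h3
    rw [Complex.ofReal_zero]
    refine h3.trans ?_
    calc ε = ε ^ ((3 : ℝ) / 4) * ε ^ ((1 : ℝ) / 4) := by
          rw [← Real.rpow_add hε]
          norm_num
      _ ≤ M ^ ((3 : ℝ) / 4) * ε ^ ((1 : ℝ) / 4) := by
          apply mul_le_mul_of_nonneg_right _ (Real.rpow_nonneg hε.le _)
          exact Real.rpow_le_rpow hε.le hεM (by norm_num)
  · exact two_const_pos hF hR hε hεM h1 h2 hy (by rwa [abs_of_pos hy] at hy2)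

end Pool.Agent.Lib.MP_79abb3_an.WG
end

section

/-!
Theorem W, block G: the equations of the harmonic and hyperbolic extensions.
-/

set_option autoImplicit false
set_option linter.unusedSectionVars false
set_option linter.unusedVariables false

open MeasureTheory Set Filter Topology Metric Laplacian
open scoped ContDiff InnerProductSpace

namespace Pool.Agent.Lib.MP_79abb3_an.WG

section
variable {E : Type} [NormedAddCommGroup E] [InnerProductSpace ℝ E] [FiniteDimensional ℝ E]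
  [MeasurableSpace E] [BorelSpace E] {G : Set E} {lam : ℝ} {f : ℕ → E → ℝ}

private theorem serB_cd (h : LFS G lam f) (k : ℕ) : ContDiff ℝ 2 (f k) := by
  have h1 : ContDiff ℝ ((2 : ℕ) : ℕ∞ω) (f k) := contDiff_infty.1 (h.smooth k) 2
  exact h1

private theorem serB_ss_cd {a : ℕ → ℝ → ℝ} (ha : Coe a) (h : LFS G lam f) (hl : 0 ≤ lam) (y : ℝ) :
    ContDiff ℝ 2 (fun x => ∑' k, a k y * Δ (f k) x) := by
  have h1 := SS_contDiff ha hl h.geomLap 2
  have h2 : ContDiff ℝ 2 (fun x : E => (x, y)) := contDiff_id.prodMk contDiff_const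
  exact h1.comp h2

private theorem serB_lap {a : ℕ → ℝ → ℝ} (ha : Coe a) (h : LFS G lam f) (hl : 0 ≤ lam) (y : ℝ)
    {c : ℝ} {x : E} (hx : x ∈ G) :
    Δ (fun x => c * f 0 x - ∑' k, a k y * Δ (f k) x) x =
      c * Δ (f 0) x + ∑' k, a k y * Δ (f (k + 1)) x := by
  have h0 : ContDiffAt ℝ 2 (fun x => c * f 0 x) x := (contDiff_const.mul (serB_cd h 0)).contDiffAt
  have h1 := h0.laplacian_sub (serB_ss_cd ha h hl y).contDiffAt
  have h2 : Δ (fun x => c * f 0 x) x = c * Δ (f 0) x := by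
    have h3 := InnerProductSpace.laplacian_smul (𝕜 := ℝ) c (serB_cd h 0).contDiffAt (x := x)
    exact h3
  have h4 : Δ (fun x => ∑' k, a k y * Δ (f k) x) x = ∑' k, a k y * Δ (Δ (f k)) x :=
    SS_lap ha hl h.geomLap x y
  have h5 : (fun x => c * f 0 x - ∑' k, a k y * Δ (f k) x) =
      (fun x => c * f 0 x) - fun x => ∑' k, a k y * Δ (f k) x := rfl
  rw [h5, h1, h2, h4]
  have h6 : ∀ k, a k y * Δ (Δ (f k)) x = -(a k y * Δ (f (k + 1)) x) := by
    intro k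
    rw [h.eqn k x hx]
    ring
  simp only [h6]
  rw [tsum_neg]
  ring

/-- Laplacian in `x` on `G`. PROOF: `SS_lap` and the equation: `Δ_x Ser = Δ f_0 + ∑ σ^(k+1) cs 0 k y Δ f_{k+1}`,
and for `σ² = 1`, `σ Δ_x Ser = ∑_k σ^(k+1) cs 2 k y Δ f_k` (`cs 2 0 y = 1`, `cs 2 (k+1) y = cs 0 k y`,
`tsum_eq_zero_add`). -/
theorem LFS.Ser_lap (h : LFS G lam f) (hl : 0 ≤ lam) {σ : ℝ} (hσ : σ ^ 2 = 1) {x : E} (hx : x ∈ G)
    (y : ℝ) :
    σ * Δ (fun x => Ser σ f x y) x = ∑' k, σ ^ (k + 1) * cs 2 k y * Δ (f k) x := by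
  have hσ1 : |σ| ≤ 1 := by
    rw [← sq_abs] at hσ
    nlinarith [abs_nonneg σ]
  have h1 := serB_lap (coe_cs σ hσ1 0) h hl y (c := 1) hx
  have h2 : (fun x => Ser σ f x y) = fun x => 1 * f 0 x -
      ∑' k, σ ^ (k + 1) * cs 0 k y * Δ (f k) x := by
    funext x
    rw [one_mul]
    rfl
  have hs : Summable fun k => σ ^ (k + 1) * cs 2 k y * Δ (f k) x :=
    SS_summable (coe_cs σ hσ1 2) hl h.geomLap (x, y)
  rw [h2, h1, hs.tsum_eq_zero_add]
  have h3 : cs 2 0 y = 1 := by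
    unfold cs
    simp
  have h4 : ∀ k, cs 2 (k + 1) y = cs 0 k y := by
    intro k
    unfold cs
    rw [if_pos (by omega), if_pos (by omega), show 2 * (k + 1) + 2 - 2 = 2 * k + 2 - 0 by omega]
  simp only [h3, h4]
  rw [one_mul, mul_add, ← tsum_mul_left]
  congr 1
  · ring
  · refine tsum_congr fun k => ?_
    ring

/-- PROOF: same computation: `Δ_x SerI = y Δ f_0 + ∑ σ^(k+1) y^(2k+3)/(2k+3)! Δ f_{k+1}
= ∑ σ^k y^(2k+1)/(2k+1)! Δ f_k`, and for `σ = -1` this is `-∑ σ^(k+1) cs 1 k y Δ f_k = ∂_y Ser`. -/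
theorem LFS.SerI_lap (h : LFS G lam f) (hl : 0 ≤ lam) {x : E} (hx : x ∈ G) (y : ℝ) :
    Δ (fun x => SerI (-1) f x y) x = deriv (fun y => Ser (-1) f x y) y := by
  have hσ1 : |(-1 : ℝ)| ≤ 1 := by norm_num
  have h1 := serB_lap (coe_csI (-1) hσ1) h hl y (c := y) hx
  have h2 : (fun x => SerI (-1) f x y) = fun x => y * f 0 x -
      ∑' k, (-1) ^ (k + 1) * (y ^ (2 * k + 3) / ((2 * k + 3).factorial : ℝ)) * Δ (f k) x := rfl
  have hs : Summable fun k => (-1 : ℝ) ^ (k + 1) * cs 1 k y * Δ (f k) x :=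
    SS_summable (coe_cs (-1) hσ1 1) hl h.geomLap (x, y)
  rw [h2, h1, (h.Ser_deriv hl hσ1 x y).deriv, hs.tsum_eq_zero_add, neg_add, ← tsum_neg]
  have h3 : cs 1 0 y = y := by
    unfold cs
    simp
  have h4 : ∀ k, cs 1 (k + 1) y = y ^ (2 * k + 3) / ((2 * k + 3).factorial : ℝ) := by
    intro k
    unfold cs
    rw [if_pos (by omega), show 2 * (k + 1) + 2 - 1 = 2 * k + 3 by omega]
  simp only [h3, h4]
  congr 1
  · ring
  · refine tsum_congr fun k => ?_
    ring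

/-- The extension is harmonic. PROOF: `lap_prod`, `Ser_deriv2`, `Ser_lap` with `σ = 1`. -/
theorem LFS.UU_harm (h : LFS G lam f) (hl : 0 ≤ lam) {z : WithLp 2 (E × ℝ)} (hz : z.fst ∈ G) :
    Δ (UU f) z = 0 := by
  have h1 := lap_prod (u := Ser 1 f) (h.Ser_contDiff hl (σ := 1) (by norm_num) 2) z
  have h2 := h.Ser_lap hl (σ := 1) (by norm_num) hz z.snd
  have h3 := h.Ser_deriv2 hl (σ := 1) (by norm_num) z.fst z.snd
  have h4 : Δ (UU f) z = Δ (fun z : WithLp 2 (E × ℝ) => Ser 1 f z.fst z.snd) z := rfl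
  rw [h4, h1, h3]
  rw [one_mul] at h2
  rw [h2, add_neg_cancel]

end

end Pool.Agent.Lib.MP_79abb3_an.WG
end

section

/-!
Theorem W, block G: mean value property in slices.
-/

set_option autoImplicit false
set_option linter.unusedSectionVars false
set_option linter.unusedVariables false

open MeasureTheory Set Filter Topology Metric Laplacian
open scoped ContDiff InnerProductSpace

namespace Pool.Agent.Lib.MP_79abb3_an.WG

section
variable {E : Type} [NormedAddCommGroup E] [InnerProductSpace ℝ E] [FiniteDimensional ℝ E]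
  [MeasurableSpace E] [BorelSpace E]

/-- MEAN VALUE IN SLICES. If `u : E × ℝ → ℝ` is `C²` and harmonic on the Euclidean ball of radius `R` around
`(x',y')`, `0 < r ≤ R`, then `u(x',y') ∫ bw 4 = ∫_{-1}^1 (∫ u(x, y' + r s) sl r s x' x dx) ds`.
PROOF: `mean_value` on `WithLp 2 (E × ℝ)` with `k = 4`, `integral_UU`, and in `x` the change of variables
`x = x' + r x''`; `sl_zero'` for `|s| ≥ 1`. -/
theorem mean_slice {u : E → ℝ → ℝ} (hu : ContDiff ℝ 2 (fun p : E × ℝ => u p.1 p.2)) {x' : E} {y' R : ℝ}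
    (H : ∀ z ∈ ball (pt x' y') R, Δ (fun z : WithLp 2 (E × ℝ) => u z.fst z.snd) z = 0) {r : ℝ}
    (hr : 0 < r) (hR : r ≤ R) :
    u x' y' * ∫ z : WithLp 2 (E × ℝ), bw 4 z =
      ∫ s in (-1 : ℝ)..1, ∫ x, u x (y' + r * s) * sl r s x' x := by
  set U : WithLp 2 (E × ℝ) → ℝ := fun z => u z.fst z.snd with hU
  have hUc : ContDiff ℝ 2 U :=
    hu.comp (WithLp.prodContinuousLinearEquiv 2 ℝ E ℝ : WithLp 2 (E × ℝ) →L[ℝ] E × ℝ).contDiff
  have hmv := mean_value hUc H (k := 4) (by norm_num) hr.le hR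
  have e0 : U (pt x' y') = u x' y' := rfl
  rw [e0] at hmv
  have hint : Integrable fun z : WithLp 2 (E × ℝ) => U (pt x' y' + r • z) * bw 4 z := by
    have h1 : Continuous fun z : WithLp 2 (E × ℝ) => U (pt x' y' + r • z) :=
      hUc.continuous.comp (continuous_const.add (continuous_const_smul r))
    exact (h1.mul (bw_continuous 4)).integrable_of_hasCompactSupport
      (bw_cpt (by norm_num)).mul_left
  rw [← hmv, integral_UU hint]
  have e1 : ∀ (x : E) (s : ℝ), U (pt x' y' + r • pt x s) = u (x' + r • x) (y' + r * s) :=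
    fun x s => rfl
  simp only [e1]
  have hzero : ∀ s : ℝ, 1 ≤ |s| → ∀ x : E, bw 4 (pt x s) = 0 := by
    intro s hs x
    refine bw_zero (by norm_num) (hs.trans ?_)
    have h1 := WithLp.prod_norm_sq_eq_of_L2 (pt x s)
    have h2 : ‖(pt x s).snd‖ = |s| := Real.norm_eq_abs s
    rw [h2] at h1
    refine abs_le_of_sq_le_sq' ?_ (norm_nonneg _) |>.2
    rw [h1]
    have := sq_nonneg ‖(pt x s).fst‖
    linarith
  -- the inner integral
  have hin : ∀ s : ℝ, ∫ x : E, u (x' + r • x) (y' + r * s) * bw 4 (pt x s) =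
      ∫ x, u x (y' + r * s) * sl r s x' x := by
    intro s
    set G : E → ℝ := fun x => u x (y' + r * s) * bw 4 (pt (r⁻¹ • (x - x')) s) with hG
    have h1 := Measure.integral_comp_smul volume (fun x : E => G (x' + x)) r
    rw [integral_add_left_eq_self G x'] at h1
    have h2 : ∀ x : E, G (x' + r • x) = u (x' + r • x) (y' + r * s) * bw 4 (pt x s) := by
      intro x
      simp only [hG]
      rw [add_sub_cancel_left, smul_smul, inv_mul_cancel₀ hr.ne', one_smul]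
    simp only [h2] at h1
    rw [h1, abs_of_nonneg (by positivity), smul_eq_mul, ← integral_const_mul]
    refine integral_congr_ae (Eventually.of_forall fun x => ?_)
    simp only [hG, sl]
    ring
  simp only [hin]
  rw [intervalIntegral.integral_of_le (by norm_num)]
  refine (setIntegral_eq_integral_of_forall_compl_eq_zero fun s hs => ?_).symm
  have hs' : 1 ≤ |s| := by
    by_contra hcon
    rw [not_le, abs_lt] at hcon
    exact hs ⟨hcon.1, hcon.2.le⟩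
  have h3 : ∀ x : E, sl r s x' x = 0 := fun x => sl_zero' r hs' x' x
  simp only [h3, mul_zero, integral_zero]

end

end Pool.Agent.Lib.MP_79abb3_an.WG
end

section

/-!
Theorem W, block G: the entire function `PF`.
-/

set_option autoImplicit false
set_option linter.unusedSectionVars false
set_option linter.unusedVariables false

open MeasureTheory Set Filter Topology Metric Laplacian
open scoped ContDiff InnerProductSpace

namespace Pool.Agent.Lib.MP_79abb3_an.WG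

section
variable {E : Type} [NormedAddCommGroup E] [InnerProductSpace ℝ E] [FiniteDimensional ℝ E]
  [MeasurableSpace E] [BorelSpace E] {G : Set E} {lam : ℝ} {f : ℕ → E → ℝ}

/-- The entire function `ζ ↦ ∫ f_0 g - ∑ ζ^(2k+2)/(2k+2)! ∫ f_k Δ g`. -/
noncomputable def PF (f : ℕ → E → ℝ) (g : E → ℝ) (ζ : ℂ) : ℂ :=
  ((∫ x, f 0 x * g x : ℝ) : ℂ) -
    ∑' k : ℕ, ζ ^ (2 * k + 2) / ((2 * k + 2).factorial : ℂ) * ((∫ x, f k x * Δ g x : ℝ) : ℂ)

private theorem pairf_lapc {g : E → ℝ} (hg : ContDiff ℝ 2 g) (hc : HasCompactSupport g) :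
    HasCompactSupport (Δ g) := by
  refine hc.mono' fun x hx => ?_
  by_contra hn
  refine hx ?_
  rw [lap_eq_sum (stdOrthonormalBasis ℝ E) hg]
  refine Finset.sum_eq_zero fun i _ => ?_
  set b := stdOrthonormalBasis ℝ E i with hb
  have h1 : x ∉ tsupport (fun y => fderiv ℝ g y b) := fun h =>
    hn (tsupport_fderiv_apply_subset ℝ b h)
  have h2 : x ∉ tsupport (fun z => fderiv ℝ (fun y => fderiv ℝ g y b) z b) := fun h =>
    h1 (tsupport_fderiv_apply_subset ℝ b h)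
  exact image_eq_zero_of_notMem_tsupport
    (f := fun z => fderiv ℝ (fun y => fderiv ℝ g y b) z b) h2

private theorem LFS.pairf_le (h : LFS G lam f) (hl : 0 ≤ lam) {g : E → ℝ}
    (hg : ContDiff ℝ 2 g) (hc : HasCompactSupport g) (k : ℕ) :
    |∫ x, f k x * Δ g x| ≤ lam ^ k * n2 (Δ g) :=
  h.pair_le hl k (lap_continuous hg) (pairf_lapc hg hc)

private theorem pairf_n2 (g : E → ℝ) : 0 ≤ n2 g := Real.sqrt_nonneg _

private theorem pairf_arith {lam z : ℝ} (hl : 0 ≤ lam) (hz : 0 ≤ z) (k : ℕ) :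
    z ^ (2 * k + 2) / ((2 * k + 2).factorial : ℝ) * lam ^ k ≤
      z ^ 2 * ((√lam * z) ^ (2 * k) / ((2 * k).factorial : ℝ)) := by
  have h1 : (√lam) ^ (2 * k) = lam ^ k := by
    rw [pow_mul, Real.sq_sqrt hl]
  have h2 : ((2 * k).factorial : ℝ) ≤ ((2 * k + 2).factorial : ℝ) := by
    exact_mod_cast Nat.factorial_le (by omega)
  have h3 : (0 : ℝ) < ((2 * k).factorial : ℝ) := by exact_mod_cast Nat.factorial_pos _
  have e1 : z ^ 2 * ((√lam * z) ^ (2 * k) / ((2 * k).factorial : ℝ)) =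
      z ^ (2 * k + 2) / ((2 * k).factorial : ℝ) * lam ^ k := by
    rw [mul_pow, h1, pow_add]
    ring
  rw [e1]
  refine mul_le_mul_of_nonneg_right ?_ (pow_nonneg hl k)
  exact div_le_div_of_nonneg_left (pow_nonneg hz _) h3 h2

private theorem LFS.pairf_term (h : LFS G lam f) (hl : 0 ≤ lam) {g : E → ℝ}
    (hg : ContDiff ℝ 2 g) (hc : HasCompactSupport g) (k : ℕ) {ζ : ℂ} {R : ℝ} (hR : ‖ζ‖ ≤ R) :
    ‖ζ ^ (2 * k + 2) / ((2 * k + 2).factorial : ℂ) * ((∫ x, f k x * Δ g x : ℝ) : ℂ)‖ ≤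
      R ^ 2 * n2 (Δ g) * ((√lam * R) ^ (2 * k) / ((2 * k).factorial : ℝ)) := by
  have hR0 : 0 ≤ R := (norm_nonneg ζ).trans hR
  have h3 : (0 : ℝ) < ((2 * k + 2).factorial : ℝ) := by exact_mod_cast Nat.factorial_pos _
  rw [norm_mul, norm_div, norm_pow, Complex.norm_natCast, Complex.norm_real, Real.norm_eq_abs]
  have h1 : ‖ζ‖ ^ (2 * k + 2) / ((2 * k + 2).factorial : ℝ) ≤
      R ^ (2 * k + 2) / ((2 * k + 2).factorial : ℝ) :=
    div_le_div_of_nonneg_right (pow_le_pow_left₀ (norm_nonneg ζ) hR _) h3.le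
  have h4 := h.pairf_le hl hg hc k
  have h5 := pairf_arith hl hR0 k
  have hN := pairf_n2 (Δ g)
  calc ‖ζ‖ ^ (2 * k + 2) / ((2 * k + 2).factorial : ℝ) * |∫ x, f k x * Δ g x|
      ≤ R ^ (2 * k + 2) / ((2 * k + 2).factorial : ℝ) * (lam ^ k * n2 (Δ g)) := by
        gcongr
    _ = (R ^ (2 * k + 2) / ((2 * k + 2).factorial : ℝ) * lam ^ k) * n2 (Δ g) := by ring
    _ ≤ (R ^ 2 * ((√lam * R) ^ (2 * k) / ((2 * k).factorial : ℝ))) * n2 (Δ g) :=
        mul_le_mul_of_nonneg_right h5 hN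
    _ = R ^ 2 * n2 (Δ g) * ((√lam * R) ^ (2 * k) / ((2 * k).factorial : ℝ)) := by ring

private theorem pairf_summable (lam R N : ℝ) :
    Summable fun k : ℕ => R ^ 2 * N * ((√lam * R) ^ (2 * k) / ((2 * k).factorial : ℝ)) :=
  (Real.hasSum_cosh (√lam * R)).summable.mul_left _

/-- PROOF: locally uniform convergence (`differentiableOn_tsum_of_summable_norm` on balls), coefficients
`≤ lam^k |Δ g| /(2k+2)!`. -/
theorem LFS.PF_diff (h : LFS G lam f) (hl : 0 ≤ lam) {g : E → ℝ}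
    (hg : ContDiff ℝ 2 g) (hc : HasCompactSupport g) : Differentiable ℂ (PF f g) := by
  intro ζ
  have hd : DifferentiableOn ℂ (fun ζ : ℂ => ∑' k : ℕ, ζ ^ (2 * k + 2) /
      ((2 * k + 2).factorial : ℂ) * ((∫ x, f k x * Δ g x : ℝ) : ℂ)) (ball 0 (‖ζ‖ + 1)) := by
    refine Complex.differentiableOn_tsum_of_summable_norm
      (pairf_summable lam (‖ζ‖ + 1) (n2 (Δ g))) (fun k => ?_) isOpen_ball fun k w hw => ?_
    · exact (((differentiable_id.pow _).div_const _).mul_const _).differentiableOn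
    · rw [mem_ball_zero_iff] at hw
      exact h.pairf_term hl hg hc k hw.le
  have h1 := hd.differentiableAt (isOpen_ball.mem_nhds (by
    rw [mem_ball_zero_iff]
    linarith))
  exact (differentiableAt_const _).sub h1

theorem LFS.PF_real (h : LFS G lam f) (hl : 0 ≤ lam) {g : E → ℝ}
    (hg : ContDiff ℝ 2 g) (hc : HasCompactSupport g) (y : ℝ) :
    PF f g (y : ℂ) = ((∫ x, Ser 1 f x y * g x : ℝ) : ℂ) := by
  rw [h.pair_Ser hl (by norm_num) y hg hc, PF, Complex.ofReal_sub, Complex.ofReal_tsum]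
  congr 1
  refine tsum_congr fun k => ?_
  unfold cs
  rw [if_pos (Nat.zero_le _), Nat.sub_zero]
  push_cast
  ring

theorem LFS.PF_imag (h : LFS G lam f) (hl : 0 ≤ lam) {g : E → ℝ}
    (hg : ContDiff ℝ 2 g) (hc : HasCompactSupport g) (y : ℝ) :
    PF f g ((y : ℂ) * Complex.I) = ((∫ x, Ser (-1) f x y * g x : ℝ) : ℂ) := by
  rw [h.pair_Ser hl (by norm_num) y hg hc, PF, Complex.ofReal_sub, Complex.ofReal_tsum]
  congr 1
  refine tsum_congr fun k => ?_
  unfold cs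
  rw [if_pos (Nat.zero_le _), Nat.sub_zero]
  have h1 : Complex.I ^ (2 * k + 2) = (-1) ^ (k + 1) := by
    rw [show 2 * k + 2 = 2 * (k + 1) by ring, pow_mul, Complex.I_sq]
  rw [mul_pow, h1]
  push_cast
  ring

/-- PROOF: `|ζ|^(2k+2) lam^k/(2k+2)! ≤ |ζ|² (√lam |ζ|)^(2k)/(2k)!` and the exponential series. -/
theorem LFS.PF_bound (h : LFS G lam f) (hl : 0 ≤ lam) {g : E → ℝ}
    (hg : ContDiff ℝ 2 g) (hc : HasCompactSupport g) (ζ : ℂ) :
    ‖PF f g ζ‖ ≤ n2 g + ‖ζ‖ ^ 2 * Real.exp (√lam * ‖ζ‖) * n2 (Δ g) := by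
  have h0 := h.pair_le hl 0 hg.continuous hc
  rw [pow_zero, one_mul] at h0
  have hs := pairf_summable lam ‖ζ‖ (n2 (Δ g))
  have h1 : ‖∑' k : ℕ, ζ ^ (2 * k + 2) / ((2 * k + 2).factorial : ℂ) *
      ((∫ x, f k x * Δ g x : ℝ) : ℂ)‖ ≤ ∑' k : ℕ, ‖ζ‖ ^ 2 * n2 (Δ g) *
        ((√lam * ‖ζ‖) ^ (2 * k) / ((2 * k).factorial : ℝ)) :=
    tsum_of_norm_bounded hs.hasSum fun k => h.pairf_term hl hg hc k le_rfl
  rw [tsum_mul_left, (Real.hasSum_cosh (√lam * ‖ζ‖)).tsum_eq] at h1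
  have h2 : Real.cosh (√lam * ‖ζ‖) ≤ Real.exp (√lam * ‖ζ‖) := by
    have hx : 0 ≤ √lam * ‖ζ‖ := mul_nonneg (Real.sqrt_nonneg _) (norm_nonneg _)
    have h3 : Real.exp (-(√lam * ‖ζ‖)) ≤ Real.exp (√lam * ‖ζ‖) :=
      Real.exp_le_exp.2 (by linarith)
    rw [Real.cosh_eq]
    linarith
  have hN := pairf_n2 (Δ g)
  have h4 : ‖ζ‖ ^ 2 * n2 (Δ g) * Real.cosh (√lam * ‖ζ‖) ≤
      ‖ζ‖ ^ 2 * n2 (Δ g) * Real.exp (√lam * ‖ζ‖) :=
    mul_le_mul_of_nonneg_left h2 (mul_nonneg (sq_nonneg _) hN)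
  have h5 : ‖((∫ x, f 0 x * g x : ℝ) : ℂ)‖ ≤ n2 g := by
    rw [Complex.norm_real, Real.norm_eq_abs]
    exact h0
  unfold PF
  refine (norm_sub_le _ _).trans ?_
  have h6 : ‖ζ‖ ^ 2 * n2 (Δ g) * Real.exp (√lam * ‖ζ‖) =
      ‖ζ‖ ^ 2 * Real.exp (√lam * ‖ζ‖) * n2 (Δ g) := by ring
  linarith

end

end Pool.Agent.Lib.MP_79abb3_an.WG
end

section

/-!
Theorem W, block G: interior points, monotonicity of `Small`.
-/

set_option autoImplicit false
set_option linter.unusedSectionVars false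
set_option linter.unusedVariables false

open MeasureTheory Set Filter Topology Metric Laplacian
open scoped ContDiff InnerProductSpace

namespace Pool.Agent.Lib.MP_79abb3_an.WG

section
variable {E : Type} [NormedAddCommGroup E] [InnerProductSpace ℝ E] [FiniteDimensional ℝ E]
  [MeasurableSpace E] [BorelSpace E] {D Z : Set E}

theorem isOpen_er (D : Set E) (ε : ℝ) : IsOpen (er D ε) :=
  isOpen_lt continuous_const (continuous_infDist_pt _)

/-- If `x ∈ er D ε` then `closedBall x ε ⊆ D`. -/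
theorem closedBall_of_er {ε : ℝ} {x : E} (h : x ∈ er D ε) : closedBall x ε ⊆ D := by
  intro y hy
  by_contra hyD
  have h1 : infDist x Dᶜ ≤ dist x y := infDist_le_dist_of_mem hyD
  rw [mem_closedBall, dist_comm] at hy
  exact absurd h (not_lt.2 (h1.trans hy))

/-- PROOF: for `x' ∈ ball x t`, `infDist x' Dᶜ ≥ infDist x Dᶜ - dist x x' > t + ε - t` (`Dᶜ` nonempty). -/
theorem ball_er (hD : (Dᶜ).Nonempty) {ε t t' : ℝ} {x : E} (h : ball x t' ⊆ D) (ht : t + ε ≤ t') :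
    ball x t ⊆ er D ε := by
  intro x' hx'
  rw [mem_ball, dist_comm] at hx'
  have h1 : t' - dist x x' ≤ infDist x' Dᶜ := by
    rw [le_infDist hD]
    intro y hy
    have h2 : t' ≤ dist x y := by
      by_contra hcon
      push Not at hcon
      exact hy (h (by rw [mem_ball, dist_comm]; exact hcon))
    have h3 := dist_triangle x x' y
    linarith
  show ε < infDist x' Dᶜ
  linarith

/-- Monotonicity in all parameters. -/
theorem Small.mono {x x' : E} {r r' θ θ' C C' ε ε' : ℝ} (h : Small D Z x r θ C ε)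
    (hr : ball (pt x' (0:ℝ)) r' ⊆ ball (pt x 0) r) (hθ : θ' ≤ θ) (hC0 : 0 ≤ C) (hC : C ≤ C')
    (hε : ε' ≤ ε) : Small D Z x' r' θ' C' ε' := by
  intro ε₁ h1 h2 lam hlam f hf δ hδ hδ1 hint z hz
  refine (h ε₁ h1 (h2.trans hε) lam hlam f hf δ hδ hδ1 hint z (hr hz)).trans ?_
  have h3 : δ ^ θ ≤ δ ^ θ' := Real.rpow_le_rpow_of_exponent_ge hδ hδ1 hθ
  have h4 : Real.exp (C * √lam) ≤ Real.exp (C' * √lam) :=
    Real.exp_le_exp.2 (mul_le_mul_of_nonneg_right hC (Real.sqrt_nonneg _))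
  have h5 : 0 ≤ δ ^ θ := Real.rpow_nonneg hδ.le _
  exact mul_le_mul (mul_le_mul hC h4 (Real.exp_pos _).le (hC0.trans hC)) h3 h5
    (mul_nonneg (hC0.trans hC) (Real.exp_pos _).le)

end

end Pool.Agent.Lib.MP_79abb3_an.WG
end
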