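import Pool.Agent.Lib.MP_79abb3_an.WG.Def

/-!
Theorem W, block G: the radial weight `bw k z = (1 - ‖z‖²)₊ ^ k`.
-/

set_option autoImplicit false
set_option linter.unusedSectionVars false

open MeasureTheory Set Filter Topology Metric Laplacian
open scoped ContDiff InnerProductSpace

namespace Pool.Agent.Lib.MP_79abb3_an.WG

section pos

/-- The positive part to the power `k + 1`. -/
noncomputable def pp (k : ℕ) (s : ℝ) : ℝ := (max 0 s) ^ k

theorem pp_nonneg (k : ℕ) (s : ℝ) : 0 ≤ pp k s := pow_nonneg (le_max_left _ _) _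

private theorem bwh_cont (k : ℕ) : Continuous (pp k) := (continuous_const.max continuous_id).pow k

private theorem bwh_zero {k : ℕ} (hk : 1 ≤ k) {s : ℝ} (hs : s ≤ 0) : pp k s = 0 := by
  unfold pp
  rw [max_eq_left hs, zero_pow (by omega)]

private theorem bwh_pos (k : ℕ) {s : ℝ} (hs : 0 ≤ s) : pp k s = s ^ k := by
  unfold pp
  rw [max_eq_right hs]

/-- PROOF. `s < 0` and `s > 0`: locally a constant resp. a power. `s = 0`: `|pp (k+1) s| ≤ |s|^(k+1)` with
`k + 1 ≥ 2` (use `hasDerivAt_of_tendsto...` or the little-o definition). -/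
theorem pp_hasDerivAt {k : ℕ} (hk : 1 ≤ k) (s : ℝ) :
    HasDerivAt (pp (k + 1)) (((k : ℝ) + 1) * pp k s) s := by
  rcases lt_trichotomy s 0 with hs | hs | hs
  · rw [bwh_zero hk hs.le, mul_zero]
    refine (hasDerivAt_const s (0:ℝ)).congr_of_eventuallyEq ?_
    filter_upwards [gt_mem_nhds hs] with t ht
    exact bwh_zero (by omega) (le_of_lt ht)
  · subst hs
    rw [bwh_zero hk le_rfl, mul_zero, hasDerivAt_iff_tendsto_slope_zero]
    have h1 : Tendsto (pp k) (𝓝[≠] 0) (𝓝 (pp k 0)) := (bwh_cont k).continuousAt.mono_left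
      nhdsWithin_le_nhds
    rw [bwh_zero hk le_rfl] at h1
    refine h1.congr' ?_
    filter_upwards [self_mem_nhdsWithin] with t ht
    have ht' : t ≠ 0 := ht
    rw [zero_add, bwh_zero (by omega : 1 ≤ k + 1) le_rfl, sub_zero, smul_eq_mul]
    rcases le_total t 0 with h | h
    · rw [bwh_zero hk h, bwh_zero (by omega) h, mul_zero]
    · rw [bwh_pos k h, bwh_pos (k + 1) h, pow_succ']
      field_simp
  · rw [bwh_pos k hs.le]
    have h1 := hasDerivAt_pow (k + 1) s
    rw [Nat.add_sub_cancel] at h1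
    push_cast at h1
    refine h1.congr_of_eventuallyEq ?_
    filter_upwards [lt_mem_nhds hs] with t ht
    exact bwh_pos _ (le_of_lt ht)

/-- `pp (k+1)` is of class `C^k`. PROOF: induction on `k` (`k = 0`: continuity; step:
`contDiff_succ_iff_deriv` and `pp_hasDerivAt`). -/
theorem pp_contDiff (k : ℕ) : ContDiff ℝ k (pp (k + 1)) := by
  induction k with
  | zero => exact contDiff_zero.2 (bwh_cont _)
  | succ k ih =>
    have h1 : ∀ s, HasDerivAt (pp (k + 1 + 1)) ((((k + 1 : ℕ) : ℝ) + 1) * pp (k + 1) s) s :=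
      fun s => pp_hasDerivAt (by omega) s
    have h2 : deriv (pp (k + 1 + 1)) = fun s => (((k + 1 : ℕ) : ℝ) + 1) * pp (k + 1) s :=
      funext fun s => (h1 s).deriv
    rw [Nat.cast_succ, contDiff_succ_iff_deriv]
    refine ⟨fun s => (h1 s).differentiableAt, fun h => absurd h (by simp), ?_⟩
    rw [h2]
    exact contDiff_const.mul ih

end pos

section
variable {F : Type*} [NormedAddCommGroup F] [InnerProductSpace ℝ F]

theorem bw_eq_pp (k : ℕ) (z : F) : bw k z = pp k (1 - ‖z‖ ^ 2) := rfl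

theorem bw_nonneg (k : ℕ) (z : F) : 0 ≤ bw k z := pow_nonneg (le_max_left _ _) _

theorem bw_le_one (k : ℕ) (z : F) : bw k z ≤ 1 := by
  refine pow_le_one₀ (le_max_left _ _) (max_le zero_le_one ?_)
  have := sq_nonneg ‖z‖
  linarith

theorem bw_zero {k : ℕ} (hk : 1 ≤ k) {z : F} (h : 1 ≤ ‖z‖) : bw k z = 0 := by
  rw [bw_eq_pp]
  refine bwh_zero hk ?_
  have : 1 ≤ ‖z‖ ^ 2 := one_le_pow₀ h
  linarith

theorem bw_ge (k : ℕ) {ρ : ℝ} (h0 : 0 ≤ ρ) (h1 : ρ ≤ 1) {z : F} (h : ‖z‖ ≤ ρ) :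
    (1 - ρ ^ 2) ^ k ≤ bw k z := by
  have h2 : ρ ^ 2 ≤ 1 := pow_le_one₀ h0 h1
  have h3 : ‖z‖ ^ 2 ≤ ρ ^ 2 := pow_le_pow_left₀ (norm_nonneg _) h 2
  exact pow_le_pow_left₀ (by linarith) (le_max_of_le_right (by linarith)) k

/-- `z ↦ 1 - ‖z‖²` is smooth (`contDiff_norm_sq`), compose with `pp_contDiff`. -/
theorem bw_contDiff (k : ℕ) : ContDiff ℝ k (bw (k + 1) : F → ℝ) :=
  (pp_contDiff k).comp (contDiff_const.sub (contDiff_norm_sq ℝ))

theorem bw_continuous (k : ℕ) : Continuous (bw k : F → ℝ) :=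
  (bwh_cont k).comp (continuous_const.sub (continuous_norm.pow 2))

theorem bw_hasFDerivAt {k : ℕ} (hk : 1 ≤ k) (z : F) :
    HasFDerivAt (bw (k + 1) : F → ℝ) ((-(2 * ((k : ℝ) + 1)) * bw k z) • innerSL ℝ z) z := by
  have h1 : HasFDerivAt (fun z : F => 1 - ‖z‖ ^ 2) (-(2 • innerSL ℝ z)) z :=
    (hasStrictFDerivAt_norm_sq z).hasFDerivAt.const_sub 1
  have h2 := (pp_hasDerivAt hk (1 - ‖z‖ ^ 2)).comp_hasFDerivAt z h1
  have h3 : (((k : ℝ) + 1) * pp k (1 - ‖z‖ ^ 2)) • -(2 • innerSL ℝ z) =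
      (-(2 * ((k : ℝ) + 1)) * bw k z) • innerSL ℝ z := by
    ext w
    rw [bw_eq_pp]
    simp only [FunLike.coe_smul, Pi.smul_apply, neg_apply,
      smul_eq_mul, nsmul_eq_mul, Nat.cast_ofNat]
    ring
  rw [h3] at h2
  exact h2

end

section
variable {F : Type*} [NormedAddCommGroup F] [InnerProductSpace ℝ F] [FiniteDimensional ℝ F]
  [MeasurableSpace F] [BorelSpace F]

theorem bw_cpt {k : ℕ} (hk : 1 ≤ k) : HasCompactSupport (bw k : F → ℝ) := by
  refine HasCompactSupport.intro (isCompact_closedBall 0 1) fun z hz => bw_zero hk ?_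
  rw [mem_closedBall_zero_iff, not_le] at hz
  exact hz.le

theorem bw_tsupport {k : ℕ} (hk : 1 ≤ k) : tsupport (bw k : F → ℝ) ⊆ closedBall 0 1 := by
  refine closure_minimal (fun z hz => ?_) isClosed_closedBall
  by_contra h
  rw [mem_closedBall_zero_iff, not_le] at h
  exact hz (bw_zero hk h.le)

theorem bw_integrable {k : ℕ} (hk : 1 ≤ k) : Integrable (bw k : F → ℝ) :=
  (bw_continuous k).integrable_of_hasCompactSupport (bw_cpt hk)

theorem bw_integral_pos {k : ℕ} (hk : 1 ≤ k) : 0 < ∫ z : F, bw k z := by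
  refine (bw_continuous k).integral_pos_of_hasCompactSupport_nonneg_nonzero (x := 0) (bw_cpt hk)
    (fun z => bw_nonneg k z) ?_
  rw [bw_eq_pp, norm_zero]
  simp [pp]

end

end Pool.Agent.Lib.MP_79abb3_an.WG
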