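import Mathlib

/-!
Theorem W, block G: numerics of the chain.
-/

set_option autoImplicit false
set_option linter.unusedSectionVars false
set_option linter.unusedVariables false

open MeasureTheory Set Filter Topology Metric Laplacian
open scoped ContDiff InnerProductSpace

namespace Pool.Agent.Lib.MP_79abb3_an.WG

section

/-- `2^{-6/5} ≤ 4/9`. PROOF: fifth powers: `2^{-6} = 1/64 ≤ 1024/59049`. -/
theorem two_rpow_le : (2 : ℝ) ^ (-(6 / 5 : ℝ)) ≤ 4 / 9 := by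
  have h1 : ((2 : ℝ) ^ (-(6 / 5 : ℝ))) ^ 5 ≤ (4 / 9 : ℝ) ^ 5 := by
    rw [← Real.rpow_natCast, ← Real.rpow_mul (by norm_num)]
    have h2 : (-(6 / 5 : ℝ)) * ((5 : ℕ) : ℝ) = ((-6 : ℤ) : ℝ) := by norm_num
    rw [h2, Real.rpow_intCast]
    norm_num
  exact le_of_pow_le_pow_left₀ (by norm_num) (by norm_num) h1

/-- NUMERICS. PROOF. With `τ = t0 / 2^K ∈ [c/√lam, t0]`, `X = τ √lam ≥ c`: `(4/9)^K ≥ (2^{-6/5})^K = (τ/t0)^{6/5} ≥ τ^{6/5}`,
so the exponent is at most `-C' lam^{2/3} τ^{6/5} + log H + p log (1/τ) + 10 X`, and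
`lam^{2/3} τ^{6/5} = lam^{1/15} X^{6/5} ≥ lam^{1/15} max (c^{1/5} X) (c^{6/5})` (w.l.o.g. `c ≤ 1`),
`log (1/τ) = log √lam - log X ≤ (15/2) lam^{1/15} + |log c|`. Choose `C'` with `C' c^{1/5} ≥ 20` and
`C' c^{6/5} ≥ 2 (log H + p (15/2) + p |log c| + |log w|)`. -/
theorem numerics (H c w t0 : ℝ) (p : ℕ) (hH : 1 ≤ H) (hc : 0 < c) (hw : 0 < w) (ht0 : 0 < t0)
    (ht1 : t0 ≤ 1) : ∃ C' : ℝ, 0 ≤ C' ∧ ∀ (lam : ℝ) (K : ℕ), 1 ≤ lam → c / √lam ≤ t0 / 2 ^ K →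
      (Real.exp (-(C' * lam ^ ((2 : ℝ) / 3)))) ^ (((4 : ℝ) / 9) ^ K) *
        (H * ((t0 / 2 ^ K)⁻¹) ^ p * Real.exp (10 * √lam * (t0 / 2 ^ K))) ≤ w := by
  set A : ℝ := Real.log H + p * (15 / 2) + p * |Real.log c| + |Real.log w| with hA
  have hH0 : 0 < H := by linarith
  have hlH := Real.log_nonneg hH
  have hA0 : 0 ≤ A := by positivity
  have hc1 : 0 < c ^ ((1 : ℝ) / 5) := Real.rpow_pos_of_pos hc _
  have hc6 : 0 < c ^ ((6 : ℝ) / 5) := Real.rpow_pos_of_pos hc _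
  refine ⟨10 * (c ^ ((1 : ℝ) / 5))⁻¹ + A * (c ^ ((6 : ℝ) / 5))⁻¹, by positivity, ?_⟩
  intro lam K hlam hK
  have hlam0 : 0 < lam := by linarith
  have hs : 0 < √lam := Real.sqrt_pos.mpr hlam0
  set τ : ℝ := t0 / 2 ^ K with hτ
  have hτ0 : 0 < τ := by positivity
  have hX : c ≤ τ * √lam := by rwa [div_le_iff₀ hs] at hK
  set X : ℝ := τ * √lam with hXdef
  have hX0 : 0 < X := by positivity
  -- the power of 4/9
  have h1 : τ ^ ((6 : ℝ) / 5) ≤ ((4 : ℝ) / 9) ^ K := by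
    have h2 : τ ≤ ((2 : ℝ) ^ K)⁻¹ := by
      rw [hτ, div_eq_mul_inv]
      have h3 : (0 : ℝ) ≤ ((2 : ℝ) ^ K)⁻¹ := by positivity
      nlinarith
    calc τ ^ ((6 : ℝ) / 5) ≤ (((2 : ℝ) ^ K)⁻¹) ^ ((6 : ℝ) / 5) :=
          Real.rpow_le_rpow hτ0.le h2 (by norm_num)
      _ = ((2 : ℝ) ^ (-(6 / 5 : ℝ))) ^ K := by
          rw [← Real.rpow_natCast 2 K, ← Real.rpow_neg (by norm_num), ← Real.rpow_mul (by norm_num),
            ← Real.rpow_natCast _ K, ← Real.rpow_mul (by norm_num)]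
          congr 1
          ring
      _ ≤ ((4 : ℝ) / 9) ^ K := pow_le_pow_left₀ (by positivity) two_rpow_le K
  have h2 : lam ^ ((2 : ℝ) / 3) * τ ^ ((6 : ℝ) / 5) = lam ^ ((1 : ℝ) / 15) * X ^ ((6 : ℝ) / 5) := by
    rw [hXdef, Real.mul_rpow hτ0.le hs.le, Real.sqrt_eq_rpow, ← Real.rpow_mul hlam0.le]
    have h3 : lam ^ ((2 : ℝ) / 3) = lam ^ ((1 : ℝ) / 15) * lam ^ ((1 : ℝ) / 2 * (6 / 5)) := by
      rw [← Real.rpow_add hlam0]
      norm_num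
    rw [h3]
    ring
  set m : ℝ := lam ^ ((1 : ℝ) / 15) with hm
  have hm1 : 1 ≤ m := Real.one_le_rpow hlam (by norm_num)
  -- the logarithm of 1 / τ
  have hlog : - Real.log τ ≤ 15 / 2 * m + |Real.log c| := by
    have h3 : Real.log X = Real.log τ + Real.log lam / 2 := by
      rw [hXdef, Real.log_mul hτ0.ne' hs.ne', Real.log_sqrt hlam0.le]
    have h4 : Real.log c ≤ Real.log X := Real.log_le_log hc hX
    have h5 : Real.log lam = 15 * Real.log m := by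
      rw [hm, Real.log_rpow hlam0]
      ring
    have h6 : Real.log m ≤ m - 1 := Real.log_le_sub_one_of_pos (by linarith)
    have h7 := neg_abs_le (Real.log c)
    linarith
  -- powers of X
  have hX1 : c ^ ((1 : ℝ) / 5) * X ≤ X ^ ((6 : ℝ) / 5) := by
    have h3 : X ^ ((6 : ℝ) / 5) = X ^ ((1 : ℝ) / 5) * X := by
      have h4 : X ^ ((1 : ℝ) / 5) * X = X ^ ((1 : ℝ) / 5) * X ^ (1 : ℝ) := by
        rw [Real.rpow_one]
      rw [h4, ← Real.rpow_add hX0]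
      norm_num
    rw [h3]
    exact mul_le_mul_of_nonneg_right (Real.rpow_le_rpow hc.le hX (by norm_num)) hX0.le
  have hX6 : c ^ ((6 : ℝ) / 5) ≤ X ^ ((6 : ℝ) / 5) := Real.rpow_le_rpow hc.le hX (by norm_num)
  have hX10 : 10 * X ≤ 10 * (c ^ ((1 : ℝ) / 5))⁻¹ * X ^ ((6 : ℝ) / 5) := by
    have h3 : X ≤ (c ^ ((1 : ℝ) / 5))⁻¹ * X ^ ((6 : ℝ) / 5) := by
      rw [le_inv_mul_iff₀ hc1]
      exact hX1
    linarith
  have hXA : A ≤ A * (c ^ ((6 : ℝ) / 5))⁻¹ * X ^ ((6 : ℝ) / 5) := by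
    have h3 : 1 ≤ (c ^ ((6 : ℝ) / 5))⁻¹ * X ^ ((6 : ℝ) / 5) := by
      rw [le_inv_mul_iff₀ hc6, mul_one]
      exact hX6
    calc A = A * 1 := (mul_one A).symm
      _ ≤ A * ((c ^ ((6 : ℝ) / 5))⁻¹ * X ^ ((6 : ℝ) / 5)) := mul_le_mul_of_nonneg_left h3 hA0
      _ = _ := by ring
  set C : ℝ := 10 * (c ^ ((1 : ℝ) / 5))⁻¹ + A * (c ^ ((6 : ℝ) / 5))⁻¹ with hC
  have hC0 : 0 ≤ C := by positivity
  have hmain : m * (A + 10 * X) ≤ C * (lam ^ ((2 : ℝ) / 3) * ((4 : ℝ) / 9) ^ K) := by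
    have h3 : A + 10 * X ≤ C * X ^ ((6 : ℝ) / 5) := by
      rw [hC]
      linarith
    calc m * (A + 10 * X) ≤ m * (C * X ^ ((6 : ℝ) / 5)) :=
          mul_le_mul_of_nonneg_left h3 (by linarith)
      _ = C * (lam ^ ((2 : ℝ) / 3) * τ ^ ((6 : ℝ) / 5)) := by rw [h2]; ring
      _ ≤ C * (lam ^ ((2 : ℝ) / 3) * ((4 : ℝ) / 9) ^ K) := by
          refine mul_le_mul_of_nonneg_left ?_ hC0
          exact mul_le_mul_of_nonneg_left h1 (Real.rpow_nonneg hlam0.le _)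
  have hp0 : (0 : ℝ) ≤ p := Nat.cast_nonneg p
  have hsum : Real.log H + p * (- Real.log τ) + 10 * X + |Real.log w| ≤ m * (A + 10 * X) := by
    have h3 : p * (- Real.log τ) ≤ p * (15 / 2 * m + |Real.log c|) :=
      mul_le_mul_of_nonneg_left hlog hp0
    have h4 : 0 ≤ (m - 1) * (Real.log H + p * |Real.log c| + |Real.log w| + 10 * X) := by
      have h5 : 0 ≤ m - 1 := by linarith
      positivity
    have h6 : m * (A + 10 * X) = p * (15 / 2 * m) + (Real.log H + p * |Real.log c| + |Real.log w| +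
        10 * X) + (m - 1) * (Real.log H + p * |Real.log c| + |Real.log w| + 10 * X) := by
      rw [hA]
      ring
    rw [h6]
    linarith
  have e1 : (Real.exp (-(C * lam ^ ((2 : ℝ) / 3)))) ^ (((4 : ℝ) / 9) ^ K) =
      Real.exp (-(C * (lam ^ ((2 : ℝ) / 3) * ((4 : ℝ) / 9) ^ K))) := by
    rw [← Real.exp_mul]
    congr 1
    ring
  have e2 : (τ⁻¹) ^ p = Real.exp (p * (- Real.log τ)) := by
    rw [← Real.log_inv, Real.exp_nat_mul, Real.exp_log (inv_pos.mpr hτ0)]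
  have e3 : H = Real.exp (Real.log H) := (Real.exp_log hH0).symm
  have e4 : w = Real.exp (Real.log w) := (Real.exp_log hw).symm
  have e5 : 10 * √lam * τ = 10 * X := by rw [hXdef]; ring
  rw [e1, e2, e5]
  conv_lhs => rw [e3]
  rw [← Real.exp_add, ← Real.exp_add, ← Real.exp_add]
  conv_rhs => rw [e4]
  rw [Real.exp_le_exp]
  have h7 := neg_abs_le (Real.log w)
  linarith

end

end Pool.Agent.Lib.MP_79abb3_an.WG
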