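import Mathlib
import Pool.Agent.Lib.MP_79abb3_an.WG.LapA
import Pool.Agent.Lib.MP_79abb3_an.WG.LapB

section

/-!
Theorem W, block G: the cut-off of the backward cone.
-/

set_option autoImplicit false
set_option linter.unusedSectionVars false
set_option linter.unusedVariables false

open MeasureTheory Set Filter Topology Metric Laplacian
open scoped ContDiff InnerProductSpace

namespace Pool.Agent.Lib.MP_79abb3_an.WG

section
variable {E : Type} [NormedAddCommGroup E] [InnerProductSpace ℝ E] [FiniteDimensional ℝ E]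
  [MeasurableSpace E] [BorelSpace E]

/-- The cut-off of the backward cone. -/
noncomputable def cone (x1 : E) (r : ℝ) (x : E) (y : ℝ) : ℝ :=
  (max 0 (r / 2 - y - ‖x - x1‖ ^ 2 / (2 * r))) ^ 2

/-- The energy. -/
noncomputable def enW (V W : E → ℝ → ℝ) (x1 : E) (r y : ℝ) : ℝ :=
  ∫ x, cone x1 r x y * (V x y ^ 2 + ‖gradient (fun x => W x y) x‖ ^ 2)

theorem cone_nonneg (x1 : E) (r : ℝ) (x : E) (y : ℝ) : 0 ≤ cone x1 r x y := sq_nonneg _

theorem cone_zero {x1 : E} {r : ℝ} (hr : 0 < r) {x : E} {y : ℝ} (hy : 0 ≤ y) (hx : r ≤ dist x x1) :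
    cone x1 r x y = 0 := by
  have h1 : r ≤ ‖x - x1‖ := by rwa [dist_eq_norm] at hx
  have h2 : r / 2 ≤ ‖x - x1‖ ^ 2 / (2 * r) := by
    rw [le_div_iff₀ (by positivity)]
    nlinarith
  rw [cone, max_eq_left (by linarith)]
  norm_num

theorem cone_cpt {x1 : E} {r : ℝ} (hr : 0 < r) (y : ℝ) : HasCompactSupport (fun x => cone x1 r x y) := by
  refine HasCompactSupport.intro (isCompact_closedBall x1 (1 + |r * (r - 2 * y)|)) ?_
  intro x hx
  rw [mem_closedBall, not_le, dist_eq_norm] at hx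
  have h1 : r * (r - 2 * y) ≤ |r * (r - 2 * y)| := le_abs_self _
  have h0 : 0 ≤ |r * (r - 2 * y)| := abs_nonneg _
  have h2 : r * (r - 2 * y) ≤ ‖x - x1‖ ^ 2 := by nlinarith
  have h3 : r / 2 - y ≤ ‖x - x1‖ ^ 2 / (2 * r) := by
    rw [le_div_iff₀ (by positivity)]
    linarith
  rw [cone, max_eq_left (by linarith)]
  norm_num

private theorem waveA_sq (t : ℝ) : HasDerivAt (fun t : ℝ => (max 0 t) ^ 2) (2 * max 0 t) t := by
  rcases lt_trichotomy t 0 with h | h | h
  · have h1 : (fun t : ℝ => (max 0 t) ^ 2) =ᶠ[𝓝 t] fun _ => 0 := by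
      filter_upwards [Iio_mem_nhds h] with s hs
      rw [max_eq_left (le_of_lt hs)]
      norm_num
    rw [max_eq_left h.le, mul_zero]
    exact (hasDerivAt_const t (0 : ℝ)).congr_of_eventuallyEq h1
  · subst h
    rw [max_self, mul_zero, hasDerivAt_iff_isLittleO]
    simp only [sub_zero, smul_zero, max_self, ne_eq, OfNat.ofNat_ne_zero, not_false_eq_true,
      zero_pow]
    refine Asymptotics.IsBigO.trans_isLittleO ?_
      (Asymptotics.isLittleO_pow_id (𝕜 := ℝ) (n := 2) (by norm_num))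
    refine Asymptotics.IsBigO.of_bound 1 (Eventually.of_forall fun s => ?_)
    rw [one_mul, Real.norm_eq_abs, Real.norm_eq_abs, abs_of_nonneg (sq_nonneg _),
      abs_of_nonneg (sq_nonneg _)]
    rcases le_total s 0 with hs | hs
    · rw [max_eq_left hs]
      nlinarith [sq_nonneg s]
    · rw [max_eq_right hs]
  · have h1 : (fun t : ℝ => (max 0 t) ^ 2) =ᶠ[𝓝 t] fun t => t ^ 2 := by
      filter_upwards [Ioi_mem_nhds h] with s hs
      rw [max_eq_right (le_of_lt hs)]
    rw [max_eq_right h.le]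
    have h2 : HasDerivAt (fun t : ℝ => t ^ 2) (2 * t) t := by
      simpa using hasDerivAt_pow 2 t
    exact h2.congr_of_eventuallyEq h1

private theorem waveA_fd {r : ℝ} (x1 : E) (x : E) (y : ℝ) :
    HasFDerivAt (fun x : E => r / 2 - y - ‖x - x1‖ ^ 2 / (2 * r))
      (-((2 * r)⁻¹ • ((2 : ℕ) • (innerSL ℝ (x - x1)).comp (ContinuousLinearMap.id ℝ E)))) x := by
  have h1 : HasFDerivAt (fun x : E => x - x1) (ContinuousLinearMap.id ℝ E) x :=
    (hasFDerivAt_id x).sub_const x1
  have h2 := h1.norm_sq.const_mul (2 * r)⁻¹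
  have h3 := h2.const_sub (r / 2 - y)
  have e : (fun x : E => r / 2 - y - ‖x - x1‖ ^ 2 / (2 * r)) =
      fun x => r / 2 - y - (2 * r)⁻¹ * ‖x - x1‖ ^ 2 := by
    funext x
    rw [div_eq_inv_mul (‖x - x1‖ ^ 2)]
  rw [e]
  exact h3

/-- `cone` is `C¹` in both variables; derivatives `∂_y cone = -2 (..)₊`, `∇_x cone = -2 (..)₊ (x - x1)/r`. -/
theorem cone_deriv (x1 : E) (r : ℝ) (x : E) (y : ℝ) :
    HasDerivAt (fun y => cone x1 r x y) (-(2 * max 0 (r / 2 - y - ‖x - x1‖ ^ 2 / (2 * r)))) y := by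
  have h1 : HasDerivAt (fun y : ℝ => r / 2 - y - ‖x - x1‖ ^ 2 / (2 * r)) (-1) y :=
    ((hasDerivAt_id y).const_sub (r / 2)).sub_const _
  have h2 := (waveA_sq (r / 2 - y - ‖x - x1‖ ^ 2 / (2 * r))).comp y h1
  rw [mul_neg, mul_one] at h2
  exact h2

theorem cone_grad {x1 : E} {r : ℝ} (hr : 0 < r) (x : E) (y : ℝ) :
    HasGradientAt (fun x => cone x1 r x y)
      (-(2 * max 0 (r / 2 - y - ‖x - x1‖ ^ 2 / (2 * r)) / r) • (x - x1)) x := by
  have h1 := (waveA_sq (r / 2 - y - ‖x - x1‖ ^ 2 / (2 * r))).comp_hasFDerivAt x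
    (waveA_fd (r := r) x1 x y)
  rw [hasGradientAt_iff_hasFDerivAt]
  refine HasFDerivAt.congr_fderiv h1 ?_
  ext v
  simp only [InnerProductSpace.toDual_apply_apply, inner_smul_left, _root_.smul_apply,
    _root_.neg_apply, ContinuousLinearMap.comp_apply, ContinuousLinearMap.id_apply,
    innerSL_apply_apply, smul_eq_mul, conj_trivial, nsmul_eq_mul, Nat.cast_ofNat]
  field_simp

theorem cone_contDiff (x1 : E) (r : ℝ) (y : ℝ) : ContDiff ℝ 1 (fun x => cone x1 r x y) := by
  have h1 : ContDiff ℝ 1 (fun t : ℝ => (max 0 t) ^ 2) := by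
    rw [contDiff_one_iff_deriv]
    refine ⟨fun t => (waveA_sq t).differentiableAt, ?_⟩
    have e : deriv (fun t : ℝ => (max 0 t) ^ 2) = fun t => 2 * max 0 t :=
      funext fun t => (waveA_sq t).deriv
    rw [e]
    exact continuous_const.mul (continuous_const.max continuous_id)
  have h2 : ContDiff ℝ 1 (fun x : E => r / 2 - y - ‖x - x1‖ ^ 2 / (2 * r)) :=
    contDiff_const.sub (((contDiff_id.sub contDiff_const).norm_sq ℝ).div_const _)
  exact h1.comp h2

end

end Pool.Agent.Lib.MP_79abb3_an.WG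
end

section

/-!
Theorem W, block G: derivative of the energy.
-/

set_option autoImplicit false
set_option linter.unusedSectionVars false
set_option linter.unusedVariables false

open MeasureTheory Set Filter Topology Metric Laplacian
open scoped ContDiff InnerProductSpace

namespace Pool.Agent.Lib.MP_79abb3_an.WG

section
variable {E : Type} [NormedAddCommGroup E] [InnerProductSpace ℝ E] [FiniteDimensional ℝ E]
  [MeasurableSpace E] [BorelSpace E]

private theorem waveB_fst {f : E × ℝ → ℝ} (hf : Differentiable ℝ f) (x : E) (y : ℝ) (e : E) :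
    fderiv ℝ (fun x => f (x, y)) x e = fderiv ℝ f (x, y) (e, 0) := by
  have h1 : HasFDerivAt (fun x => f (x, y))
      ((fderiv ℝ f (x, y)).comp (ContinuousLinearMap.inl ℝ E ℝ)) x :=
    (hf (x, y)).hasFDerivAt.comp x (hasFDerivAt_prodMk_left x y)
  rw [h1.fderiv]
  simp

private theorem waveB_snd {F : Type*} [NormedAddCommGroup F] [NormedSpace ℝ F] {f : E × ℝ → F}
    (hf : Differentiable ℝ f) (x : E) (y : ℝ) :
    HasDerivAt (fun y => f (x, y)) (fderiv ℝ f (x, y) (0, 1)) y := by
  have h2 : HasDerivAt (fun y : ℝ => (x, y)) ((0 : E), (1 : ℝ)) y :=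
    (hasDerivAt_const y x).prodMk (hasDerivAt_id y)
  exact (hf (x, y)).hasFDerivAt.comp_hasDerivAt y h2

/-- the symmetry of the second derivatives -/
private theorem waveB_cross {V W : E → ℝ → ℝ}
    (hW : ContDiff ℝ 2 (fun p : E × ℝ => W p.1 p.2)) (hd : ∀ x y, HasDerivAt (W x) (V x y) y)
    (e : E) (x : E) (y : ℝ) :
    HasDerivAt (fun y => fderiv ℝ (fun p : E × ℝ => W p.1 p.2) (x, y) (e, 0))
      (fderiv ℝ (fun p : E × ℝ => V p.1 p.2) (x, y) (e, 0)) y := by
  set Wf : E × ℝ → ℝ := fun p => W p.1 p.2 with hWf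
  have hW1 : Differentiable ℝ Wf := hW.differentiable (by norm_num)
  have hDW : ContDiff ℝ 1 (fderiv ℝ Wf) := hW.fderiv_right (by norm_num)
  have hDW1 : Differentiable ℝ (fderiv ℝ Wf) := hDW.differentiable (by norm_num)
  have hVf : (fun p : E × ℝ => V p.1 p.2) = fun p => fderiv ℝ Wf p ((0 : E), (1 : ℝ)) := by
    funext p
    exact (hd p.1 p.2).unique (waveB_snd hW1 p.1 p.2)
  have h1 : HasDerivAt (fun y => fderiv ℝ Wf (x, y)) (fderiv ℝ (fderiv ℝ Wf) (x, y) (0, 1)) y :=
    waveB_snd (f := fderiv ℝ Wf) hDW1 x y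
  have h2 := h1.clm_apply (hasDerivAt_const y ((e, (0 : ℝ)) : E × ℝ))
  have h3 : fderiv ℝ (fun p : E × ℝ => V p.1 p.2) (x, y) (e, 0) =
      fderiv ℝ (fderiv ℝ Wf) (x, y) (0, 1) (e, 0) := by
    rw [hVf]
    have h4 : HasFDerivAt (fun p => fderiv ℝ Wf p ((0 : E), (1 : ℝ)))
        ((ContinuousLinearMap.apply ℝ ℝ ((0 : E), (1 : ℝ))).comp (fderiv ℝ (fderiv ℝ Wf) (x, y)))
        (x, y) :=
      (ContinuousLinearMap.apply ℝ ℝ ((0 : E), (1 : ℝ))).hasFDerivAt.comp (x, y)
        (hDW1 (x, y)).hasFDerivAt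
    rw [h4.fderiv]
    have h5 : IsSymmSndFDerivAt ℝ Wf (x, y) := by
      refine hW.contDiffAt.isSymmSndFDerivAt ?_
      simp
    exact (h5 (e, 0) (0, 1))
  rw [h3]
  simpa using h2

/-- the energy density in coordinates -/
private noncomputable def dens (V W : E → ℝ → ℝ) (x : E) (y : ℝ) : ℝ :=
  V x y ^ 2 + ∑ i, (fderiv ℝ (fun p : E × ℝ => W p.1 p.2) (x, y)
    (stdOrthonormalBasis ℝ E i, 0)) ^ 2

/-- half of its derivative -/
private noncomputable def dens' (V W : E → ℝ → ℝ) (x : E) (y : ℝ) : ℝ :=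
  V x y * fderiv ℝ (fun p : E × ℝ => V p.1 p.2) (x, y) (0, 1) +
    ∑ i, fderiv ℝ (fun p : E × ℝ => W p.1 p.2) (x, y) (stdOrthonormalBasis ℝ E i, 0) *
      fderiv ℝ (fun p : E × ℝ => V p.1 p.2) (x, y) (stdOrthonormalBasis ℝ E i, 0)

private theorem dens_eq {V W : E → ℝ → ℝ}
    (hW : ContDiff ℝ 2 (fun p : E × ℝ => W p.1 p.2)) (x : E) (y : ℝ) :
    V x y ^ 2 + ‖gradient (fun x => W x y) x‖ ^ 2 = dens V W x y := by
  have hW1 : Differentiable ℝ (fun p : E × ℝ => W p.1 p.2) := hW.differentiable (by norm_num)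
  rw [dens, ← real_inner_self_eq_norm_sq, inner_gradient_eq_sum (stdOrthonormalBasis ℝ E)]
  congr 1
  refine Finset.sum_congr rfl fun i _ => ?_
  rw [waveB_fst hW1 x y, sq]

private theorem dens'_eq {V W : E → ℝ → ℝ} (hV : ContDiff ℝ 1 (fun p : E × ℝ => V p.1 p.2))
    (hW : ContDiff ℝ 2 (fun p : E × ℝ => W p.1 p.2)) (x : E) (y : ℝ) :
    V x y * deriv (V x) y + ⟪gradient (fun x => W x y) x, gradient (fun x => V x y) x⟫_ℝ =
      dens' V W x y := by
  have hW1 : Differentiable ℝ (fun p : E × ℝ => W p.1 p.2) := hW.differentiable (by norm_num)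
  have hV1 : Differentiable ℝ (fun p : E × ℝ => V p.1 p.2) := hV.differentiable (by norm_num)
  rw [dens', inner_gradient_eq_sum (stdOrthonormalBasis ℝ E)]
  congr 1
  · rw [(waveB_snd hV1 x y).deriv]
  · refine Finset.sum_congr rfl fun i _ => ?_
    rw [waveB_fst hW1 x y, waveB_fst hV1 x y]

private theorem dens_deriv {V W : E → ℝ → ℝ} (hV : ContDiff ℝ 1 (fun p : E × ℝ => V p.1 p.2))
    (hW : ContDiff ℝ 2 (fun p : E × ℝ => W p.1 p.2)) (hd : ∀ x y, HasDerivAt (W x) (V x y) y)
    (x : E) (y : ℝ) : HasDerivAt (fun y => dens V W x y) (2 * dens' V W x y) y := by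
  have hV1 : Differentiable ℝ (fun p : E × ℝ => V p.1 p.2) := hV.differentiable (by norm_num)
  have h1 : HasDerivAt (fun y => V x y ^ 2)
      (2 * V x y * fderiv ℝ (fun p : E × ℝ => V p.1 p.2) (x, y) (0, 1)) y := by
    have := (waveB_snd hV1 x y).fun_pow 2
    simpa using this
  have h2 : HasDerivAt (fun y => ∑ i, (fderiv ℝ (fun p : E × ℝ => W p.1 p.2) (x, y)
      (stdOrthonormalBasis ℝ E i, 0)) ^ 2)
      (∑ i, 2 * fderiv ℝ (fun p : E × ℝ => W p.1 p.2) (x, y) (stdOrthonormalBasis ℝ E i, 0) *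
        fderiv ℝ (fun p : E × ℝ => V p.1 p.2) (x, y) (stdOrthonormalBasis ℝ E i, 0)) y := by
    refine HasDerivAt.fun_sum fun i _ => ?_
    have := (waveB_cross hW hd (stdOrthonormalBasis ℝ E i) x y).fun_pow 2
    simpa using this
  refine (h1.add h2).congr_deriv ?_
  rw [dens', mul_add, Finset.mul_sum, mul_assoc]
  congr 1
  refine Finset.sum_congr rfl fun i _ => ?_
  ring

private theorem dens_cont {V W : E → ℝ → ℝ} (hV : ContDiff ℝ 1 (fun p : E × ℝ => V p.1 p.2))
    (hW : ContDiff ℝ 2 (fun p : E × ℝ => W p.1 p.2)) :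
    Continuous (fun p : E × ℝ => dens V W p.1 p.2) := by
  have h1 : Continuous (fun p : E × ℝ => V p.1 p.2) := hV.continuous
  have h2 : Continuous (fun p : E × ℝ => fderiv ℝ (fun p : E × ℝ => W p.1 p.2) p) :=
    hW.continuous_fderiv (by norm_num)
  unfold dens
  refine (h1.pow 2).add (continuous_finsetSum _ fun i _ => ?_)
  exact (h2.clm_apply continuous_const).pow 2

private theorem dens'_cont {V W : E → ℝ → ℝ} (hV : ContDiff ℝ 1 (fun p : E × ℝ => V p.1 p.2))
    (hW : ContDiff ℝ 2 (fun p : E × ℝ => W p.1 p.2)) :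
    Continuous (fun p : E × ℝ => dens' V W p.1 p.2) := by
  have h1 : Continuous (fun p : E × ℝ => V p.1 p.2) := hV.continuous
  have h2 : Continuous (fun p : E × ℝ => fderiv ℝ (fun p : E × ℝ => W p.1 p.2) p) :=
    hW.continuous_fderiv (by norm_num)
  have h3 : Continuous (fun p : E × ℝ => fderiv ℝ (fun p : E × ℝ => V p.1 p.2) p) :=
    hV.continuous_fderiv (by norm_num)
  unfold dens'
  refine (h1.mul (h3.clm_apply continuous_const)).add (continuous_finsetSum _ fun i _ => ?_)
  exact (h2.clm_apply continuous_const).mul (h3.clm_apply continuous_const)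

/-- Derivative of the energy. PROOF. Differentiate under the integral (`hasDerivAt_integral_of_dominated_
loc_of_deriv_le`: for `y` in a bounded interval all supports lie in one compact set, the integrand is `C¹` in
`y` and continuous in `(x,y)`): the derivative of the integrand is
`∂_y cone (V² + |∇W|²) + 2 cone (V ∂_y V + ⟪∇W, ∇V⟫)`, because `∂_y ∇W = ∇ ∂_y W = ∇ V` (`W` is `C²`: symmetry of
the second derivative, `ContDiffAt.isSymmSndFDerivAt`). -/
theorem enW_deriv {V W : E → ℝ → ℝ} (hV : ContDiff ℝ 1 (fun p : E × ℝ => V p.1 p.2))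
    (hW : ContDiff ℝ 2 (fun p : E × ℝ => W p.1 p.2)) (hd : ∀ x y, HasDerivAt (W x) (V x y) y)
    {x1 : E} {r : ℝ} (hr : 0 < r) (y : ℝ) :
    HasDerivAt (enW V W x1 r)
      (∫ x, (-(2 * max 0 (r / 2 - y - ‖x - x1‖ ^ 2 / (2 * r))) *
          (V x y ^ 2 + ‖gradient (fun x => W x y) x‖ ^ 2) +
        2 * cone x1 r x y * (V x y * deriv (V x) y +
          ⟪gradient (fun x => W x y) x, gradient (fun x => V x y) x⟫_ℝ))) y := by
  set F : ℝ → E → ℝ := fun y x => cone x1 r x y * dens V W x y with hF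
  set F' : ℝ → E → ℝ := fun y x => -(2 * max 0 (r / 2 - y - ‖x - x1‖ ^ 2 / (2 * r))) *
    dens V W x y + 2 * cone x1 r x y * dens' V W x y with hF'
  have e1 : enW V W x1 r = fun y => ∫ x, F y x := by
    funext y
    rw [enW]
    simp only [hF, dens_eq hW]
  have e2 : (∫ x, (-(2 * max 0 (r / 2 - y - ‖x - x1‖ ^ 2 / (2 * r))) *
          (V x y ^ 2 + ‖gradient (fun x => W x y) x‖ ^ 2) +
        2 * cone x1 r x y * (V x y * deriv (V x) y +
          ⟪gradient (fun x => W x y) x, gradient (fun x => V x y) x⟫_ℝ))) = ∫ x, F' y x := by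
    simp only [hF', dens_eq hW, dens'_eq hV hW]
  rw [e1, e2]
  have hdc := dens_cont hV hW
  have hdc' := dens'_cont hV hW
  have hmx : Continuous (fun p : E × ℝ => max 0 (r / 2 - p.2 - ‖p.1 - x1‖ ^ 2 / (2 * r))) := by
    fun_prop
  have hcone : Continuous (fun p : E × ℝ => cone x1 r p.1 p.2) := hmx.pow 2
  have hFc : Continuous (fun p : E × ℝ => F p.2 p.1) := hcone.mul hdc
  have hFc' : Continuous (fun p : E × ℝ => F' p.2 p.1) :=
    ((continuous_const.mul hmx).neg.mul hdc).add ((continuous_const.mul hcone).mul hdc')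
  -- the common support
  set ρ : ℝ := 2 * r * (|r / 2 - y| + 1) + 1 with hρ
  have hρ1 : 1 ≤ ρ := by
    rw [hρ]
    have : 0 ≤ 2 * r * (|r / 2 - y| + 1) := by positivity
    linarith
  have hout : ∀ y' ∈ ball y 1, ∀ x, x ∉ closedBall x1 ρ →
      max 0 (r / 2 - y' - ‖x - x1‖ ^ 2 / (2 * r)) = 0 := by
    intro y' hy' x hx
    rw [mem_closedBall, dist_eq_norm, not_le] at hx
    rw [mem_ball, Real.dist_eq] at hy'
    refine max_eq_left ?_
    have h1 : r / 2 - y' ≤ |r / 2 - y| + 1 := by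
      have h2 := le_abs_self (r / 2 - y)
      have h3 := neg_abs_le (y' - y)
      linarith
    have h4 : 2 * r * (|r / 2 - y| + 1) ≤ ‖x - x1‖ ^ 2 := by
      have h5 : ρ ≤ ‖x - x1‖ ^ 2 := by nlinarith
      linarith
    have h6 : |r / 2 - y| + 1 ≤ ‖x - x1‖ ^ 2 / (2 * r) := by
      rw [le_div_iff₀ (by positivity)]
      linarith
    linarith
  have hFz : ∀ y' ∈ ball y 1, ∀ x, x ∉ closedBall x1 ρ → F y' x = 0 := by
    intro y' hy' x hx
    simp only [hF, cone, hout y' hy' x hx]
    ring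
  have hFz' : ∀ y' ∈ ball y 1, ∀ x, x ∉ closedBall x1 ρ → F' y' x = 0 := by
    intro y' hy' x hx
    simp only [hF', cone, hout y' hy' x hx]
    ring
  have hK : IsCompact (closedBall x1 ρ ×ˢ closedBall y 1) :=
    (isCompact_closedBall x1 ρ).prod (isCompact_closedBall y 1)
  obtain ⟨M, hM⟩ := hK.exists_bound_of_continuousOn hFc'.continuousOn
  have hslice : ∀ y', Continuous (F y') := fun y' => hFc.comp (continuous_id.prodMk continuous_const)
  have hslice' : ∀ y', Continuous (F' y') :=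
    fun y' => hFc'.comp (continuous_id.prodMk continuous_const)
  refine (hasDerivAt_integral_of_dominated_loc_of_deriv_le (μ := volume) (F := F) (F' := F')
    (bound := (closedBall x1 ρ).indicator fun _ => M) (ball_mem_nhds y one_pos) ?_ ?_ ?_ ?_ ?_ ?_).2
  · exact Eventually.of_forall fun y' => (hslice y').aestronglyMeasurable
  · refine (hslice y).integrable_of_hasCompactSupport ?_
    exact HasCompactSupport.intro (isCompact_closedBall x1 ρ) fun x hx =>
      hFz y (mem_ball_self one_pos) x hx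
  · exact (hslice' y).aestronglyMeasurable
  · refine Eventually.of_forall fun x y' hy' => ?_
    by_cases hx : x ∈ closedBall x1 ρ
    · rw [indicator_of_mem hx]
      exact hM (x, y') ⟨hx, ball_subset_closedBall hy'⟩
    · rw [indicator_of_notMem hx, hFz' y' hy' x hx, norm_zero]
  · exact (integrable_indicator_iff measurableSet_closedBall).2
      (integrableOn_const (measure_closedBall_lt_top.ne))
  · refine Eventually.of_forall fun x y' hy' => ?_
    have h1 := (cone_deriv x1 r x y').mul (dens_deriv hV hW hd x y')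
    refine h1.congr_deriv ?_
    simp only [hF']
    ring

end

end Pool.Agent.Lib.MP_79abb3_an.WG
end

section

/-!
Theorem W, block G: the energy decreases.
-/

set_option autoImplicit false
set_option linter.unusedSectionVars false
set_option linter.unusedVariables false

open MeasureTheory Set Filter Topology Metric Laplacian
open scoped ContDiff InnerProductSpace

namespace Pool.Agent.Lib.MP_79abb3_an.WG

section
variable {E : Type} [NormedAddCommGroup E] [InnerProductSpace ℝ E] [FiniteDimensional ℝ E]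
  [MeasurableSpace E] [BorelSpace E]

private theorem waveC_inner (f : E → ℝ) (x v : E) : ⟪gradient f x, v⟫_ℝ = fderiv ℝ f x v := by
  rw [gradient]
  exact InnerProductSpace.toDual_symm_apply

private theorem waveC_grad_cont {f : E → ℝ} (hf : ContDiff ℝ 1 f) : Continuous (gradient f) :=
  (InnerProductSpace.toDual ℝ E).symm.continuous.comp (hf.continuous_fderiv one_ne_zero)

/-- PROOF. `ibp_grad` with `ψ = cone * V` (at fixed `y`; `C¹`, compact support):
`∫ cone ⟪∇W, ∇V⟫ = - ∫ cone V ΔW - ∫ V ⟪∇W, ∇cone⟫`, `ΔW = ∂_y V` where `cone ≠ 0` (there `‖x - x1‖ < r`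
because `0 ≤ y`, `cone_zero`). So the derivative is
`∫ ∂_y cone (V² + |∇W|²) - 2 ∫ V ⟪∇W, ∇cone⟫ ≤ ∫ (∂_y cone + |∇ cone|)(V² + |∇W|²) ≤ 0`, since
`|∇ cone| = 2 (..)₊ ‖x - x1‖/r ≤ 2 (..)₊` where `(..)₊ ≠ 0`. -/
theorem enW_deriv_nonpos {V W : E → ℝ → ℝ} (hV : ContDiff ℝ 1 (fun p : E × ℝ => V p.1 p.2))
    (hW : ContDiff ℝ 2 (fun p : E × ℝ => W p.1 p.2)) (hd : ∀ x y, HasDerivAt (W x) (V x y) y)
    {x1 : E} {r : ℝ} (hr : 0 < r)
    (hw : ∀ x ∈ ball x1 r, ∀ y, Δ (fun x => W x y) x = deriv (V x) y) {y : ℝ} (hy : 0 ≤ y) :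
    deriv (enW V W x1 r) y ≤ 0 := by
  rw [(enW_deriv hV hW hd hr y).deriv]
  have hVy : ContDiff ℝ 1 (fun x => V x y) := hV.comp (contDiff_id.prodMk contDiff_const)
  have hWy : ContDiff ℝ 2 (fun x => W x y) := hW.comp (contDiff_id.prodMk contDiff_const)
  have hψ : ContDiff ℝ 1 (fun x => cone x1 r x y * V x y) := (cone_contDiff x1 r y).mul hVy
  have hψc : HasCompactSupport (fun x => cone x1 r x y * V x y) := (cone_cpt hr y).mul_right
  have hibp := ibp_grad hWy hψ hψc
  -- the pointwise bound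
  have hm0 : ∀ x, r ≤ ‖x - x1‖ → max 0 (r / 2 - y - ‖x - x1‖ ^ 2 / (2 * r)) = 0 := by
    intro x hx
    refine max_eq_left ?_
    have h1 : r / 2 ≤ ‖x - x1‖ ^ 2 / (2 * r) := by
      rw [div_le_div_iff₀ (by norm_num) (by positivity)]
      nlinarith
    linarith
  have hgψ : ∀ x, ⟪gradient (fun x => W x y) x, gradient (fun x => cone x1 r x y * V x y) x⟫_ℝ =
      cone x1 r x y * ⟪gradient (fun x => W x y) x, gradient (fun x => V x y) x⟫_ℝ +
      V x y * ⟪gradient (fun x => W x y) x,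
        (-(2 * max 0 (r / 2 - y - ‖x - x1‖ ^ 2 / (2 * r)) / r) • (x - x1))⟫_ℝ := by
    intro x
    have h1 : fderiv ℝ (fun x => cone x1 r x y * V x y) x =
        cone x1 r x y • fderiv ℝ (fun x => V x y) x + V x y • fderiv ℝ (fun x => cone x1 r x y) x :=
      fderiv_fun_mul ((cone_contDiff x1 r y).differentiable one_ne_zero x)
        (hVy.differentiable one_ne_zero x)
    have h2 : gradient (fun x => cone x1 r x y) x =
        (-(2 * max 0 (r / 2 - y - ‖x - x1‖ ^ 2 / (2 * r)) / r) • (x - x1)) :=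
      (cone_grad hr x y).gradient
    rw [← h2, real_inner_comm, waveC_inner, h1, ← real_inner_comm (gradient (fun x => W x y) x)
      (gradient (fun x => V x y) x), ← real_inner_comm (gradient (fun x => W x y) x)
      (gradient (fun x => cone x1 r x y) x), waveC_inner, waveC_inner]
    rfl
  have hpt : ∀ x, (-(2 * max 0 (r / 2 - y - ‖x - x1‖ ^ 2 / (2 * r))) *
          (V x y ^ 2 + ‖gradient (fun x => W x y) x‖ ^ 2) +
        2 * cone x1 r x y * (V x y * deriv (V x) y +
          ⟪gradient (fun x => W x y) x, gradient (fun x => V x y) x⟫_ℝ)) ≤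
      2 * (⟪gradient (fun x => W x y) x, gradient (fun x => cone x1 r x y * V x y) x⟫_ℝ +
        (cone x1 r x y * V x y) * Δ (fun x => W x y) x) := by
    intro x
    rw [hgψ x, inner_smul_right]
    set m := max 0 (r / 2 - y - ‖x - x1‖ ^ 2 / (2 * r)) with hm
    have hmn : 0 ≤ m := le_max_left _ _
    set v := V x y
    set G := gradient (fun x => W x y) x
    have h1 : cone x1 r x y * deriv (V x) y = cone x1 r x y * Δ (fun x => W x y) x := by
      by_cases hx : x ∈ ball x1 r
      · rw [hw x hx y]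
      · rw [mem_ball, not_lt] at hx
        rw [cone_zero hr hy hx, zero_mul, zero_mul]
    have h2 : 2 * m / r * (v * ⟪G, x - x1⟫_ℝ) ≤ m * (v ^ 2 + ‖G‖ ^ 2) := by
      by_cases hx : r ≤ ‖x - x1‖
      · have h0 : m = 0 := hm0 x hx
        rw [h0]
        simp
      · push Not at hx
        have h3 : v * ⟪G, x - x1⟫_ℝ ≤ |v| * (‖G‖ * r) := by
          refine (le_abs_self _).trans ?_
          rw [abs_mul]
          refine mul_le_mul_of_nonneg_left ?_ (abs_nonneg _)
          exact (abs_real_inner_le_norm _ _).trans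
            (mul_le_mul_of_nonneg_left hx.le (norm_nonneg _))
        have h4 : |v| * ‖G‖ * 2 ≤ v ^ 2 + ‖G‖ ^ 2 := by
          nlinarith [sq_nonneg (|v| - ‖G‖), sq_abs v]
        calc 2 * m / r * (v * ⟪G, x - x1⟫_ℝ) ≤ 2 * m / r * (|v| * (‖G‖ * r)) :=
              mul_le_mul_of_nonneg_left h3 (by positivity)
          _ = m * (|v| * ‖G‖ * 2) := by
              field_simp
          _ ≤ m * (v ^ 2 + ‖G‖ ^ 2) := mul_le_mul_of_nonneg_left h4 hmn
    have h5 : v * (-(2 * m / r) * ⟪G, x - x1⟫_ℝ) = -(2 * m / r * (v * ⟪G, x - x1⟫_ℝ)) := by ring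
    rw [h5]
    have h6 : cone x1 r x y * v * Δ (fun x => W x y) x = v * (cone x1 r x y * deriv (V x) y) := by
      rw [h1]
      ring
    rw [h6]
    have h7 : 2 * cone x1 r x y * (v * deriv (V x) y + ⟪G, gradient (fun x => V x y) x⟫_ℝ) =
        2 * (v * (cone x1 r x y * deriv (V x) y)) +
          2 * (cone x1 r x y * ⟪G, gradient (fun x => V x y) x⟫_ℝ) := by ring
    rw [h7]
    linarith
  -- integrability
  have hgW := waveC_grad_cont (hWy.of_le (by norm_num))
  have hgV := waveC_grad_cont hVy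
  have hmc : Continuous (fun x : E => max 0 (r / 2 - y - ‖x - x1‖ ^ 2 / (2 * r))) := by fun_prop
  have hcc : Continuous (fun x : E => cone x1 r x y) := (cone_contDiff x1 r y).continuous
  have hVd : Continuous (fun x => deriv (V x) y) := by
    have h1 : ∀ x, deriv (V x) y = fderiv ℝ (fun p : E × ℝ => V p.1 p.2) (x, y) (0, 1) := by
      intro x
      have h2 : HasDerivAt (fun y : ℝ => (x, y)) ((0 : E), (1 : ℝ)) y :=
        (hasDerivAt_const y x).prodMk (hasDerivAt_id y)
      have h3 : HasDerivAt (V x) (fderiv ℝ (fun p : E × ℝ => V p.1 p.2) (x, y) (0, 1)) y :=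
        ((hV.differentiable one_ne_zero) (x, y)).hasFDerivAt.comp_hasDerivAt y h2
      exact h3.deriv
    simp only [h1]
    have h4 : Continuous (fderiv ℝ (fun p : E × ℝ => V p.1 p.2)) :=
      hV.continuous_fderiv one_ne_zero
    exact (h4.comp (continuous_id.prodMk continuous_const)).clm_apply continuous_const
  have hcK : ∀ x, x ∉ closedBall x1 r → cone x1 r x y = 0 := by
    intro x hx
    rw [mem_closedBall, not_le] at hx
    exact cone_zero hr hy hx.le
  have hmK : ∀ x, x ∉ closedBall x1 r → max 0 (r / 2 - y - ‖x - x1‖ ^ 2 / (2 * r)) = 0 := by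
    intro x hx
    rw [mem_closedBall, dist_eq_norm, not_le] at hx
    exact hm0 x hx.le
  have hI1 : Integrable (fun x => (-(2 * max 0 (r / 2 - y - ‖x - x1‖ ^ 2 / (2 * r))) *
          (V x y ^ 2 + ‖gradient (fun x => W x y) x‖ ^ 2) +
        2 * cone x1 r x y * (V x y * deriv (V x) y +
          ⟪gradient (fun x => W x y) x, gradient (fun x => V x y) x⟫_ℝ))) := by
    refine Continuous.integrable_of_hasCompactSupport ?_ ?_
    · refine ((continuous_const.mul hmc).neg.mul ((hVy.continuous.pow 2).add (hgW.norm.pow 2))).add ?_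
      exact (continuous_const.mul hcc).mul ((hVy.continuous.mul hVd).add (hgW.inner hgV))
    · refine HasCompactSupport.intro (isCompact_closedBall x1 r) fun x hx => ?_
      rw [hcK x hx, hmK x hx]
      ring
  have hI2 : Integrable (fun x => ⟪gradient (fun x => W x y) x,
      gradient (fun x => cone x1 r x y * V x y) x⟫_ℝ) := by
    refine Continuous.integrable_of_hasCompactSupport (hgW.inner (waveC_grad_cont hψ)) ?_
    refine HasCompactSupport.intro (isCompact_closedBall x1 r) fun x hx => ?_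
    rw [hgψ x, hcK x hx, hmK x hx]
    simp
  have hI3 : Integrable (fun x => (cone x1 r x y * V x y) * Δ (fun x => W x y) x) :=
    (hψ.continuous.mul (lap_continuous hWy)).integrable_of_hasCompactSupport hψc.mul_right
  refine (integral_mono hI1 ((hI2.add hI3).const_mul 2) hpt).trans_eq ?_
  rw [integral_const_mul]
  have h8 : ∫ x, ((fun x => ⟪gradient (fun x => W x y) x,
      gradient (fun x => cone x1 r x y * V x y) x⟫_ℝ) +
      fun x => (cone x1 r x y * V x y) * Δ (fun x => W x y) x) x = 0 := by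
    rw [integral_add' hI2 hI3, hibp]
    ring
  rw [h8, mul_zero]

end

end Pool.Agent.Lib.MP_79abb3_an.WG
end

section

/-!
Theorem W, block G: finite speed of propagation in `L²`.
-/

set_option autoImplicit false
set_option linter.unusedSectionVars false
set_option linter.unusedVariables false

open MeasureTheory Set Filter Topology Metric Laplacian
open scoped ContDiff InnerProductSpace

namespace Pool.Agent.Lib.MP_79abb3_an.WG

section
variable {E : Type} [NormedAddCommGroup E] [InnerProductSpace ℝ E] [FiniteDimensional ℝ E]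
  [MeasurableSpace E] [BorelSpace E]

/-- FINITE SPEED. PROOF. `enW` is antitone on `[0, ∞)`. `enW(0) ≤ (r/2)² ∫_{ball x1 r} V(x,0)²`
(`W(·,0) = 0`), and for `0 ≤ y ≤ r/8` `enW(y) ≥ (r/4)² ∫_{ball x1 (r/2)} V(x,y)²`
(`r/2 - y - ‖x - x1‖²/(2r) ≥ r/2 - r/8 - r/8`). -/
theorem finite_speed {V W : E → ℝ → ℝ} (hV : ContDiff ℝ 1 (fun p : E × ℝ => V p.1 p.2))
    (hW : ContDiff ℝ 2 (fun p : E × ℝ => W p.1 p.2)) (hd : ∀ x y, HasDerivAt (W x) (V x y) y)
    (h0 : ∀ x, W x 0 = 0) {x1 : E} {r : ℝ} (hr : 0 < r)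
    (hw : ∀ x ∈ ball x1 r, ∀ y, Δ (fun x => W x y) x = deriv (V x) y) {y : ℝ} (hy : 0 ≤ y)
    (hy2 : y ≤ r / 8) :
    ∫ x in ball x1 (r / 2), V x y ^ 2 ≤ 4 * ∫ x in ball x1 r, V x 0 ^ 2 := by
  have hanti : AntitoneOn (enW V W x1 r) (Ici 0) := by
    refine antitoneOn_of_deriv_nonpos (convex_Ici 0) ?_ ?_ ?_
    · exact fun t _ => (enW_deriv hV hW hd hr t).continuousAt.continuousWithinAt
    · exact fun t _ => (enW_deriv hV hW hd hr t).differentiableAt.differentiableWithinAt
    · intro t ht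
      rw [interior_Ici] at ht
      exact enW_deriv_nonpos hV hW hd hr hw (le_of_lt ht)
  have hle := hanti (mem_Ici.2 le_rfl) (mem_Ici.2 hy) hy
  have hVt : ∀ t, Continuous (fun x => V x t) := fun t =>
    (hV.continuous).comp (continuous_id.prodMk continuous_const)
  have hWt : ∀ t, ContDiff ℝ 1 (fun x => W x t) := fun t =>
    (hW.of_le (by norm_num)).comp (contDiff_id.prodMk contDiff_const)
  have hgW : ∀ t, Continuous (gradient (fun x => W x t)) := fun t =>
    (InnerProductSpace.toDual ℝ E).symm.continuous.comp ((hWt t).continuous_fderiv one_ne_zero)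
  have hcc : ∀ t, Continuous (fun x : E => cone x1 r x t) := fun t =>
    (cone_contDiff x1 r t).continuous
  have hV2 : ∀ t s, IntegrableOn (fun x => V x t ^ 2) (ball x1 s) := fun t s =>
    (((hVt t).pow 2).continuousOn.integrableOn_compact (isCompact_closedBall x1 s)).mono_set
      ball_subset_closedBall
  -- the initial energy
  have hup : enW V W x1 r 0 ≤ (r / 2) ^ 2 * ∫ x in ball x1 r, V x 0 ^ 2 := by
    have h1 : (fun x => W x 0) = fun _ : E => (0 : ℝ) := funext h0
    have h2 : enW V W x1 r 0 = ∫ x in ball x1 r, cone x1 r x 0 * V x 0 ^ 2 := by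
      rw [enW, h1, setIntegral_eq_integral_of_forall_compl_eq_zero]
      · refine integral_congr_ae (Eventually.of_forall fun x => ?_)
        simp only
        rw [gradient_fun_const, norm_zero]
        ring
      · intro x hx
        rw [mem_ball, not_lt] at hx
        rw [cone_zero hr le_rfl hx, zero_mul]
    rw [h2, ← integral_const_mul]
    refine setIntegral_mono_on ?_ ((hV2 0 r).const_mul _) measurableSet_ball fun x _ => ?_
    · exact (((hcc 0).mul ((hVt 0).pow 2)).continuousOn.integrableOn_compact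
        (isCompact_closedBall x1 r)).mono_set ball_subset_closedBall
    · refine mul_le_mul_of_nonneg_right ?_ (sq_nonneg _)
      refine pow_le_pow_left₀ (le_max_left _ _) (max_le (by positivity) ?_) 2
      have : 0 ≤ ‖x - x1‖ ^ 2 / (2 * r) := by positivity
      linarith
  -- the energy at the time `y`
  have hlow : (r / 4) ^ 2 * ∫ x in ball x1 (r / 2), V x y ^ 2 ≤ enW V W x1 r y := by
    have hnn : ∀ x, 0 ≤ cone x1 r x y * (V x y ^ 2 + ‖gradient (fun x => W x y) x‖ ^ 2) :=
      fun x => mul_nonneg (cone_nonneg _ _ _ _) (by positivity)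
    have hint : Integrable (fun x => cone x1 r x y *
        (V x y ^ 2 + ‖gradient (fun x => W x y) x‖ ^ 2)) :=
      ((hcc y).mul (((hVt y).pow 2).add ((hgW y).norm.pow 2))).integrable_of_hasCompactSupport
        (cone_cpt hr y).mul_right
    rw [enW, ← integral_const_mul]
    refine le_trans ?_ (setIntegral_le_integral (s := ball x1 (r / 2)) hint
      (Eventually.of_forall hnn))
    refine setIntegral_mono_on ((hV2 y (r / 2)).const_mul _) hint.integrableOn measurableSet_ball
      fun x hx => ?_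
    rw [mem_ball, dist_eq_norm] at hx
    have h3 : ‖x - x1‖ ^ 2 / (2 * r) ≤ r / 8 := by
      rw [div_le_div_iff₀ (by positivity) (by norm_num)]
      have h4 : ‖x - x1‖ ^ 2 ≤ (r / 2) ^ 2 := pow_le_pow_left₀ (norm_nonneg _) hx.le 2
      nlinarith
    have h5 : (r / 4) ^ 2 ≤ cone x1 r x y := by
      refine pow_le_pow_left₀ (by positivity) (le_trans ?_ (le_max_right _ _)) 2
      linarith
    calc (r / 4) ^ 2 * V x y ^ 2 ≤ cone x1 r x y * V x y ^ 2 :=
          mul_le_mul_of_nonneg_right h5 (sq_nonneg _)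
      _ ≤ _ := mul_le_mul_of_nonneg_left (by linarith [sq_nonneg ‖gradient (fun x => W x y) x‖])
          (cone_nonneg _ _ _ _)
  have h6 := hlow.trans (hle.trans hup)
  have hr2 : 0 < (r / 4) ^ 2 := by positivity
  have h7 : (r / 2) ^ 2 * (∫ x in ball x1 r, V x 0 ^ 2) =
      (r / 4) ^ 2 * (4 * ∫ x in ball x1 r, V x 0 ^ 2) := by ring
  rw [h7] at h6
  exact le_of_mul_le_mul_left h6 hr2

end

end Pool.Agent.Lib.MP_79abb3_an.WG
end
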