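import Pool.Agent.Lib.MP_79abb3_an.WG.PairA
import Pool.Agent.Lib.MP_79abb3_an.WG.SliceA
import Pool.Agent.Lib.MP_79abb3_an.WG.BulkA
import Pool.Agent.Lib.MP_79abb3_an.WG.Wave
import Pool.Agent.Lib.MP_79abb3_an.WG.Three
import Pool.Agent.Lib.MP_79abb3_an.WG.ChainN
import Pool.Agent.Lib.MP_79abb3_an.WG.Geo

section

/-!
Theorem W, block G: norms of the slices.
-/

set_option autoImplicit false
set_option linter.unusedSectionVars false
set_option linter.unusedVariables false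

open MeasureTheory Set Filter Topology Metric Laplacian
open scoped ContDiff InnerProductSpace

namespace Pool.Agent.Lib.MP_79abb3_an.WG

section
variable {E : Type} [NormedAddCommGroup E] [InnerProductSpace ℝ E] [FiniteDimensional ℝ E]
  [MeasurableSpace E] [BorelSpace E]

/-- the unscaled slice -/
private noncomputable def slu (s : ℝ) (z : E) : ℝ := bw 4 (pt z s)

private theorem slu_eq (s : ℝ) : (slu s : E → ℝ) = fun z => pp 4 (1 - (‖z‖ ^ 2 + s ^ 2)) := by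
  funext z
  unfold slu
  rw [bw_eq_pp, WithLp.prod_norm_sq_eq_of_L2]
  show pp 4 (1 - (‖z‖ ^ 2 + ‖s‖ ^ 2)) = _
  rw [Real.norm_eq_abs, sq_abs]

private theorem slu_w (s : ℝ) (z : E) :
    HasFDerivAt (fun z : E => 1 - (‖z‖ ^ 2 + s ^ 2)) (-(2 • innerSL ℝ z)) z :=
  ((hasStrictFDerivAt_norm_sq z).hasFDerivAt.add_const _).const_sub 1

private theorem slu_contDiff (s : ℝ) : ContDiff ℝ 2 (slu s : E → ℝ) := by
  rw [slu_eq]
  have h1 : ContDiff ℝ 2 (pp 4) := (pp_contDiff 3).of_le (by norm_num)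
  exact h1.comp (contDiff_const.sub ((contDiff_norm_sq ℝ).add contDiff_const))

private theorem slu_fd (s : ℝ) (z b : E) :
    fderiv ℝ (slu s : E → ℝ) z b = -8 * (pp 3 (1 - (‖z‖ ^ 2 + s ^ 2)) * ⟪z, b⟫_ℝ) := by
  have h1 := (pp_hasDerivAt (k := 3) (by norm_num) (1 - (‖z‖ ^ 2 + s ^ 2))).comp_hasFDerivAt z
    (slu_w s z)
  have h2 : fderiv ℝ (slu s : E → ℝ) z =
      ((((3 : ℕ) : ℝ) + 1) * pp 3 (1 - (‖z‖ ^ 2 + s ^ 2))) • -(2 • innerSL ℝ z) := by
    rw [slu_eq]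
    exact h1.fderiv
  rw [h2]
  simp only [smul_apply, neg_apply, innerSL_apply_apply, smul_eq_mul, nsmul_eq_mul,
    Nat.cast_ofNat]
  ring

private theorem slu_fd2 (s : ℝ) (z b : E) :
    fderiv ℝ (fun y => fderiv ℝ (slu s : E → ℝ) y b) z b =
      48 * pp 2 (1 - (‖z‖ ^ 2 + s ^ 2)) * ⟪z, b⟫_ℝ ^ 2 -
        8 * pp 3 (1 - (‖z‖ ^ 2 + s ^ 2)) * ⟪b, b⟫_ℝ := by
  have e : (fun y => fderiv ℝ (slu s : E → ℝ) y b) = fun y =>
      -8 * (pp 3 (1 - (‖y‖ ^ 2 + s ^ 2)) * innerSL ℝ b y) := by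
    funext y
    rw [slu_fd, innerSL_apply_apply, real_inner_comm]
  rw [e]
  have h1 := (pp_hasDerivAt (k := 2) (by norm_num) (1 - (‖z‖ ^ 2 + s ^ 2))).comp_hasFDerivAt z
    (slu_w s z)
  have h2 := (h1.mul (innerSL ℝ b).hasFDerivAt).const_mul (-8)
  have h3 := h2.fderiv
  have h4 : (fun y => -8 * (pp 3 (1 - (‖y‖ ^ 2 + s ^ 2)) * innerSL ℝ b y)) =
      fun y => -8 * ((pp (2 + 1) ∘ fun z : E => 1 - (‖z‖ ^ 2 + s ^ 2)) y * innerSL ℝ b y) := rfl
  rw [h4]
  erw [h3]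
  simp only [smul_apply, neg_apply, add_apply, innerSL_apply_apply, smul_eq_mul, nsmul_eq_mul,
    Nat.cast_ofNat, Function.comp_apply]
  rw [real_inner_comm b z]
  ring

private theorem slu_lap (s : ℝ) (z : E) :
    Δ (slu s : E → ℝ) z = 48 * pp 2 (1 - (‖z‖ ^ 2 + s ^ 2)) * ‖z‖ ^ 2 -
      8 * pp 3 (1 - (‖z‖ ^ 2 + s ^ 2)) * Module.finrank ℝ E := by
  rw [lap_eq_sum (stdOrthonormalBasis ℝ E) (slu_contDiff s)]
  simp only [slu_fd2]
  rw [Finset.sum_sub_distrib, ← Finset.mul_sum, ← Finset.mul_sum]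
  congr 2
  · rw [← (stdOrthonormalBasis ℝ E).sum_sq_norm_inner_left z]
    refine Finset.sum_congr rfl fun i _ => ?_
    rw [Real.norm_eq_abs, sq_abs]
  · have h1 : ∀ i, ⟪stdOrthonormalBasis ℝ E i, stdOrthonormalBasis ℝ E i⟫_ℝ = 1 := fun i => by
      rw [real_inner_self_eq_norm_sq, (stdOrthonormalBasis ℝ E).norm_eq_one, one_pow]
    simp only [h1]
    rw [Finset.sum_const, Finset.card_univ, Fintype.card_fin, nsmul_eq_mul, mul_one]

private theorem slu_pp {k : ℕ} {t : ℝ} (ht : t ≤ 1) : pp k t ≤ 1 :=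
  pow_le_one₀ (le_max_left _ _) (max_le zero_le_one ht)

private theorem slu_pp0 {k : ℕ} (hk : k ≠ 0) {t : ℝ} (ht : t ≤ 0) : pp k t = 0 := by
  unfold pp
  rw [max_eq_left ht, zero_pow hk]

private theorem slu_w1 (s : ℝ) (z : E) : 1 - (‖z‖ ^ 2 + s ^ 2) ≤ 1 := by
  have := sq_nonneg ‖z‖
  have := sq_nonneg s
  linarith

private theorem slu_w0 (s : ℝ) {z : E} (hz : 1 ≤ ‖z‖) : 1 - (‖z‖ ^ 2 + s ^ 2) ≤ 0 := by
  have := one_le_pow₀ hz (n := 2)
  have := sq_nonneg s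
  linarith

private theorem slu_lap0 (s : ℝ) {z : E} (hz : 1 ≤ ‖z‖) : Δ (slu s : E → ℝ) z = 0 := by
  rw [slu_lap, slu_pp0 (by norm_num) (slu_w0 s hz), slu_pp0 (by norm_num) (slu_w0 s hz)]
  ring

private theorem slu_lap_le (s : ℝ) (z : E) :
    |Δ (slu s : E → ℝ) z| ≤ 48 + 8 * Module.finrank ℝ E := by
  have hd : (0:ℝ) ≤ Module.finrank ℝ E := Nat.cast_nonneg _
  rcases le_total 1 ‖z‖ with hz | hz
  · rw [slu_lap0 s hz, abs_zero]
    positivity
  · rw [slu_lap]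
    have a0 := pp_nonneg 2 (1 - (‖z‖ ^ 2 + s ^ 2))
    have a1 : pp 2 (1 - (‖z‖ ^ 2 + s ^ 2)) ≤ 1 := slu_pp (slu_w1 s z)
    have b0 := pp_nonneg 3 (1 - (‖z‖ ^ 2 + s ^ 2))
    have b1 : pp 3 (1 - (‖z‖ ^ 2 + s ^ 2)) ≤ 1 := slu_pp (slu_w1 s z)
    have c0 : 0 ≤ ‖z‖ ^ 2 := sq_nonneg _
    have c1 : ‖z‖ ^ 2 ≤ 1 := pow_le_one₀ (norm_nonneg _) hz
    generalize pp 2 (1 - (‖z‖ ^ 2 + s ^ 2)) = a at *
    generalize pp 3 (1 - (‖z‖ ^ 2 + s ^ 2)) = b at *
    generalize ‖z‖ ^ 2 = c at *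
    generalize (Module.finrank ℝ E : ℝ) = d at *
    have e1 : a * c ≤ 1 := mul_le_one₀ a1 c0 c1
    have e2 : 0 ≤ a * c := mul_nonneg a0 c0
    have e3 : b * d ≤ d := by
      have := mul_le_mul_of_nonneg_right b1 hd
      rwa [one_mul] at this
    have e4 : 0 ≤ b * d := mul_nonneg b0 hd
    rw [abs_le]
    constructor <;> nlinarith

private theorem slb_n2 {g : E → ℝ} {M : ℝ} {x' : E} (hM : 0 ≤ M) (hb : ∀ x, |g x| ≤ M)
    (h0 : ∀ x, 1 < dist x x' → g x = 0) :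
    n2 g ≤ M * √(volume.real (closedBall (0 : E) 1)) := by
  have hV : volume.real (closedBall x' 1) = volume.real (closedBall (0 : E) 1) := by
    rw [measureReal_def, measureReal_def, Measure.addHaar_closedBall_center]
  have h1 : ∫ x, g x ^ 2 ≤ M ^ 2 * volume.real (closedBall (0 : E) 1) := by
    rw [← hV]
    have h2 : ∫ x, (closedBall x' 1).indicator (fun _ => M ^ 2) x =
        M ^ 2 * volume.real (closedBall x' 1) := by
      rw [integral_indicator_const _ isClosed_closedBall.measurableSet, smul_eq_mul, mul_comm]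
    rw [← h2]
    refine integral_mono_of_nonneg (Eventually.of_forall fun x => sq_nonneg _) ?_
      (Eventually.of_forall fun x => ?_)
    · refine (integrable_indicator_iff isClosed_closedBall.measurableSet).2 ?_
      exact integrableOn_const (measure_closedBall_lt_top.ne)
    · show g x ^ 2 ≤ _
      by_cases hx : x ∈ closedBall x' 1
      · rw [indicator_of_mem hx, ← sq_abs]
        exact pow_le_pow_left₀ (abs_nonneg _) (hb x) 2
      · rw [indicator_of_notMem hx, h0 x (by rwa [mem_closedBall, not_le] at hx)]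
        norm_num
  unfold n2
  refine (Real.sqrt_le_sqrt h1).trans (le_of_eq ?_)
  rw [Real.sqrt_mul (sq_nonneg M), Real.sqrt_sq hM]

private theorem slb_eq (r s : ℝ) (x' : E) : (sl r s x' : E → ℝ) =
    ((r ^ Module.finrank ℝ E)⁻¹ : ℝ) • fun x => slu s (-(r⁻¹ • x') + r⁻¹ • x) := by
  funext x
  show (r ^ Module.finrank ℝ E)⁻¹ * bw 4 (pt (r⁻¹ • (x - x')) s) =
    (r ^ Module.finrank ℝ E)⁻¹ * bw 4 (pt (-(r⁻¹ • x') + r⁻¹ • x) s)
  rw [smul_sub, sub_eq_neg_add]

variable (E) in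
/-- Norms, uniformly in `s`. PROOF: `0 ≤ bw 4 ≤ 1`; `Δ_x (1-|x|²-s²)₊^4 = 48 (..)₊² |x|² - 8 d (..)₊³`, bounded by
`48 + 8 d` and zero for `‖x‖ ≥ 1`; change of variables: `n2 (sl r s x') = r^{-d/2} n2 (bw 4 (pt · s))`,
`n2 (Δ (sl r s x')) = r^{-2-d/2} ...`; for `r ≤ 1` both are `≤ C r^{-(d+2)}`. -/
theorem sl_norms : ∃ C : ℝ, 1 ≤ C ∧ ∀ (r s : ℝ) (x' : E), 0 < r → r ≤ 1 →
    n2 (sl r s x' : E → ℝ) ≤ C * (r⁻¹) ^ (Module.finrank ℝ E + 2) ∧
    n2 (Δ (sl r s x' : E → ℝ)) ≤ C * (r⁻¹) ^ (Module.finrank ℝ E + 2) := by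
  have hd : (0:ℝ) ≤ Module.finrank ℝ E := Nat.cast_nonneg _
  have hV : 0 ≤ √(volume.real (closedBall (0 : E) 1)) := Real.sqrt_nonneg _
  refine ⟨1 + (48 + 8 * Module.finrank ℝ E) * √(volume.real (closedBall (0 : E) 1)), ?_, ?_⟩
  · have : 0 ≤ (48 + 8 * (Module.finrank ℝ E : ℝ)) * √(volume.real (closedBall (0 : E) 1)) := by
      positivity
    linarith
  intro r s x' hr hr1
  have hri : 1 ≤ r⁻¹ := (one_le_inv₀ hr).2 hr1
  have hR : 0 ≤ (r⁻¹) ^ (Module.finrank ℝ E + 2) := by positivity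
  have hfar : ∀ x : E, 1 < dist x x' → 1 ≤ ‖-(r⁻¹ • x') + r⁻¹ • x‖ := by
    intro x hx
    rw [← sub_eq_neg_add, ← smul_sub, norm_smul, Real.norm_of_nonneg (inv_pos.2 hr).le,
      ← dist_eq_norm]
    exact hx.le.trans (le_mul_of_one_le_left dist_nonneg hri)
  constructor
  · have h1 := slb_n2 (g := (sl r s x' : E → ℝ)) (M := (r⁻¹) ^ (Module.finrank ℝ E + 2)) (x' := x')
      hR (fun x => ?_) (fun x hx => ?_)
    · refine h1.trans ?_
      rw [mul_comm]
      refine mul_le_mul_of_nonneg_right ?_ hR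
      nlinarith
    · rw [slb_eq]
      show |(r ^ Module.finrank ℝ E)⁻¹ * slu s (-(r⁻¹ • x') + r⁻¹ • x)| ≤ _
      unfold slu
      rw [abs_mul, abs_of_nonneg (by positivity : (0:ℝ) ≤ (r ^ Module.finrank ℝ E)⁻¹),
        abs_of_nonneg (bw_nonneg _ _), ← inv_pow, pow_add]
      refine mul_le_mul_of_nonneg_left ?_ (by positivity)
      exact (bw_le_one _ _).trans (one_le_pow₀ hri)
    · rw [slb_eq]
      show (r ^ Module.finrank ℝ E)⁻¹ * slu s (-(r⁻¹ • x') + r⁻¹ • x) = 0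
      rw [slu_eq]
      show (r ^ Module.finrank ℝ E)⁻¹ * pp 4 (1 - (‖-(r⁻¹ • x') + r⁻¹ • x‖ ^ 2 + s ^ 2)) = 0
      rw [slu_pp0 (by norm_num) (slu_w0 s (hfar x hx)), mul_zero]
  · have hc : ContDiff ℝ 2 fun x : E => slu s (-(r⁻¹ • x') + r⁻¹ • x) :=
      (slu_contDiff s).comp (contDiff_const.add (contDiff_id.const_smul r⁻¹))
    have hlap : ∀ x, Δ (sl r s x' : E → ℝ) x =
        (r ^ Module.finrank ℝ E)⁻¹ * (r⁻¹ ^ 2 * Δ (slu s : E → ℝ) (-(r⁻¹ • x') + r⁻¹ • x)) := by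
      intro x
      rw [slb_eq, InnerProductSpace.laplacian_smul _ hc.contDiffAt,
        lap_affine (slu_contDiff s), smul_eq_mul]
    have hM : 0 ≤ (r⁻¹) ^ (Module.finrank ℝ E + 2) * (48 + 8 * (Module.finrank ℝ E : ℝ)) := by
      positivity
    have h1 := slb_n2 (g := Δ (sl r s x' : E → ℝ))
      (M := (r⁻¹) ^ (Module.finrank ℝ E + 2) * (48 + 8 * (Module.finrank ℝ E : ℝ))) (x' := x')
      hM (fun x => ?_) (fun x hx => ?_)
    · refine h1.trans ?_
      rw [mul_assoc, mul_comm]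
      refine mul_le_mul_of_nonneg_right ?_ hR
      linarith
    · rw [hlap x, abs_mul, abs_mul,
        abs_of_nonneg (by positivity : (0:ℝ) ≤ (r ^ Module.finrank ℝ E)⁻¹),
        abs_of_nonneg (by positivity : (0:ℝ) ≤ r⁻¹ ^ 2), ← inv_pow, ← mul_assoc, ← pow_add]
      exact mul_le_mul_of_nonneg_left (slu_lap_le s _) hR
    · rw [hlap x, slu_lap0 s (hfar x hx), mul_zero, mul_zero]

end

end Pool.Agent.Lib.MP_79abb3_an.WG
end

section

/-!
Theorem W, block G: smallness of the hyperbolic extension.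
-/

set_option autoImplicit false
set_option linter.unusedSectionVars false
set_option linter.unusedVariables false

open MeasureTheory Set Filter Topology Metric Laplacian
open scoped ContDiff InnerProductSpace

namespace Pool.Agent.Lib.MP_79abb3_an.WG

section
variable {E : Type} [NormedAddCommGroup E] [InnerProductSpace ℝ E] [FiniteDimensional ℝ E]
  [MeasurableSpace E] [BorelSpace E]

/-- Smallness of the hyperbolic extension. PROOF: `finite_speed` with `V = Ser (-1) f`, `W = SerI (-1) f`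
(`SerI_deriv`, `SerI_lap`, `SerI_zero`, `Ser_zero`), and `Ser_neg` for `y < 0`. -/
theorem hyp_small {G : Set E} {lam : ℝ} {f : ℕ → E → ℝ} (hl : 1 ≤ lam) (h : LFS G lam f) {x1 : E}
    {r : ℝ} (hr : 0 < r) (hG : ball x1 r ⊆ G) {y : ℝ} (hy : |y| ≤ r / 8) :
    ∫ x in ball x1 (r / 2), Ser (-1) f x y ^ 2 ≤ 4 * ∫ x in ball x1 r, f 0 x ^ 2 := by
  have hl0 : (0:ℝ) ≤ lam := by linarith
  have hσ : |(-1:ℝ)| ≤ 1 := by simp
  have key : ∀ y : ℝ, 0 ≤ y → y ≤ r / 8 →
      ∫ x in ball x1 (r / 2), Ser (-1) f x y ^ 2 ≤ 4 * ∫ x in ball x1 r, f 0 x ^ 2 := by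
    intro y hy0 hy1
    have h1 := finite_speed (V := Ser (-1) f) (W := SerI (-1) f)
      (by exact_mod_cast h.Ser_contDiff hl0 hσ 1) (by exact_mod_cast h.SerI_contDiff hl0 hσ 2)
      (fun x y => h.SerI_deriv hl0 hσ x y) (fun x => SerI_zero (-1) f x) (x1 := x1) hr
      (fun x hx y => h.SerI_lap hl0 (hG hx) y) hy0 hy1
    simpa only [Ser_zero] using h1
  rcases le_total 0 y with h0 | h0
  · exact key y h0 (by rwa [abs_of_nonneg h0] at hy)
  · have h2 := key (-y) (by linarith) (by rwa [abs_of_nonpos h0] at hy)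
    simpa only [Ser_neg] using h2

end

end Pool.Agent.Lib.MP_79abb3_an.WG
end

section

/-!
Theorem W, block G: smallness of the slices of the harmonic extension.
-/

set_option autoImplicit false
set_option linter.unusedSectionVars false
set_option linter.unusedVariables false

open MeasureTheory Set Filter Topology Metric Laplacian
open scoped ContDiff InnerProductSpace

namespace Pool.Agent.Lib.MP_79abb3_an.WG

section
variable {E : Type} [NormedAddCommGroup E] [InnerProductSpace ℝ E] [FiniteDimensional ℝ E]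
  [MeasurableSpace E] [BorelSpace E]

/-- Cauchy-Schwarz for square integrable functions. -/
private theorem stb_cs {μ : Measure E} {p g : E → ℝ} (hp : MemLp p 2 μ) (hg : MemLp g 2 μ) :
    |∫ x, p x * g x ∂μ| ≤ √(∫ x, p x ^ 2 ∂μ) * √(∫ x, g x ^ 2 ∂μ) := by
  have key : ∀ {u v : E → ℝ} (hu : MemLp u 2 μ) (hv : MemLp v 2 μ),
      (inner ℝ (hu.toLp u) (hv.toLp v) : ℝ) = ∫ x, u x * v x ∂μ := by
    intro u v hu hv
    rw [L2.inner_def]
    apply integral_congr_ae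
    filter_upwards [hu.coeFn_toLp, hv.coeFn_toLp] with x h1 h2
    rw [h1, h2]
    simp [mul_comm]
  have nrm : ∀ {u : E → ℝ} (hu : MemLp u 2 μ), ‖hu.toLp u‖ = √(∫ x, u x ^ 2 ∂μ) := by
    intro u hu
    have h1 := key hu hu
    rw [real_inner_self_eq_norm_sq] at h1
    have h2 : ∫ x, u x * u x ∂μ = ∫ x, u x ^ 2 ∂μ := by
      simp only [pow_two]
    rw [h2] at h1
    rw [← h1, Real.sqrt_sq (norm_nonneg _)]
  rw [← key hp hg, ← nrm hp, ← nrm hg]
  exact abs_real_inner_le_norm _ _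

/-- PROOF. For `g = sl r s x'` (support in `ball x1 (r1/2)`) the entire function `PF f g` satisfies: on
the imaginary axis, `|η| ≤ R = r1/8`: `|PF| ≤ 2 δ n2 g =: ε'` (`PF_imag`, Cauchy-Schwarz on `ball x1 (r1/2)`,
`hyp_small`); everywhere `|ζ| ≤ R`: `|PF| ≤ 2 n2 g + R² e^{√lam R} n2 (Δ g) =: M'` (`PF_bound`). (If `n2 g = 0`
then the integral is zero; or use `ε' + τ`, `τ → 0`.) `two_const`, `PF_real`. -/
theorem slice_small {G : Set E} {lam : ℝ} {f : ℕ → E → ℝ} (hl : 1 ≤ lam) (h : LFS G lam f) {x1 : E}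
    {r1 : ℝ} (hr1 : 0 < r1) (hG : ball x1 r1 ⊆ G) {δ : ℝ} (hδ : 0 < δ) (hδ1 : δ ≤ 1)
    (hs : ∫ x in ball x1 r1, f 0 x ^ 2 ≤ δ ^ 2) {g : E → ℝ} (hg : ContDiff ℝ 2 g)
    (hc : HasCompactSupport g) (hg0 : ∀ x, x ∉ ball x1 (r1 / 2) → g x = 0) {N : ℝ} (hN : 0 < N)
    (hN1 : n2 g ≤ N) (hN2 : n2 (Δ g) ≤ N) {y : ℝ} (hy : |y| ≤ r1 / 16) :
    |∫ x, Ser 1 f x y * g x| ≤
      (N * (2 + r1 ^ 2 * Real.exp (√lam * r1))) ^ ((3 : ℝ) / 4) * (2 * δ * N) ^ ((1 : ℝ) / 4) := by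
  have hl0 : 0 ≤ lam := zero_le_one.trans hl
  have hex : 0 < Real.exp (√lam * r1) := Real.exp_pos _
  have hm1 : |(-1 : ℝ)| ≤ 1 := by norm_num
  have hgc : Continuous g := hg.continuous
  have hg2 : MemLp g 2 (volume : Measure E) := hgc.memLp_of_hasCompactSupport hc
  have himag : ∀ η : ℝ, |η| ≤ r1 / 8 → ‖PF f g (η * Complex.I)‖ ≤ 2 * δ * N := by
    intro η hη
    rw [h.PF_imag hl0 hg hc η, Complex.norm_real, Real.norm_eq_abs]
    have hcont : Continuous (fun x => Ser (-1) f x η) :=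
      (h.Ser_contDiff hl0 hm1 0).continuous.comp (continuous_id.prodMk continuous_const)
    have hball : ∫ x, Ser (-1) f x η * g x = ∫ x in ball x1 (r1 / 2), Ser (-1) f x η * g x := by
      symm
      apply setIntegral_eq_integral_of_forall_compl_eq_zero
      intro x hx
      rw [hg0 x hx, mul_zero]
    have hp2 : MemLp (fun x => Ser (-1) f x η) 2 (volume.restrict (ball x1 (r1 / 2))) := by
      have h1 : MemLp (fun x => Ser (-1) f x η) 2 (volume.restrict (closedBall x1 (r1 / 2))) := by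
        obtain ⟨B, hB⟩ := (isCompact_closedBall x1 (r1 / 2)).exists_bound_of_continuousOn
          hcont.continuousOn
        have : IsFiniteMeasure (volume.restrict (closedBall x1 (r1 / 2))) :=
          ⟨by rw [Measure.restrict_apply_univ]; exact measure_closedBall_lt_top⟩
        refine MemLp.of_bound hcont.aestronglyMeasurable B ?_
        filter_upwards [ae_restrict_mem measurableSet_closedBall] with x hx
        exact hB x hx
      exact h1.mono_measure (Measure.restrict_mono ball_subset_closedBall le_rfl)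
    rw [hball]
    refine (stb_cs hp2 (hg2.restrict _)).trans ?_
    have h3 : √(∫ x in ball x1 (r1 / 2), Ser (-1) f x η ^ 2) ≤ 2 * δ := by
      rw [Real.sqrt_le_left (by linarith)]
      have := hyp_small hl h hr1 hG hη
      nlinarith
    have h4 : √(∫ x in ball x1 (r1 / 2), g x ^ 2) ≤ N := by
      refine le_trans ?_ hN1
      unfold n2
      apply Real.sqrt_le_sqrt
      apply le_of_eq
      apply setIntegral_eq_integral_of_forall_compl_eq_zero
      intro x hx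
      rw [hg0 x hx]
      norm_num
    exact mul_le_mul h3 h4 (Real.sqrt_nonneg _) (by linarith)
  have hbd : ∀ ζ : ℂ, ‖ζ‖ ≤ r1 / 8 →
      ‖PF f g ζ‖ ≤ N * (2 + r1 ^ 2 * Real.exp (√lam * r1)) := by
    intro ζ hζ
    have h1 := h.PF_bound hl0 hg hc ζ
    have h2 : ‖ζ‖ ≤ r1 := by linarith
    have h3 : ‖ζ‖ ^ 2 ≤ r1 ^ 2 := pow_le_pow_left₀ (norm_nonneg _) h2 2
    have h4 : Real.exp (√lam * ‖ζ‖) ≤ Real.exp (√lam * r1) :=
      Real.exp_le_exp.mpr (mul_le_mul_of_nonneg_left h2 (Real.sqrt_nonneg _))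
    have h5 : ‖ζ‖ ^ 2 * Real.exp (√lam * ‖ζ‖) ≤ r1 ^ 2 * Real.exp (√lam * r1) :=
      mul_le_mul h3 h4 (Real.exp_pos _).le (by positivity)
    have h6 : ‖ζ‖ ^ 2 * Real.exp (√lam * ‖ζ‖) * n2 (Δ g) ≤
        r1 ^ 2 * Real.exp (√lam * r1) * N :=
      mul_le_mul h5 hN2 (Real.sqrt_nonneg _) (by positivity)
    nlinarith
  have hle : 2 * δ * N ≤ N * (2 + r1 ^ 2 * Real.exp (√lam * r1)) := by
    have h1 : δ * N ≤ 1 * N := mul_le_mul_of_nonneg_right hδ1 hN.le
    have h2 : 0 < N * (r1 ^ 2 * Real.exp (√lam * r1)) := by positivity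
    nlinarith
  have hmain := two_const (h.PF_diff hl0 hg hc) (R := r1 / 8) (by linarith) (by positivity) hle
    himag hbd (y := y) (by linarith)
  rw [h.PF_real hl0 hg hc y, Complex.norm_real, Real.norm_eq_abs] at hmain
  exact hmain

end

end Pool.Agent.Lib.MP_79abb3_an.WG
end

section

/-!
Theorem W, block G: the a priori bound of the harmonic extension.
-/

set_option autoImplicit false
set_option linter.unusedSectionVars false

open MeasureTheory Set Filter Topology Metric Laplacian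
open scoped ContDiff InnerProductSpace

namespace Pool.Agent.Lib.MP_79abb3_an.WG

section
variable {E : Type} [NormedAddCommGroup E] [InnerProductSpace ℝ E] [FiniteDimensional ℝ E]
  [MeasurableSpace E] [BorelSpace E]

variable (E) in
/-- A PRIORI BOUND, `p = dim + 2`. PROOF. `z = (x', y')`, `r = t/2000`: the ball of radius `r` around `z` is in
`ball (pt x 0) t`, whose points have first component in `ball x t ⊆ G`, so `UU f` is harmonic there
(`UU_harm`). `mean_slice` with `u = Ser 1 f`: `|UU f z| ∫ bw 4 ≤ 2 sup_{|s| ≤ 1} |∫ Ser 1 f x (y' + r s) sl r s x' x dx|`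
and by `PF_real`, `PF_bound` each integral is at most `n2 (sl) + t² e^{√lam t} n2 (Δ sl)` (`|y' + r s| ≤ t`;
`PF_bound` is increasing in `‖ζ‖`); `sl_norms`, `t ≤ 1`, `1 ≤ e^{√lam t}`. -/
theorem U_bound : ∃ C : ℝ, 1 ≤ C ∧ ∀ (G : Set E) (lam : ℝ) (f : ℕ → E → ℝ), 1 ≤ lam →
    LFS G lam f → ∀ (x : E) (t : ℝ), 0 < t → t ≤ 1 → ball x t ⊆ G →
    ∀ z ∈ ball (pt x 0) (999 / 1000 * t),
      |UU f z| ≤ C * (t⁻¹) ^ (Module.finrank ℝ E + 2) * Real.exp (√lam * t) := by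
  obtain ⟨C0, hC0, hsl⟩ := sl_norms E
  set I0 : ℝ := ∫ z : WithLp 2 (E × ℝ), bw 4 z with hI0
  have hI0pos : 0 < I0 := bw_integral_pos (by norm_num)
  refine ⟨max 1 (4 * C0 * 2000 ^ (Module.finrank ℝ E + 2) / I0), le_max_left _ _, ?_⟩
  intro G lam f hlam h x t ht ht1 hG z hz
  have hl : 0 ≤ lam := zero_le_one.trans hlam
  have hr : 0 < t / 2000 := by positivity
  have hr1 : t / 2000 ≤ 1 := by linarith
  have hfst : ∀ w w' : WithLp 2 (E × ℝ), dist w.fst w'.fst ≤ dist w w' := by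
    intro w w'
    rw [dist_eq_norm, dist_eq_norm]
    exact WithLp.norm_fst_le _ (w - w')
  have hsnd : ∀ w w' : WithLp 2 (E × ℝ), dist w.snd w'.snd ≤ dist w w' := by
    intro w w'
    rw [dist_eq_norm, dist_eq_norm]
    exact WithLp.norm_snd_le _ (w - w')
  have hzpt : pt z.fst z.snd = z := rfl
  have hharm : ∀ w ∈ ball (pt z.fst z.snd) (t / 2000),
      Δ (fun z : WithLp 2 (E × ℝ) => Ser 1 f z.fst z.snd) w = 0 := by
    intro w hw
    rw [hzpt, mem_ball] at hw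
    rw [mem_ball] at hz
    have h1 : dist w.fst x < t := by
      have h2 : dist w.fst (pt x 0).fst ≤ dist w (pt x 0) := hfst w (pt x 0)
      have h3 : dist w (pt x 0) ≤ dist w z + dist z (pt x 0) := dist_triangle _ _ _
      have h4 : (pt x 0).fst = x := rfl
      rw [h4] at h2
      linarith
    exact h.UU_harm hl (hG (mem_ball.mpr h1))
  have hmean := mean_slice (h.Ser_contDiff hl (σ := 1) (by norm_num) 2) hharm hr le_rfl
  have hy : |z.snd| < 999 / 1000 * t := by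
    rw [mem_ball] at hz
    have h2 : dist z.snd (pt x 0).snd ≤ dist z (pt x 0) := hsnd z (pt x 0)
    have h4 : (pt x 0).snd = 0 := rfl
    rw [h4, Real.dist_eq, sub_zero] at h2
    linarith
  set r : ℝ := t / 2000 with hrdef
  set P : ℝ := (r⁻¹) ^ (Module.finrank ℝ E + 2) with hP
  have hPpos : 0 < P := by positivity
  have hexp1 : 1 ≤ Real.exp (√lam * t) := Real.one_le_exp (by positivity)
  have hbound : ∀ s ∈ Set.uIoc (-1 : ℝ) 1,
      ‖∫ x, Ser 1 f x (z.snd + r * s) * sl r s z.fst x‖ ≤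
        2 * (C0 * P) * Real.exp (√lam * t) := by
    intro s hs
    rw [Set.uIoc_of_le (by norm_num)] at hs
    have hs1 : |s| ≤ 1 := abs_le.mpr ⟨hs.1.le, hs.2⟩
    obtain ⟨n1, n3⟩ := hsl r s z.fst hr hr1
    have hys : |z.snd + r * s| ≤ t := by
      have h1 := abs_add_le z.snd (r * s)
      have h2 : |r * s| ≤ r := by
        rw [abs_mul, abs_of_pos hr]
        exact mul_le_of_le_one_right hr.le hs1
      have h3 : r = t / 2000 := hrdef
      linarith
    have hpf := h.PF_bound hl (sl_contDiff r s z.fst) (sl_cpt hr s z.fst)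
      ((z.snd + r * s : ℝ) : ℂ)
    rw [h.PF_real hl (sl_contDiff r s z.fst) (sl_cpt hr s z.fst), Complex.norm_real,
      Complex.norm_real, Real.norm_eq_abs (z.snd + r * s)] at hpf
    refine hpf.trans ?_
    have k1 : |z.snd + r * s| ^ 2 ≤ 1 :=
      pow_le_one₀ (abs_nonneg _) (hys.trans ht1)
    have k2 : Real.exp (√lam * |z.snd + r * s|) ≤ Real.exp (√lam * t) :=
      Real.exp_le_exp.mpr (mul_le_mul_of_nonneg_left hys (Real.sqrt_nonneg _))
    have k3 : |z.snd + r * s| ^ 2 * Real.exp (√lam * |z.snd + r * s|) ≤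
        Real.exp (√lam * t) := by
      calc |z.snd + r * s| ^ 2 * Real.exp (√lam * |z.snd + r * s|)
          ≤ 1 * Real.exp (√lam * t) :=
            mul_le_mul k1 k2 (Real.exp_pos _).le zero_le_one
        _ = _ := one_mul _
    have k4 : |z.snd + r * s| ^ 2 * Real.exp (√lam * |z.snd + r * s|) *
        n2 (Δ (sl r s z.fst : E → ℝ)) ≤ Real.exp (√lam * t) * (C0 * P) :=
      mul_le_mul k3 n3 (Real.sqrt_nonneg _) (Real.exp_pos _).le
    have k5 : n2 (sl r s z.fst : E → ℝ) ≤ (C0 * P) * Real.exp (√lam * t) :=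
      n1.trans (le_mul_of_one_le_right (by positivity) hexp1)
    linarith
  have hint := intervalIntegral.norm_integral_le_of_norm_le_const hbound
  rw [← hmean, norm_mul, Real.norm_eq_abs, Real.norm_eq_abs, abs_of_pos hI0pos] at hint
  have hU : |UU f z| * I0 ≤ 4 * C0 * P * Real.exp (√lam * t) := by
    have e1 : UU f z = Ser 1 f z.fst z.snd := rfl
    have e2 : |(1 : ℝ) - -1| = 2 := by norm_num
    rw [e2] at hint
    rw [e1]
    linarith
  have hPe : P = 2000 ^ (Module.finrank ℝ E + 2) * (t⁻¹) ^ (Module.finrank ℝ E + 2) := by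
    rw [hP, ← mul_pow, hrdef]
    congr 1
    field_simp
  have h3 : |UU f z| ≤ 4 * C0 * 2000 ^ (Module.finrank ℝ E + 2) / I0 *
      (t⁻¹) ^ (Module.finrank ℝ E + 2) * Real.exp (√lam * t) := by
    rw [hPe] at hU
    have h4 : 4 * C0 * 2000 ^ (Module.finrank ℝ E + 2) / I0 *
      (t⁻¹) ^ (Module.finrank ℝ E + 2) * Real.exp (√lam * t) =
      (4 * C0 * (2000 ^ (Module.finrank ℝ E + 2) * (t⁻¹) ^ (Module.finrank ℝ E + 2)) *
        Real.exp (√lam * t)) / I0 := by ring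
    rw [h4, le_div_iff₀ hI0pos]
    exact hU
  refine h3.trans ?_
  gcongr
  exact le_max_right _ _

end

end Pool.Agent.Lib.MP_79abb3_an.WG
end

section

/-!
Theorem W, block G: one step of the propagation at a fixed centre.
-/

set_option autoImplicit false
set_option linter.unusedSectionVars false
set_option linter.unusedVariables false

open MeasureTheory Set Filter Topology Metric Laplacian
open scoped ContDiff InnerProductSpace

namespace Pool.Agent.Lib.MP_79abb3_an.WG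

section
variable {E : Type} [NormedAddCommGroup E] [InnerProductSpace ℝ E] [FiniteDimensional ℝ E]
  [MeasurableSpace E] [BorelSpace E] {D Z : Set E}

/-- ONE STEP at a fixed centre, uniform in the centre. PROOF. `t₀ = (5/4) r ≤ (999/1000) t`; for
`ε ≤ t/1000` the function `UU f` is harmonic on `ball (pt x 0) (999/1000 t) ⊇ ball (pt x 0) t₀` (`ball_er`, `UU_harm`;
the first component of a point of `ball (pt x 0) s` is in `ball x s`). `three_balls` with `t₀`: `A = C e^{C√lam} δ^θ` on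
`ball (4/5 t₀) = ball r`, `B` from `U_bound` (for `t' = (999/1000) t`, on `ball (999/1000 t') ⊇ ball (999/1000 t₀)`,
`B = C₂ e^{C₂ √lam}` with `C₂` depending on `t`); new radius `(901/1000)(5/4) r = (901/800) r`. -/
theorem small_step (hD : (Dᶜ).Nonempty) {t r θ C ε₀ : ℝ} (ht : 0 < t) (ht1 : t ≤ 1)
    (hr : 0 < r) (hr2 : 5 / 4 * r ≤ 999 / 1000 * t) (hθ : 0 < θ) (hC : 1 ≤ C) (hε : 0 < ε₀) :
    ∃ C' ε', 1 ≤ C' ∧ 0 < ε' ∧ ∀ x : E, ball x t ⊆ D → Small D Z x r θ C ε₀ →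
      Small D Z x (901 / 800 * r) (4 / 9 * θ) C' ε' := by
  obtain ⟨C₃, hC₃, h3⟩ := three_balls (WithLp 2 (E × ℝ))
  obtain ⟨C₂, hC₂, h2⟩ := U_bound E
  set t' : ℝ := 999 / 1000 * t with ht'
  have ht'0 : 0 < t' := by positivity
  have ht'1 : t' ≤ 1 := by linarith
  set K : ℝ := C₂ * (t'⁻¹) ^ (Module.finrank ℝ E + 2) with hK
  have hK1 : 1 ≤ K := by
    have h4 : 1 ≤ (t'⁻¹) ^ (Module.finrank ℝ E + 2) := one_le_pow₀ ((one_le_inv₀ ht'0).2 ht'1)
    nlinarith
  have hK0 : 0 ≤ K := by linarith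
  have hC0 : 0 ≤ C := by linarith
  have hC30 : 0 ≤ C₃ := by linarith
  refine ⟨C₃ * C * K + (C + 1), min ε₀ (t / 1000), by nlinarith [mul_nonneg (mul_nonneg hC30 hC0) hK0],
    lt_min hε (by positivity), ?_⟩
  intro x hx hS ε hε1 hε2 lam hlam f hf δ hδ hδ1 hint z hz
  have hlam0 : 0 ≤ lam := by linarith
  have hball : ball x t' ⊆ er D ε := by
    refine ball_er hD hx ?_
    have := hε2.trans (min_le_right _ _)
    rw [ht']
    linarith
  have hfst : ∀ (s : ℝ) (w : WithLp 2 (E × ℝ)), w ∈ ball (pt x 0) s → w.fst ∈ ball x s := by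
    intro s w hw
    rw [mem_ball] at hw ⊢
    exact (WithLp.dist_fst_le w (pt x 0)).trans_lt hw
  have hharm : ∀ w ∈ ball (pt x (0:ℝ)) (5 / 4 * r), Δ (UU f) w = 0 := fun w hw =>
    hf.UU_harm hlam0 (hball (hfst t' w (ball_subset_ball hr2 hw)))
  set A : ℝ := C * Real.exp (C * √lam) * δ ^ θ with hA
  set B : ℝ := K * Real.exp (√lam * t') with hB
  have hA0 : 0 ≤ A := by positivity
  have hB0 : 0 ≤ B := by positivity
  have hAb : ∀ w ∈ ball (pt x (0:ℝ)) (4 / 5 * (5 / 4 * r)), |UU f w| ≤ A := by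
    intro w hw
    rw [show (4 : ℝ) / 5 * (5 / 4 * r) = r by ring] at hw
    exact hS ε hε1 (hε2.trans (min_le_left _ _)) lam hlam f hf δ hδ hδ1 hint w hw
  have hBb : ∀ w ∈ ball (pt x (0:ℝ)) (999 / 1000 * (5 / 4 * r)), |UU f w| ≤ B := by
    intro w hw
    exact h2 (er D ε) lam f hlam hf x t' ht'0 ht'1 hball w
      (ball_subset_ball (by nlinarith) hw)
  have hz' : z ∈ ball (pt x (0:ℝ)) (901 / 1000 * (5 / 4 * r)) := by
    rw [show (901 : ℝ) / 1000 * (5 / 4 * r) = 901 / 800 * r by ring]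
    exact hz
  have key := h3 (UU f) (hf.UU_contDiff hlam0 2) (pt x 0) (5 / 4 * r) A B (by positivity) hharm
    hA0 hB0 hAb hBb z hz'
  refine key.trans ?_
  have hs0 : 0 ≤ √lam := Real.sqrt_nonneg _
  -- the first factor
  have hA1 : A ^ ((4 : ℝ) / 9) ≤ C * Real.exp (C * √lam) * δ ^ (4 / 9 * θ) := by
    have h4 : 1 ≤ C * Real.exp (C * √lam) := by
      have : 1 ≤ Real.exp (C * √lam) := Real.one_le_exp (by positivity)
      nlinarith
    rw [hA, Real.mul_rpow (by positivity) (Real.rpow_nonneg hδ.le _), ← Real.rpow_mul hδ.le,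
      mul_comm θ]
    refine mul_le_mul_of_nonneg_right ?_ (Real.rpow_nonneg hδ.le _)
    calc (C * Real.exp (C * √lam)) ^ ((4 : ℝ) / 9) ≤ (C * Real.exp (C * √lam)) ^ (1 : ℝ) :=
          Real.rpow_le_rpow_of_exponent_le h4 (by norm_num)
      _ = _ := Real.rpow_one _
  have hB1 : B ^ ((5 : ℝ) / 9) ≤ K * Real.exp √lam := by
    have h4 : 1 ≤ K * Real.exp √lam := by
      have : 1 ≤ Real.exp √lam := Real.one_le_exp hs0
      nlinarith
    have h5 : B ≤ K * Real.exp √lam := by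
      refine mul_le_mul_of_nonneg_left (Real.exp_le_exp.2 ?_) hK0
      nlinarith
    calc B ^ ((5 : ℝ) / 9) ≤ (K * Real.exp √lam) ^ ((5 : ℝ) / 9) :=
          Real.rpow_le_rpow hB0 h5 (by norm_num)
      _ ≤ (K * Real.exp √lam) ^ (1 : ℝ) := Real.rpow_le_rpow_of_exponent_le h4 (by norm_num)
      _ = _ := Real.rpow_one _
  have hδ0 : 0 ≤ δ ^ (4 / 9 * θ) := Real.rpow_nonneg hδ.le _
  calc C₃ * A ^ ((4 : ℝ) / 9) * B ^ ((5 : ℝ) / 9)
      ≤ C₃ * (C * Real.exp (C * √lam) * δ ^ (4 / 9 * θ)) * (K * Real.exp √lam) := by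
        refine mul_le_mul (mul_le_mul_of_nonneg_left hA1 hC30) hB1 (Real.rpow_nonneg hB0 _) ?_
        positivity
    _ = C₃ * C * K * Real.exp ((C + 1) * √lam) * δ ^ (4 / 9 * θ) := by
        rw [show (C + 1) * √lam = C * √lam + √lam by ring, Real.exp_add]
        ring
    _ ≤ (C₃ * C * K + (C + 1)) * Real.exp ((C₃ * C * K + (C + 1)) * √lam) * δ ^ (4 / 9 * θ) := by
        have h6 : 0 ≤ C₃ * C * K := by positivity
        refine mul_le_mul_of_nonneg_right ?_ hδ0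
        refine mul_le_mul (by linarith) (Real.exp_le_exp.2 ?_) (Real.exp_pos _).le (by linarith)
        exact mul_le_mul_of_nonneg_right (by linarith) hs0

end

end Pool.Agent.Lib.MP_79abb3_an.WG
end

section

/-!
Theorem W, block G: one step of the geometric chain of balls towards the wall.
-/

set_option autoImplicit false
set_option linter.unusedSectionVars false
set_option linter.unusedVariables false

open MeasureTheory Set Filter Topology Metric Laplacian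
open scoped ContDiff InnerProductSpace

namespace Pool.Agent.Lib.MP_79abb3_an.WG

/-- The numerical part of one step: `T` is a power of `1/t`, `e = exp (√lam t)`. -/
theorem chainA_num {C C₁ δ T e : ℝ} (p : ℕ) (hp : 2 ≤ p) (hC : 1 ≤ C) (hC₁ : 1 ≤ C₁) (hδ : 0 < δ)
    (hT : 0 < T) (he : 1 ≤ e) :
    C * (δ * (C ^ 2 * C₁ * T * e ^ 10)) ^ ((4 : ℝ) / 9) *
      (C₁ * ((1000 / 999) ^ p * T) * e) ^ ((5 : ℝ) / 9) ≤
      δ ^ ((4 : ℝ) / 9) * (C ^ 2 * C₁ * (2 ^ p * T) * e ^ 5) := by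
  have hC0 : 0 < C := by linarith
  have hC₁0 : 0 < C₁ := by linarith
  have he0 : 0 < e := by linarith
  have hpow : ∀ (x y : ℝ), 0 ≤ x → (x ^ y) ^ 9 = x ^ (y * 9) := by
    intro x y hx
    rw [← Real.rpow_natCast, ← Real.rpow_mul hx]
    norm_num
  have h4 : (4 : ℝ) / 9 * 9 = (4 : ℕ) := by norm_num
  have h5 : (5 : ℝ) / 9 * 9 = (5 : ℕ) := by norm_num
  refine (pow_le_pow_iff_left₀ (by positivity) (by positivity) (by norm_num : (9 : ℕ) ≠ 0)).1 ?_
  have ha : 0 ≤ δ * (C ^ 2 * C₁ * T * e ^ 10) := by positivity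
  have hb : 0 ≤ C₁ * ((1000 / 999) ^ p * T) * e := by positivity
  rw [mul_pow, mul_pow, mul_pow (δ ^ ((4 : ℝ) / 9)), hpow _ _ ha, hpow _ _ hb, hpow _ _ hδ.le, h4, h5,
    Real.rpow_natCast, Real.rpow_natCast, Real.rpow_natCast]
  have e1 : C ^ 9 * (δ * (C ^ 2 * C₁ * T * e ^ 10)) ^ 4 * (C₁ * ((1000 / 999) ^ p * T) * e) ^ 5 =
      (C ^ 17 * C₁ ^ 9 * δ ^ 4 * T ^ 9 * e ^ 45) * (((1000 / 999) ^ 5) ^ p) := by
    rw [← pow_mul, mul_comm 5 p, pow_mul]
    ring
  have e2 : δ ^ 4 * (C ^ 2 * C₁ * (2 ^ p * T) * e ^ 5) ^ 9 =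
      (C ^ 18 * C₁ ^ 9 * δ ^ 4 * T ^ 9 * e ^ 45) * ((2 ^ 9) ^ p) := by
    rw [← pow_mul (2 : ℝ) 9 p, mul_comm 9 p, pow_mul]
    ring
  rw [e1, e2]
  have h6 : ((1000 / 999 : ℝ) ^ 5) ^ p ≤ (2 ^ 9) ^ p :=
    pow_le_pow_left₀ (by positivity) (by norm_num) p
  have h7 : C ^ 17 ≤ C ^ 18 := pow_le_pow_right₀ hC (by norm_num)
  gcongr

section
variable {E : Type} [NormedAddCommGroup E] [InnerProductSpace ℝ E] [FiniteDimensional ℝ E]
  [MeasurableSpace E] [BorelSpace E]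

theorem chainA_dist (x x₁ : E) (z : WithLp 2 (E × ℝ)) {t : ℝ} (h : dist x₁ x ≤ t / 2) (ht : 0 < t)
    (hz : z ∈ ball (pt x₁ 0) (3996 / 5000 * (t / 2))) : z ∈ ball (pt x 0) (901 / 1000 * (999 / 1000 * t)) := by
  rw [mem_ball] at hz ⊢
  have h1 : dist (pt x₁ 0) (pt x 0) = dist x₁ x := by
    rw [WithLp.prod_dist_eq_of_L2]
    simp [pt]
  have h2 := dist_triangle z (pt x₁ 0) (pt x 0)
  rw [h1] at h2
  linarith

variable (E) in
/-- ONE STEP of the chain, `p = dim + 2`. PROOF. `t' = (999/1000) t`: `UU f` is harmonic on `ball (pt x 0) t'`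
(`ball_er`, `ε ≤ t/1000`). `three_balls` with `t'`: `A = min a b`, `B = b`, `b = C₁ t'^{-p} e^{√lam t'}` (`U_bound`), so
`|UU f| ≤ C a^{4/9} b^{5/9}` on `ball (pt x 0) (901/1000 t')`, which contains `ball (pt x₁ 0) (4/5 (t'/2))` because
`dist x₁ x ≤ t/2` and `t/2 + (2/5)(999/1000) t = 0.8996 t < 0.900099 t = (901/1000)(999/1000) t`.
Insert `a = δ H t^{-p} e^{10 √lam t}`: `C (δ H t^{-p} e^{10√lam t})^{4/9} (C₁ (1000/999)^p t^{-p} e^{√lam t})^{5/9}
≤ δ^{4/9} H t^{-p} e^{5 √lam t} ≤ δ^{4/9} H (t/2)^{-p} e^{10 √lam (t/2)}` if `H^{5/9} ≥ C C₁^{5/9} (1000/999)^{5p/9}`,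
e.g. `H = C² C₁ 2^p`. -/
theorem chain_step : ∃ H : ℝ, 1 ≤ H ∧ ∀ (D : Set E), (Dᶜ).Nonempty → ∀ (ε lam : ℝ) (f : ℕ → E → ℝ),
    0 < ε → 1 ≤ lam → LFS (er D ε) lam f → ∀ (x x₁ : E) (t δ : ℝ), 0 < t → t ≤ 1 → ε ≤ t / 1000 →
    ball x t ⊆ D → dist x₁ x ≤ t / 2 → 0 < δ →
    (∀ z ∈ ball (pt x 0) (3996 / 5000 * t),
      |UU f z| ≤ δ * (H * (t⁻¹) ^ (Module.finrank ℝ E + 2) * Real.exp (10 * √lam * t))) →
    ∀ z ∈ ball (pt x₁ 0) (3996 / 5000 * (t / 2)),
      |UU f z| ≤ δ ^ ((4 : ℝ) / 9) * (H * ((t / 2)⁻¹) ^ (Module.finrank ℝ E + 2) *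
        Real.exp (10 * √lam * (t / 2))) := by
  obtain ⟨C, hC, h3⟩ := three_balls (WithLp 2 (E × ℝ))
  obtain ⟨C₁, hC₁, hU⟩ := U_bound E
  have hH : 1 ≤ C ^ 2 * C₁ := by nlinarith [one_le_pow₀ hC (n := 2)]
  refine ⟨C ^ 2 * C₁, hH, ?_⟩
  intro D hD ε lam f hε hlam hf x x₁ t δ ht ht1 hεt hball hd hδ hyp z hz
  set p := Module.finrank ℝ E + 2 with hp
  have hl0 : 0 ≤ lam := by linarith
  have ht' : 0 < 999 / 1000 * t := by positivity
  have hball' : ball x (999 / 1000 * t) ⊆ er D ε := ball_er hD hball (by linarith)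
  have hharm : ∀ z ∈ ball (pt x 0) (999 / 1000 * t), Δ (UU f) z = 0 := by
    intro z hz
    refine hf.UU_harm hl0 (hball' ?_)
    rw [mem_ball] at hz ⊢
    refine lt_of_le_of_lt ?_ hz
    rw [WithLp.prod_dist_eq_of_L2]
    refine Real.le_sqrt_of_sq_le ?_
    exact le_add_of_nonneg_right (sq_nonneg _)
  have hT : 0 < (t⁻¹) ^ p := by positivity
  have he : 1 ≤ Real.exp (√lam * t) := Real.one_le_exp (by positivity)
  have hUb : ∀ z ∈ ball (pt x 0) (999 / 1000 * (999 / 1000 * t)),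
      |UU f z| ≤ C₁ * ((1000 / 999) ^ p * (t⁻¹) ^ p) * Real.exp (√lam * t) := by
    intro z hz
    refine (hU (er D ε) lam f hlam hf x (999 / 1000 * t) ht' (by linarith) hball' z hz).trans ?_
    have e1 : ((999 / 1000 * t)⁻¹) ^ p = (1000 / 999) ^ p * (t⁻¹) ^ p := by
      rw [← mul_pow, mul_inv]
      norm_num
    rw [e1]
    have e2 : Real.exp (√lam * (999 / 1000 * t)) ≤ Real.exp (√lam * t) := by
      refine Real.exp_le_exp.2 (mul_le_mul_of_nonneg_left ?_ (Real.sqrt_nonneg _))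
      linarith
    gcongr
  have he10 : Real.exp (10 * √lam * t) = Real.exp (√lam * t) ^ 10 := by
    rw [← Real.exp_nat_mul]
    congr 1
    push_cast
    ring
  have he5 : Real.exp (10 * √lam * (t / 2)) = Real.exp (√lam * t) ^ 5 := by
    rw [← Real.exp_nat_mul]
    congr 1
    push_cast
    ring
  have hA : ∀ z ∈ ball (pt x 0) (4 / 5 * (999 / 1000 * t)),
      |UU f z| ≤ δ * (C ^ 2 * C₁ * (t⁻¹) ^ p * Real.exp (√lam * t) ^ 10) := by
    intro z hz
    rw [← he10]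
    refine hyp z ?_
    have : 4 / 5 * (999 / 1000 * t) = 3996 / 5000 * t := by ring
    rwa [this] at hz
  have key := h3 (UU f) (hf.UU_contDiff hl0 2) (pt x 0) (999 / 1000 * t) _ _ ht' hharm
    (by positivity) (by positivity) hA hUb z (chainA_dist x x₁ z hd ht hz)
  refine key.trans ((chainA_num p (by omega) hC hC₁ hδ hT he).trans ?_)
  rw [he5]
  have e3 : ((t / 2)⁻¹) ^ p = 2 ^ p * (t⁻¹) ^ p := by
    rw [← mul_pow]
    congr 1
    rw [inv_div]
    ring
  rw [e3]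

end

end Pool.Agent.Lib.MP_79abb3_an.WG
end

section

/-!
Theorem W, block G: propagation at a fixed centre.
-/

set_option autoImplicit false
set_option linter.unusedSectionVars false
set_option linter.unusedVariables false

open MeasureTheory Set Filter Topology Metric Laplacian
open scoped ContDiff InnerProductSpace

namespace Pool.Agent.Lib.MP_79abb3_an.WG

section
variable {E : Type} [NormedAddCommGroup E] [InnerProductSpace ℝ E] [FiniteDimensional ℝ E]
  [MeasurableSpace E] [BorelSpace E] {D Z : Set E}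

/-- PROOF: iterate `small_step` (`(901/800)^n r → ∞`) until the radius is at least
`(3996/5000) t = (4/5)(999/1000) t`; the constants do not depend on `x`. -/
theorem small_grow (hD : (Dᶜ).Nonempty) {t r θ C ε₀ : ℝ} (ht : 0 < t) (ht1 : t ≤ 1)
    (hr : 0 < r) (hθ : 0 < θ) (hC : 1 ≤ C) (hε : 0 < ε₀) :
    ∃ θ' C' ε', 0 < θ' ∧ 1 ≤ C' ∧ 0 < ε' ∧ ∀ x : E, ball x t ⊆ D → Small D Z x r θ C ε₀ →
      Small D Z x (3996 / 5000 * t) θ' C' ε' := by
  have key : ∀ n : ℕ, ∃ θ' C' ε', 0 < θ' ∧ 1 ≤ C' ∧ 0 < ε' ∧ ∀ x : E, ball x t ⊆ D →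
      Small D Z x r θ C ε₀ → Small D Z x (min ((901 / 800) ^ n * r) (3996 / 5000 * t)) θ' C' ε' := by
    intro n
    induction n with
    | zero =>
      refine ⟨θ, C, ε₀, hθ, hC, hε, fun x hx hS => hS.mono (ball_subset_ball ?_) le_rfl (by linarith)
        le_rfl le_rfl⟩
      rw [pow_zero, one_mul]
      exact min_le_left _ _
    | succ n ih =>
      obtain ⟨θ', C', ε', h1, h2, h3, h4⟩ := ih
      have hpow : 0 < (901 / 800 : ℝ) ^ n * r := by positivity
      rcases le_or_gt (3996 / 5000 * t) ((901 / 800 : ℝ) ^ n * r) with hc | hc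
      · refine ⟨θ', C', ε', h1, h2, h3, fun x hx hS => (h4 x hx hS).mono (ball_subset_ball ?_) le_rfl
          (by linarith) le_rfl le_rfl⟩
        rw [min_eq_right hc]
        exact min_le_right _ _
      · obtain ⟨C'', ε'', g1, g2, g3⟩ := small_step (Z := Z) hD ht ht1 hpow (by linarith) h1 h2 h3
        refine ⟨4 / 9 * θ', C'', ε'', by positivity, g1, g2, fun x hx hS => ?_⟩
        have h5 := h4 x hx hS
        rw [min_eq_left hc.le] at h5
        refine (g3 x hx h5).mono (ball_subset_ball ?_) le_rfl (by linarith) le_rfl le_rfl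
        refine (min_le_left _ _).trans (le_of_eq ?_)
        rw [pow_succ]
        ring
  obtain ⟨n, hn⟩ := pow_unbounded_of_one_lt (3996 / 5000 * t / r) (show (1 : ℝ) < 901 / 800 by norm_num)
  obtain ⟨θ', C', ε', h1, h2, h3, h4⟩ := key n
  refine ⟨θ', C', ε', h1, h2, h3, fun x hx hS => ?_⟩
  have h5 := h4 x hx hS
  have h6 : 3996 / 5000 * t ≤ (901 / 800 : ℝ) ^ n * r := by
    rw [div_lt_iff₀ hr] at hn
    exact hn.le
  rwa [min_eq_right h6] at h5

end

end Pool.Agent.Lib.MP_79abb3_an.WG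
end

section

/-!
Theorem W, block G: the geometric chain of balls towards the wall.
-/

set_option autoImplicit false
set_option linter.unusedSectionVars false
set_option linter.unusedVariables false

open MeasureTheory Set Filter Topology Metric Laplacian
open scoped ContDiff InnerProductSpace

namespace Pool.Agent.Lib.MP_79abb3_an.WG

section
variable {E : Type} [NormedAddCommGroup E] [InnerProductSpace ℝ E] [FiniteDimensional ℝ E]
  [MeasurableSpace E] [BorelSpace E]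

variable (E) in
/-- THE CHAIN. PROOF: induction on `K` with `chain_step` (same `H`); at the start `δ ≤ δ (H t0^{-p} e^{..})`. -/
theorem chain : ∃ H : ℝ, 1 ≤ H ∧ ∀ (D : Set E), (Dᶜ).Nonempty → ∀ (ε lam : ℝ) (f : ℕ → E → ℝ),
    0 < ε → 1 ≤ lam → LFS (er D ε) lam f → ∀ (K : ℕ) (x : ℕ → E) (t0 δ : ℝ), 0 < t0 → t0 ≤ 1 →
    ε ≤ t0 / 2 ^ K / 1000 → (∀ k ≤ K, ball (x k) (t0 / 2 ^ k) ⊆ D) →
    (∀ k < K, dist (x (k + 1)) (x k) ≤ t0 / 2 ^ (k + 1)) → 0 < δ → δ ≤ 1 →
    (∀ z ∈ ball (pt (x 0) 0) (3996 / 5000 * t0), |UU f z| ≤ δ) →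
    ∀ z ∈ ball (pt (x K) 0) (3996 / 5000 * (t0 / 2 ^ K)),
      |UU f z| ≤ δ ^ (((4 : ℝ) / 9) ^ K) * (H * ((t0 / 2 ^ K)⁻¹) ^ (Module.finrank ℝ E + 2) *
        Real.exp (10 * √lam * (t0 / 2 ^ K))) := by
  obtain ⟨H, hH, step⟩ := chain_step E
  refine ⟨H, hH, ?_⟩
  intro D hD ε lam f hε hlam hf K
  induction K with
  | zero =>
    intro x t0 δ ht ht1 hεt hb hd hδ hδ1 h0 z hz
    simp only [pow_zero, div_one, Real.rpow_one] at hz ⊢
    refine (h0 z hz).trans ?_
    have h1 : 1 ≤ (t0⁻¹) ^ (Module.finrank ℝ E + 2) :=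
      one_le_pow₀ ((one_le_inv₀ ht).2 ht1)
    have h2 : 1 ≤ Real.exp (10 * √lam * t0) := Real.one_le_exp (by positivity)
    have h3 : 1 ≤ H * (t0⁻¹) ^ (Module.finrank ℝ E + 2) * Real.exp (10 * √lam * t0) :=
      one_le_mul_of_one_le_of_one_le (one_le_mul_of_one_le_of_one_le hH h1) h2
    calc δ = δ * 1 := (mul_one _).symm
      _ ≤ _ := mul_le_mul_of_nonneg_left h3 hδ.le
  | succ K ih =>
    intro x t0 δ ht ht1 hεt hb hd hδ hδ1 h0 z hz
    have hpow : t0 / 2 ^ (K + 1) = t0 / 2 ^ K / 2 := by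
      rw [pow_succ]
      field_simp
    have htK : 0 < t0 / 2 ^ K := by positivity
    have htK1 : t0 / 2 ^ K ≤ 1 := (div_le_self ht.le (one_le_pow₀ (by norm_num))).trans ht1
    rw [hpow] at hεt hz ⊢
    have h1 := ih x t0 δ ht ht1 (by linarith) (fun k hk => hb k (by omega))
      (fun k hk => hd k (by omega)) hδ hδ1 h0
    have h2 := hd K (by omega)
    rw [hpow] at h2
    have h3 := step D hD ε lam f hε hlam hf (x K) (x (K + 1)) (t0 / 2 ^ K) (δ ^ (((4 : ℝ) / 9) ^ K))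
      htK htK1 (by linarith) (hb K (by omega)) h2 (Real.rpow_pos_of_pos hδ _) h1 z hz
    rwa [← Real.rpow_mul hδ.le, ← pow_succ] at h3

end

end Pool.Agent.Lib.MP_79abb3_an.WG
end

section

/-!
Theorem W, block G: smallness of `f_0` in `L²(ball x1 r1)` gives smallness of the harmonic extension.
-/

set_option autoImplicit false
set_option linter.unusedSectionVars false
set_option linter.unusedVariables false

open MeasureTheory Set Filter Topology Metric Laplacian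
open scoped ContDiff InnerProductSpace

namespace Pool.Agent.Lib.MP_79abb3_an.WG

section
variable {E : Type} [NormedAddCommGroup E] [InnerProductSpace ℝ E] [FiniteDimensional ℝ E]
  [MeasurableSpace E] [BorelSpace E]

private theorem start_arith {N L r1 δ : ℝ} (hN : 1 ≤ N) (hr1 : 0 < r1) (hr2 : r1 ≤ 1) (hL : 0 ≤ L)
    (hδ : 0 < δ) : (N * (2 + r1 ^ 2 * Real.exp (L * r1))) ^ ((3 : ℝ) / 4) *
      (2 * δ * N) ^ ((1 : ℝ) / 4) ≤ 6 * N ^ 2 * Real.exp L * δ ^ ((1 : ℝ) / 4) := by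
  have hE : 1 ≤ Real.exp L := Real.one_le_exp hL
  have h1 : Real.exp (L * r1) ≤ Real.exp L := Real.exp_le_exp.2 (by nlinarith)
  have h2 : r1 ^ 2 ≤ 1 := pow_le_one₀ hr1.le hr2
  have h3 : 2 + r1 ^ 2 * Real.exp (L * r1) ≤ 3 * Real.exp L := by
    have h4 : r1 ^ 2 * Real.exp (L * r1) ≤ 1 * Real.exp L :=
      mul_le_mul h2 h1 (Real.exp_pos _).le zero_le_one
    linarith
  have h5 : 0 < r1 ^ 2 * Real.exp (L * r1) := by positivity
  have h6 : (1 : ℝ) ≤ N * (2 + r1 ^ 2 * Real.exp (L * r1)) := by nlinarith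
  have h7 : (N * (2 + r1 ^ 2 * Real.exp (L * r1))) ^ ((3 : ℝ) / 4) ≤
      N * (3 * Real.exp L) := by
    calc (N * (2 + r1 ^ 2 * Real.exp (L * r1))) ^ ((3 : ℝ) / 4)
        ≤ (N * (2 + r1 ^ 2 * Real.exp (L * r1))) ^ (1 : ℝ) :=
          Real.rpow_le_rpow_of_exponent_le h6 (by norm_num)
      _ = N * (2 + r1 ^ 2 * Real.exp (L * r1)) := Real.rpow_one _
      _ ≤ N * (3 * Real.exp L) := mul_le_mul_of_nonneg_left h3 (by linarith)
  have h8 : (2 * δ * N) ^ ((1 : ℝ) / 4) ≤ 2 * N * δ ^ ((1 : ℝ) / 4) := by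
    have e1 : 2 * δ * N = (2 * N) * δ := by ring
    rw [e1, Real.mul_rpow (by linarith) hδ.le]
    refine mul_le_mul_of_nonneg_right ?_ (Real.rpow_nonneg hδ.le _)
    calc (2 * N) ^ ((1 : ℝ) / 4) ≤ (2 * N) ^ (1 : ℝ) :=
          Real.rpow_le_rpow_of_exponent_le (by linarith) (by norm_num)
      _ = 2 * N := Real.rpow_one _
  calc (N * (2 + r1 ^ 2 * Real.exp (L * r1))) ^ ((3 : ℝ) / 4) * (2 * δ * N) ^ ((1 : ℝ) / 4)
      ≤ (N * (3 * Real.exp L)) * (2 * N * δ ^ ((1 : ℝ) / 4)) := by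
        refine mul_le_mul h7 h8 (Real.rpow_nonneg (by positivity) _) (by positivity)
    _ = 6 * N ^ 2 * Real.exp L * δ ^ ((1 : ℝ) / 4) := by ring

/-- START. PROOF. `z = (x', y') ∈ ball (pt x1 0) (r1/64)`, `r = r1/64`: `mean_slice`, `slice_small` with
`g = sl r s x'`, `y = y' + r s`, `|y| ≤ r1/32`, `N` from `sl_norms` (for `r1 ≤ 1`). -/
theorem start (x1 : E) {r1 : ℝ} (hr1 : 0 < r1) (hr2 : r1 ≤ 1) :
    ∃ C : ℝ, 1 ≤ C ∧ ∀ (G : Set E) (lam : ℝ) (f : ℕ → E → ℝ), 1 ≤ lam →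
      LFS G lam f → ball x1 r1 ⊆ G → ∀ δ : ℝ, 0 < δ → δ ≤ 1 → ∫ x in ball x1 r1, f 0 x ^ 2 ≤ δ ^ 2 →
      ∀ z ∈ ball (pt x1 0) (r1 / 64), |UU f z| ≤ C * Real.exp (C * √lam) * δ ^ ((1 : ℝ) / 4) := by
  obtain ⟨C0, hC0, hsl⟩ := sl_norms E
  have hr0 : 0 < r1 / 64 := by positivity
  have hr64 : r1 / 64 ≤ 1 := by linarith
  have hinv : 1 ≤ (r1 / 64)⁻¹ := (one_le_inv₀ hr0).2 hr64
  have hN : 1 ≤ C0 * ((r1 / 64)⁻¹) ^ (Module.finrank ℝ E + 2) := by
    have h1 : 1 ≤ ((r1 / 64)⁻¹) ^ (Module.finrank ℝ E + 2) := one_le_pow₀ hinv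
    nlinarith
  set N : ℝ := C0 * ((r1 / 64)⁻¹) ^ (Module.finrank ℝ E + 2) with hNd
  have hW : 0 < ∫ z : WithLp 2 (E × ℝ), bw 4 z := bw_integral_pos (by norm_num)
  set W : ℝ := ∫ z : WithLp 2 (E × ℝ), bw 4 z with hWd
  refine ⟨12 * N ^ 2 / W + 1, ?_, ?_⟩
  · have : 0 ≤ 12 * N ^ 2 / W := by positivity
    linarith
  intro G lam f hl hf hG δ hδ hδ1 hsm z hz
  have hl0 : 0 ≤ lam := zero_le_one.trans hl
  obtain ⟨x', y', rfl⟩ : ∃ x' y', z = pt x' y' := ⟨z.fst, z.snd, rfl⟩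
  have hz2 : dist x' x1 ^ 2 + |y'| ^ 2 < (r1 / 64) ^ 2 := by
    have h1 : ‖pt x' y' - pt x1 0‖ < r1 / 64 := by
      rw [← dist_eq_norm]
      exact hz
    have h2 : ‖pt x' y' - pt x1 0‖ ^ 2 < (r1 / 64) ^ 2 :=
      pow_lt_pow_left₀ h1 (norm_nonneg _) two_ne_zero
    rw [WithLp.prod_norm_sq_eq_of_L2] at h2
    have e1 : (pt x' y' - pt x1 0).fst = x' - x1 := rfl
    have e2 : (pt x' y' - pt x1 0).snd = y' - 0 := rfl
    rw [e1, e2, sub_zero, Real.norm_eq_abs] at h2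
    rw [dist_eq_norm]
    exact h2
  have hx' : dist x' x1 < r1 / 64 := by
    refine lt_of_pow_lt_pow_left₀ 2 hr0.le ?_
    have := sq_nonneg |y'|
    linarith
  have hy' : |y'| < r1 / 64 := by
    refine lt_of_pow_lt_pow_left₀ 2 hr0.le ?_
    have := sq_nonneg (dist x' x1)
    linarith
  have hharm : ∀ z ∈ ball (pt x' y') (r1 / 64),
      Δ (fun z : WithLp 2 (E × ℝ) => Ser 1 f z.fst z.snd) z = 0 := by
    intro z hz
    refine hf.UU_harm hl0 (hG ?_)
    have h1 : ‖z - pt x' y'‖ < r1 / 64 := by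
      rw [← dist_eq_norm]
      exact hz
    have h2 : ‖z - pt x' y'‖ ^ 2 < (r1 / 64) ^ 2 :=
      pow_lt_pow_left₀ h1 (norm_nonneg _) two_ne_zero
    rw [WithLp.prod_norm_sq_eq_of_L2] at h2
    have e1 : (z - pt x' y').fst = z.fst - x' := rfl
    rw [e1, ← dist_eq_norm] at h2
    have h3 : dist z.fst x' < r1 / 64 := by
      refine lt_of_pow_lt_pow_left₀ 2 hr0.le ?_
      have := sq_nonneg ‖(z - pt x' y').snd‖
      linarith
    rw [mem_ball]
    have h4 := dist_triangle z.fst x' x1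
    linarith
  have hms := mean_slice (u := fun x y => Ser 1 f x y) (hf.Ser_contDiff hl0 (by norm_num) 2)
    hharm hr0 le_rfl
  have hB : ∀ s ∈ Set.uIoc (-1 : ℝ) 1,
      ‖∫ x, Ser 1 f x (y' + r1 / 64 * s) * sl (r1 / 64) s x' x‖ ≤
        6 * N ^ 2 * Real.exp (√lam) * δ ^ ((1 : ℝ) / 4) := by
    intro s hs
    rw [Set.uIoc_of_le (by norm_num)] at hs
    rw [Real.norm_eq_abs]
    have habs : |y' + r1 / 64 * s| ≤ r1 / 16 := by
      have h1 : |s| ≤ 1 := abs_le.2 ⟨hs.1.le, hs.2⟩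
      have h2 : |r1 / 64 * s| ≤ r1 / 64 := by
        rw [abs_mul, abs_of_pos hr0]
        nlinarith [abs_nonneg s]
      have h3 := abs_add_le y' (r1 / 64 * s)
      linarith
    obtain ⟨n1, n2'⟩ := hsl (r1 / 64) s x' hr0 hr64
    refine (slice_small hl hf hr1 hG hδ hδ1 hsm (sl_contDiff (r1 / 64) s x')
      (sl_cpt hr0 s x') (fun x hx => sl_zero hr0 s ?_) (by linarith : (0 : ℝ) < N) n1 n2'
      habs).trans (start_arith hN hr1 hr2 (Real.sqrt_nonneg _) hδ)
    rw [mem_ball, not_lt] at hx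
    have h4 := dist_triangle x x' x1
    linarith
  have h1 := intervalIntegral.norm_integral_le_of_norm_le_const hB
  have h2 : |Ser 1 f x' y'| * W ≤ 12 * N ^ 2 * Real.exp (√lam) * δ ^ ((1 : ℝ) / 4) := by
    have h3 : |Ser 1 f x' y' * W| = |Ser 1 f x' y'| * W := by
      rw [abs_mul, abs_of_pos hW]
    rw [← h3, hWd, hms, ← Real.norm_eq_abs]
    refine h1.trans (le_of_eq ?_)
    norm_num
    ring
  have h3 : UU f (pt x' y') = Ser 1 f x' y' := rfl
  rw [h3]
  have hP : 0 ≤ 12 * N ^ 2 / W := by positivity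
  have h4 : |Ser 1 f x' y'| ≤ 12 * N ^ 2 / W * Real.exp (√lam) * δ ^ ((1 : ℝ) / 4) := by
    have e : 12 * N ^ 2 / W * Real.exp (√lam) * δ ^ ((1 : ℝ) / 4) =
        (12 * N ^ 2 * Real.exp (√lam) * δ ^ ((1 : ℝ) / 4)) / W := by
      field_simp
    rw [e, le_div_iff₀ hW]
    exact h2
  refine h4.trans ?_
  refine mul_le_mul_of_nonneg_right ?_ (Real.rpow_nonneg hδ.le _)
  refine mul_le_mul (by linarith) (Real.exp_le_exp.2 ?_) (Real.exp_pos _).le (by linarith)
  have h5 := Real.sqrt_nonneg lam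
  nlinarith

end

end Pool.Agent.Lib.MP_79abb3_an.WG
end

section

/-!
Theorem W, block G: all points of `D` are reachable.
-/

set_option autoImplicit false
set_option linter.unusedSectionVars false
set_option linter.unusedVariables false

open MeasureTheory Set Filter Topology Metric Laplacian
open scoped ContDiff InnerProductSpace

namespace Pool.Agent.Lib.MP_79abb3_an.WG

section
variable {E : Type} [NormedAddCommGroup E] [InnerProductSpace ℝ E] [FiniteDimensional ℝ E]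
  [MeasurableSpace E] [BorelSpace E] {D Z : Set E}

private theorem bulkD_dist (x x' : E) : dist (pt x (0:ℝ)) (pt x' 0) = dist x x' :=
  WithLp.prod_dist_eq_of_L2 _ _ |>.trans (by
    simp [pt, Real.sqrt_sq dist_nonneg])

private theorem bulkD_ball {x x' : E} {r r' : ℝ} (h : dist x' x + r' ≤ r) :
    ball (pt x' (0:ℝ)) r' ⊆ ball (pt x 0) r :=
  ball_subset_ball' (by rw [bulkD_dist]; linarith)

private theorem bulkD_start (hD : (Dᶜ).Nonempty) {z0 : E} {r0 : ℝ}
    (hr0 : 0 < r0) (hZ : ball z0 r0 ⊆ D) :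
    ∃ r θ C ε₀, 0 < r ∧ 0 < θ ∧ 1 ≤ C ∧ 0 < ε₀ ∧ Small D (ball z0 r0) z0 r θ C ε₀ := by
  have hr1 : 0 < min (r0 / 2) 1 := lt_min (by linarith) one_pos
  obtain ⟨C, hC, hst⟩ := start z0 hr1 (min_le_right _ _)
  refine ⟨min (r0 / 2) 1 / 64, 1 / 4, C, r0 / 2, by linarith, by norm_num, hC, by linarith, ?_⟩
  intro ε hε hε2 lam hlam f hf δ hδ hδ1 hint z hz
  have h1 : ball z0 (min (r0 / 2) 1) ⊆ er D ε :=
    ball_er hD hZ (by have := min_le_left (r0 / 2) (1:ℝ); linarith)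
  refine hst (er D ε) lam f hlam hf h1 δ hδ hδ1 (le_trans ?_ hint) z hz
  refine setIntegral_mono_set (hf.int 0).integrableOn
    (Eventually.of_forall fun x => sq_nonneg _) ?_
  exact (ball_subset_ball (by have := min_le_left (r0 / 2) (1:ℝ); linarith)).eventuallyLE

/-- All points are reachable. PROOF. The set `P` of `x ∈ D` with the property is nonempty: `start` at
`x1 = z0`, `r1 = min (r0/2) 1`, `ball z0 r1 ⊆ er D ε` for `ε ≤ r0/2` (`ball_er`). `P` is open (`Small.mono`, half the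
radius) and closed in `D`: if `ball x t ⊆ D`, `0 < t ≤ 1`, `x' ∈ P`, `dist x x' < t/10`, then `ball x' (t/2) ⊆ D`,
`small_grow` at `x'` gives radius `0.3996 t`, whose ball contains `ball (pt x 0) (t/10)`. `D` preconnected
(`IsPreconnected.subset_of_closure_inter_subset`). -/
theorem bulk_point (hD : (Dᶜ).Nonempty) (hDo : IsOpen D) (hDc : IsPreconnected D) {z0 : E} {r0 : ℝ}
    (hr0 : 0 < r0) (hZ : ball z0 r0 ⊆ D) {x : E} (hx : x ∈ D) :
    ∃ r θ C ε₀, 0 < r ∧ 0 < θ ∧ 1 ≤ C ∧ 0 < ε₀ ∧ Small D (ball z0 r0) x r θ C ε₀ := by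
  set P : Set E := {x | ∃ r θ C ε₀, 0 < r ∧ 0 < θ ∧ 1 ≤ C ∧ 0 < ε₀ ∧
    Small D (ball z0 r0) x r θ C ε₀} with hP
  have hPo : IsOpen P := by
    rw [Metric.isOpen_iff]
    rintro y ⟨r, θ, C, ε₀, h1, h2, h3, h4, h5⟩
    refine ⟨r / 2, by linarith, fun y' hy' => ?_⟩
    refine ⟨r / 2, θ, C, ε₀, by linarith, h2, h3, h4, ?_⟩
    refine h5.mono (bulkD_ball ?_) le_rfl (by linarith) le_rfl le_rfl
    rw [mem_ball] at hy'
    linarith
  have hsub : D ⊆ P := by
    refine hDc.subset_of_closure_inter_subset hPo ?_ ?_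
    · exact ⟨z0, hZ (mem_ball_self hr0), bulkD_start hD hr0 hZ⟩
    · rintro y ⟨hyc, hyD⟩
      obtain ⟨t₀, ht₀, hball₀⟩ := Metric.isOpen_iff.1 hDo y hyD
      obtain ⟨t, ht, ht1, hball⟩ : ∃ t, 0 < t ∧ t ≤ 1 ∧ ball y t ⊆ D :=
        ⟨min t₀ 1, lt_min ht₀ one_pos, min_le_right _ _,
          (ball_subset_ball (min_le_left _ _)).trans hball₀⟩
      obtain ⟨y', hy', hd⟩ := Metric.mem_closure_iff.1 hyc (t / 10) (by linarith)
      obtain ⟨r, θ, C, ε₀, h1, h2, h3, h4, h5⟩ := hy'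
      obtain ⟨θ', C', ε', g1, g2, g3, g4⟩ := small_grow (Z := ball z0 r0) hD
        (t := t / 2) (r := r) (by linarith) (by linarith) h1 h2 h3 h4
      have hb : ball y' (t / 2) ⊆ D := by
        refine (ball_subset_ball' ?_).trans hball
        rw [dist_comm]
        linarith
      refine ⟨t / 10, θ', C', ε', by linarith, g1, g2, g3, ?_⟩
      refine (g4 y' hb h5).mono (bulkD_ball ?_) le_rfl (by linarith) le_rfl le_rfl
      linarith
  exact hsub hx

end

end Pool.Agent.Lib.MP_79abb3_an.WG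
end

section

/-!
Theorem W, block G: uniform propagation in the interior of `D`.
-/

set_option autoImplicit false
set_option linter.unusedSectionVars false
set_option linter.unusedVariables false

open MeasureTheory Set Filter Topology Metric Laplacian
open scoped ContDiff InnerProductSpace

namespace Pool.Agent.Lib.MP_79abb3_an.WG

section
variable {E : Type} [NormedAddCommGroup E] [InnerProductSpace ℝ E] [FiniteDimensional ℝ E]
  [MeasurableSpace E] [BorelSpace E] {D Z : Set E}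

private theorem bulkU_ball {x x' : E} {r r' : ℝ} (h : dist x' x + r' ≤ r) :
    ball (pt x' (0:ℝ)) r' ⊆ ball (pt x 0) r := by
  refine ball_subset_ball' ?_
  have h1 : dist (pt x' (0:ℝ)) (pt x 0) = dist x' x := WithLp.dist_toLp_fst 2 E ℝ x' x
  rw [h1]
  linarith

private theorem bulkU_min {X : Type} (t : Finset X) (g : X → ℝ) (hg : ∀ x ∈ t, 0 < g x) :
    ∃ m : ℝ, 0 < m ∧ ∀ x ∈ t, m ≤ g x := by
  classical
  induction t using Finset.induction_on with
  | empty => exact ⟨1, one_pos, by simp⟩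
  | insert a t ha ih =>
    obtain ⟨m, hm, h⟩ := ih fun x hx => hg x (Finset.mem_insert_of_mem hx)
    refine ⟨min m (g a), lt_min hm (hg a (Finset.mem_insert_self _ _)), fun x hx => ?_⟩
    rcases Finset.mem_insert.1 hx with rfl | hx
    · exact min_le_right _ _
    · exact (min_le_left _ _).trans (h x hx)

private theorem bulkU_max {X : Type} (t : Finset X) (g : X → ℝ) :
    ∃ m : ℝ, 1 ≤ m ∧ ∀ x ∈ t, g x ≤ m := by
  classical
  induction t using Finset.induction_on with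
  | empty => exact ⟨1, le_rfl, by simp⟩
  | insert a t ha ih =>
    obtain ⟨m, hm, h⟩ := ih
    refine ⟨max m (g a), hm.trans (le_max_left _ _), fun x hx => ?_⟩
    rcases Finset.mem_insert.1 hx with rfl | hx
    · exact le_max_right _ _
    · exact (h x hx).trans (le_max_left _ _)

/-- Uniformity. PROOF. `K = {x | t0 ≤ infDist x Dᶜ}` is closed, contained in `D`, bounded, hence compact, and
`ball x t0 ⊆ D` implies `x ∈ K`. Cover `K` by finitely many `ball x_i (r_i/2)` (`bulk_point` at `x_i ∈ K`); if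
`dist x x_i < r_i/2` then `Small` holds at `x` with radius `r_i/2`. Take the minimal radius, `θ`, `ε₀` and the maximal `C`
(`Small.mono`; `δ ≤ 1`, so a smaller `θ` is weaker), then apply `small_grow` with `t = t0`. -/
theorem bulk_unif (hD : (Dᶜ).Nonempty) (hDo : IsOpen D) (hDb : Bornology.IsBounded D)
    (hDc : IsPreconnected D) {z0 : E} {r0 : ℝ}
    (hr0 : 0 < r0) (hZ : ball z0 r0 ⊆ D) {t0 : ℝ} (ht0 : 0 < t0) (ht1 : t0 ≤ 1) :
    ∃ θ C ε₀, 0 < θ ∧ 1 ≤ C ∧ 0 < ε₀ ∧ ∀ x : E, ball x t0 ⊆ D →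
      Small D (ball z0 r0) x (3996 / 5000 * t0) θ C ε₀ := by
  set K : Set E := {x | t0 ≤ infDist x Dᶜ} with hK
  have hKD : K ⊆ D := by
    intro x hx
    by_contra hxD
    have h1 : infDist x Dᶜ = 0 := infDist_zero_of_mem hxD
    have h2 : t0 ≤ infDist x Dᶜ := hx
    linarith
  have hKc : IsCompact K := Metric.isCompact_of_isClosed_isBounded
    (isClosed_le continuous_const (continuous_infDist_pt _)) (hDb.subset hKD)
  have hball : ∀ x, ball x t0 ⊆ D → x ∈ K := by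
    intro x hx
    refine (le_infDist hD).2 fun y hy => ?_
    by_contra h
    rw [not_le] at h
    exact hy (hx (by rw [mem_ball, dist_comm]; exact h))
  choose! r θ C ε h1 h2 h3 h4 h5 using fun x (hx : x ∈ K) => bulk_point hD hDo hDc hr0 hZ (hKD hx)
  obtain ⟨t, htK, hcov⟩ := hKc.elim_nhds_subcover (fun x => ball x (r x / 2))
    (fun x hx => ball_mem_nhds x (by have := h1 x hx; linarith))
  obtain ⟨mr, hmr, hmr'⟩ := bulkU_min t r fun x hx => h1 x (htK x hx)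
  obtain ⟨mθ, hmθ, hmθ'⟩ := bulkU_min t θ fun x hx => h2 x (htK x hx)
  obtain ⟨mε, hmε, hmε'⟩ := bulkU_min t ε fun x hx => h4 x (htK x hx)
  obtain ⟨MC, hMC, hMC'⟩ := bulkU_max t C
  obtain ⟨θ', C', ε', g1, g2, g3, g4⟩ := small_grow (Z := ball z0 r0) hD (t := t0) (r := mr / 2)
    ht0 ht1 (by linarith) hmθ hMC hmε
  refine ⟨θ', C', ε', g1, g2, g3, fun x hx => g4 x hx ?_⟩
  have h6 := hcov (hball x hx)
  rw [mem_iUnion₂] at h6
  obtain ⟨y, hy, hxy⟩ := h6
  rw [mem_ball] at hxy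
  refine (h5 y (htK y hy)).mono (bulkU_ball ?_) (hmθ' y hy) (by linarith [h3 y (htK y hy)])
    (hMC' y hy) (hmε' y hy)
  have := hmr' y hy
  linarith

end

end Pool.Agent.Lib.MP_79abb3_an.WG
end

section

/-!
Theorem W, block G: interior smallness for smooth sequences.
-/

set_option autoImplicit false
set_option linter.unusedSectionVars false
set_option linter.unusedVariables false

open MeasureTheory Set Filter Topology Metric Laplacian
open scoped ContDiff InnerProductSpace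

namespace Pool.Agent.Lib.MP_79abb3_an.WG

section
variable {E : Type} [NormedAddCommGroup E] [InnerProductSpace ℝ E] [FiniteDimensional ℝ E]
  [MeasurableSpace E] [BorelSpace E] {D : Set E}

private theorem is_dist_pt (x y : E) : dist (pt x 0) (pt y 0) = dist x y := by
  rw [pt, pt, WithLp.prod_dist_eq_of_L2]
  simp

private theorem is_UU (f : ℕ → E → ℝ) (x : E) : UU f (pt x 0) = f 0 x := by
  unfold UU Ser
  have h1 : ∀ k : ℕ, (1 : ℝ) ^ (k + 1) * cs 0 k (pt x 0).snd * Δ (f k) (pt x 0).fst = 0 := by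
    intro k
    have h2 : cs 0 k (pt x 0).snd = 0 := by
      unfold cs
      rw [if_pos (Nat.zero_le _)]
      show (0 : ℝ) ^ (2 * k + 2 - 0) / _ = 0
      rw [zero_pow (by omega), zero_div]
    rw [h2, mul_zero, zero_mul]
  rw [tsum_congr h1, tsum_zero, sub_zero]
  rfl

private theorem is_ball_sub {x : E} {t : ℝ} (h : t ≤ infDist x Dᶜ) : ball x t ⊆ D := by
  intro y hy
  by_contra hyD
  have h1 : infDist x Dᶜ ≤ dist x y := infDist_le_dist_of_mem hyD
  rw [mem_ball, dist_comm] at hy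
  linarith

private theorem is_K {s T : ℝ} (hs : 0 < s) (hsT : s ≤ T) :
    ∃ K : ℕ, s ≤ T / 2 ^ K ∧ T / 2 ^ K < 2 * s := by
  have hT : 0 < T := hs.trans_le hsT
  have hex : ∃ K : ℕ, T / 2 ^ K < s := by
    obtain ⟨K, hK⟩ := pow_unbounded_of_one_lt (T / s) (by norm_num : (1 : ℝ) < 2)
    refine ⟨K, ?_⟩
    rw [div_lt_iff₀ (by positivity)]
    rw [div_lt_iff₀ hs] at hK
    linarith
  classical
  have h0 : Nat.find hex ≠ 0 := by
    intro h
    have h1 := Nat.find_spec hex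
    rw [h, pow_zero, div_one] at h1
    linarith
  obtain ⟨K, hK⟩ := Nat.exists_eq_succ_of_ne_zero h0
  refine ⟨K, ?_, ?_⟩
  · have h1 := Nat.find_min hex (m := K) (by omega)
    exact not_lt.mp h1
  · have h1 := Nat.find_spec hex
    rw [hK, Nat.succ_eq_add_one, pow_succ] at h1
    have h2 : T / (2 ^ K * 2) = T / 2 ^ K / 2 := by
      rw [div_div]
    rw [h2] at h1
    linarith

/-- INTERIOR SMALLNESS (smooth sequences). PROOF. `t0` from `IntBall`, w.l.o.g. `t0 ≤ 1` (`IntBall` is monotone in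
`t0`). `bulk_unif`: with `δ = e^{-C lam^{2/3}}` the bulk bound is `C_b e^{C_b √lam} δ^{θ_b} ≤ e^{-C' lam^{2/3}}` for
`C = (C' + C_b + log C_b)/θ_b`, `C'` from `numerics` and `C' ≥ |log w|`. Let `x ∈ D`, `s = infDist x Dᶜ ≥ c/√lam`.
(a) `s ≥ t0`: `ball x t0 ⊆ D`, `f 0 x = UU f (pt x 0)`, bulk bound. (b) `s < t0`: `K` maximal with `t0/2^K ≥ s`
(so `t0/2^K < 2 s`), `x_k = x + (t0/2^k - s) n`; `chain` with `δ = e^{-C' lam^{2/3}}`; `dist x x_K = t0/2^K - s < t0/2^K/2`,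
so `pt x 0` is in the last ball; `numerics`. `ε₁ = min ε_b (c/√lam/1000)`. -/
theorem interior_small (hD : (Dᶜ).Nonempty) (hDo : IsOpen D) (hDb : Bornology.IsBounded D)
    (hDc : IsPreconnected D) {t0 : ℝ} (ht0 : 0 < t0) (hI : IntBall D t0) {z0 : E} {r0 : ℝ}
    (hr0 : 0 < r0) (hZ : ball z0 r0 ⊆ D) {c w : ℝ} (hc : 0 < c) (hw : 0 < w) :
    ∃ C : ℝ, 0 ≤ C ∧ ∀ lam : ℝ, 1 ≤ lam → ∃ ε₁ : ℝ, 0 < ε₁ ∧ ∀ ε : ℝ, 0 < ε → ε ≤ ε₁ →
      ∀ f : ℕ → E → ℝ, LFS (er D ε) lam f →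
      ∫ x in ball z0 r0, f 0 x ^ 2 ≤ (Real.exp (-(C * lam ^ ((2 : ℝ) / 3)))) ^ 2 →
      ∀ x ∈ D, c / √lam ≤ infDist x Dᶜ → |f 0 x| ≤ w := by
  set T : ℝ := min t0 1 with hTdef
  have hT0 : 0 < T := lt_min ht0 one_pos
  have hT1 : T ≤ 1 := min_le_right _ _
  have hI' : IntBall D T := by
    intro x hx hs
    obtain ⟨n, hn, h⟩ := hI x hx (hs.trans_le (min_le_left _ _))
    exact ⟨n, hn, fun t h1 h2 => h t h1 (h2.trans (min_le_left _ _))⟩
  obtain ⟨θ, Cb, εb, hθ, hCb, hεb, hB⟩ := bulk_unif hD hDo hDb hDc hr0 hZ hT0 hT1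
  obtain ⟨H, hH, hchain⟩ := chain E
  obtain ⟨C', hC', hnum⟩ := numerics H c w T (Module.finrank ℝ E + 2) hH hc hw hT0 hT1
  have hlCb : 0 ≤ Real.log Cb := Real.log_nonneg hCb
  have hCb0 : 0 < Cb := by linarith
  refine ⟨(C' + |Real.log w| + Cb + Real.log Cb) / θ, by positivity, fun lam hlam => ?_⟩
  have hlam0 : 0 < lam := by linarith
  have hsq : 0 < √lam := Real.sqrt_pos.mpr hlam0
  refine ⟨min εb (c / √lam / 1000), lt_min hεb (by positivity), fun ε hε hε1 f hf hint x hx hsx => ?_⟩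
  set L : ℝ := lam ^ ((2 : ℝ) / 3) with hL
  have hL1 : 1 ≤ L := Real.one_le_rpow hlam (by norm_num)
  have hsL : √lam ≤ L := by
    rw [Real.sqrt_eq_rpow, hL]
    exact Real.rpow_le_rpow_of_exponent_le hlam (by norm_num)
  set C : ℝ := (C' + |Real.log w| + Cb + Real.log Cb) / θ with hCdef
  have hC0 : 0 ≤ C := by positivity
  have hCθ : C * θ = C' + |Real.log w| + Cb + Real.log Cb := by
    rw [hCdef, div_mul_cancel₀ _ hθ.ne']
  have hδ0 : 0 < Real.exp (-(C * L)) := Real.exp_pos _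
  have hδ1 : Real.exp (-(C * L)) ≤ 1 := by
    rw [Real.exp_le_one_iff]
    have : 0 ≤ C * L := by positivity
    linarith
  -- the bulk bound
  have hbulk : ∀ y, ball y T ⊆ D → ∀ z ∈ ball (pt y 0) (3996 / 5000 * T),
      |UU f z| ≤ Real.exp (-((C' + |Real.log w|) * L)) := by
    intro y hy z hz
    have h1 := hB y hy ε hε (hε1.trans (min_le_left _ _)) lam hlam f hf _ hδ0 hδ1 hint z hz
    refine h1.trans ?_
    have e1 : Real.exp (-(C * L)) ^ θ = Real.exp (-(C * θ * L)) := by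
      rw [← Real.exp_mul]
      congr 1
      ring
    rw [e1, hCθ]
    conv_lhs => rw [← Real.exp_log hCb0]
    rw [Real.exp_log hCb0]
    have e2 : Cb = Real.exp (Real.log Cb) := (Real.exp_log hCb0).symm
    calc Cb * Real.exp (Cb * √lam) * Real.exp (-((C' + |Real.log w| + Cb + Real.log Cb) * L))
        = Real.exp (Real.log Cb + Cb * √lam + -((C' + |Real.log w| + Cb + Real.log Cb) * L)) := by
          rw [Real.exp_add, Real.exp_add, Real.exp_log hCb0]
      _ ≤ _ := by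
          rw [Real.exp_le_exp]
          have h2 : Real.log Cb ≤ Real.log Cb * L := by nlinarith
          have h3 : Cb * √lam ≤ Cb * L := mul_le_mul_of_nonneg_left hsL hCb0.le
          nlinarith
  have hw' : Real.exp (-((C' + |Real.log w|) * L)) ≤ w := by
    conv_rhs => rw [← Real.exp_log hw]
    rw [Real.exp_le_exp]
    have h1 := neg_abs_le (Real.log w)
    have h2 : C' + |Real.log w| ≤ (C' + |Real.log w|) * L :=
      le_mul_of_one_le_right (by positivity) hL1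
    linarith
  set s : ℝ := infDist x Dᶜ with hs
  have hs0 : 0 < s := lt_of_lt_of_le (by positivity) hsx
  rw [← is_UU f x]
  by_cases hsT : T ≤ s
  · exact (hbulk x (is_ball_sub hsT) _ (mem_ball_self (by positivity))).trans hw'
  push Not at hsT
  obtain ⟨K, hK1, hK2⟩ := is_K hs0 hsT.le
  obtain ⟨n, hn, hball⟩ := hI' x hx hsT
  have hmono : ∀ k ≤ K, T / 2 ^ K ≤ T / 2 ^ k := by
    intro k hk
    gcongr
    · norm_num
  have hleT : ∀ k : ℕ, T / 2 ^ k ≤ T := fun k => div_le_self hT0.le (one_le_pow₀ (by norm_num))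
  have hxk : ∀ k ≤ K, ball (x + (T / 2 ^ k - s) • n) (T / 2 ^ k) ⊆ D := fun k hk =>
    hball _ (hK1.trans (hmono k hk)) (hleT k)
  have h0 : (x + (T / 2 ^ 0 - s) • n) = x + (T - s) • n := by rw [pow_zero, div_one]
  have hx0 : ball (x + (T / 2 ^ 0 - s) • n) T ⊆ D := by
    have h1 := hxk 0 (Nat.zero_le _)
    rwa [pow_zero, div_one] at h1 ⊢
  have hε2 : ε ≤ T / 2 ^ K / 1000 := by
    have h1 : ε ≤ c / √lam / 1000 := hε1.trans (min_le_right _ _)
    have h2 : c / √lam / 1000 ≤ T / 2 ^ K / 1000 := by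
      have := hsx.trans hK1
      linarith
    linarith
  have hδ'1 : Real.exp (-(C' * L)) ≤ 1 := by
    rw [Real.exp_le_one_iff]
    have : 0 ≤ C' * L := by positivity
    linarith
  have hres := hchain D hD ε lam f hε hlam hf K (fun k => x + (T / 2 ^ k - s) • n) T
    (Real.exp (-(C' * L))) hT0 hT1 hε2 hxk (by
      intro k _
      rw [dist_eq_norm]
      have e1 : x + (T / 2 ^ (k + 1) - s) • n - (x + (T / 2 ^ k - s) • n) =
          (T / 2 ^ (k + 1) - T / 2 ^ k) • n := by module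
      rw [e1, norm_smul, hn, mul_one, Real.norm_eq_abs, abs_sub_comm]
      have e2 : T / 2 ^ k - T / 2 ^ (k + 1) = T / 2 ^ (k + 1) := by
        rw [pow_succ]
        field_simp
        ring
      rw [e2, abs_of_pos (by positivity)]) (Real.exp_pos _) hδ'1 (by
      intro z hz
      refine (hbulk _ hx0 z hz).trans ?_
      rw [Real.exp_le_exp]
      have h1 := abs_nonneg (Real.log w)
      nlinarith [mul_nonneg h1 (by linarith : (0 : ℝ) ≤ L)])
  refine (hres (pt x 0) ?_).trans (hnum lam K hlam (hsx.trans hK1))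
  rw [mem_ball, is_dist_pt, dist_eq_norm]
  have e1 : x - (x + (T / 2 ^ K - s) • n) = -((T / 2 ^ K - s) • n) := by abel
  rw [e1, norm_neg, norm_smul, hn, mul_one, Real.norm_eq_abs, abs_of_nonneg (by linarith)]
  linarith

end

end Pool.Agent.Lib.MP_79abb3_an.WG
end
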