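import Mathlib

/-!
Theorem W, block G: series `∑ a_k(y) h_k(x)`, definitions.
-/

set_option autoImplicit false
set_option linter.unusedSectionVars false
set_option linter.unusedVariables false

open MeasureTheory Set Filter Topology Metric Laplacian
open scoped ContDiff InnerProductSpace

namespace Pool.Agent.Lib.MP_79abb3_an.WG

section

/-- Coefficients `a_k(y)`, smooth, all of whose derivatives are summable against every geometric sequence,
uniformly for bounded `y`. -/
structure Coe (a : ℕ → ℝ → ℝ) : Prop where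
  smooth : ∀ k, ContDiff ℝ ∞ (a k)
  sm : ∀ (m : ℕ) (Y L : ℝ), ∃ w : ℕ → ℝ, Summable w ∧
    ∀ k y, |y| ≤ Y → |iteratedDeriv m (a k) y| * L ^ k ≤ w k

/-- Smooth sequences with geometric bounds for all derivatives. -/
structure Geom {E : Type} [NormedAddCommGroup E] [NormedSpace ℝ E] {H : Type}
    [NormedAddCommGroup H] [NormedSpace ℝ H] (lam : ℝ) (h : ℕ → E → H) : Prop where
  smooth : ∀ k, ContDiff ℝ ∞ (h k)
  bnd : ∀ n : ℕ, ∃ B : ℝ, ∀ k x, ‖iteratedFDeriv ℝ n (h k) x‖ ≤ B * lam ^ k

end

section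
variable {E : Type} [NormedAddCommGroup E] [NormedSpace ℝ E]

/-- The series. -/
noncomputable def SS {H : Type} [NormedAddCommGroup H] [NormedSpace ℝ H] (a : ℕ → ℝ → ℝ)
    (h : ℕ → E → H) (p : E × ℝ) : H := ∑' k, a k p.2 • h k p.1

end

end Pool.Agent.Lib.MP_79abb3_an.WG
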