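import Pool.Agent.Lib.MP_79abb3_an.WG.StripA
import Pool.Agent.Lib.MP_79abb3_an.WG.Geo

/-!
Theorem W, block G: Poincaré inequality in a strip along the wall.
-/

set_option autoImplicit false
set_option linter.unusedSectionVars false
set_option linter.unusedVariables false

open MeasureTheory Set Filter Topology Metric Laplacian
open scoped ContDiff InnerProductSpace

namespace Pool.Agent.Lib.MP_79abb3_an.WG

section
variable {E : Type} [NormedAddCommGroup E] [InnerProductSpace ℝ E] [FiniteDimensional ℝ E]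
  [MeasurableSpace E] [BorelSpace E] {D : Set E}

/-- The set of the points such that the function has a zero on a segment is closed. -/
private theorem strip_closed {φ : E → ℝ} (hφ : Continuous φ) (ν : E) (L : ℝ) :
    IsClosed {x : E | ∃ s ∈ Icc (0 : ℝ) L, φ (x + s • ν) = 0} := by
  have h1 : IsClosed {p : ℝ × E | φ (p.2 + p.1 • ν) = 0} :=
    isClosed_eq (hφ.comp (by fun_prop)) continuous_const
  have h2 : IsClosed {p : Icc (0 : ℝ) L × E | φ (p.2 + (p.1 : ℝ) • ν) = 0} :=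
    h1.preimage (f := fun p : Icc (0 : ℝ) L × E => ((p.1 : ℝ), p.2)) (by fun_prop)
  have h3 := isClosedMap_snd_of_compactSpace _ h2
  have h4 : {x : E | ∃ s ∈ Icc (0 : ℝ) L, φ (x + s • ν) = 0} =
      Prod.snd '' {p : Icc (0 : ℝ) L × E | φ (p.2 + (p.1 : ℝ) • ν) = 0} := by
    ext x
    constructor
    · rintro ⟨s, hs, hx⟩
      exact ⟨(⟨s, hs⟩, x), hx, rfl⟩
    · rintro ⟨⟨s, y⟩, hp, rfl⟩
      exact ⟨s, s.2, hp⟩
  rw [h4]
  exact h3

/-- PROOF. `{x ∈ D | infDist x Dᶜ < ρ}` is the union over `ν ∈ N` of the sets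
`A_ν = {x ∈ D | ∃ s ∈ [0, Cρ], x + s ν ∉ D}`, which are measurable (relatively closed in the open set `D`: projections of
compact parameter sets; or replace `A_ν` by a measurable superset inside `{x | ∃ s ∈ [0,Cρ], φ (x + s ν) = 0}`, which is
closed because `φ` is continuous and `[0,Cρ]` compact). `line_poincare` for each `ν` with `L = Cρ`. -/
theorem strip_poincare {N : Finset E} {C ρ0 : ℝ} (h : ExtDir D N C ρ0) (hDo : IsOpen D) {φ : E → ℝ}
    (hφ : ContDiff ℝ 1 φ) (hc : HasCompactSupport φ) (hs : tsupport φ ⊆ D) {ρ : ℝ} (hρ : ρ ≤ ρ0)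
    (hρ0 : 0 ≤ ρ) :
    ∫ x in {x | x ∈ D ∧ infDist x Dᶜ < ρ}, φ x ^ 2 ≤
      N.card * (C * ρ) ^ 2 * ∫ x, ‖fderiv ℝ φ x‖ ^ 2 := by
  obtain ⟨hN, hC, hρ0', hext⟩ := h
  have hφs : HasCompactSupport fun x => φ x ^ 2 :=
    hc.comp_left (g := fun t : ℝ => t ^ 2) (by norm_num)
  have hφi : Integrable fun x => φ x ^ 2 :=
    Continuous.integrable_of_hasCompactSupport (hφ.continuous.pow 2) hφs
  have hCρ : 0 ≤ C * ρ := mul_nonneg hC hρ0
  -- the sets
  let A : E → Set E := fun ν => {x : E | ∃ s ∈ Icc (0 : ℝ) (C * ρ), φ (x + s • ν) = 0}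
  have hAm : ∀ ν, MeasurableSet (A ν) := fun ν => (strip_closed hφ.continuous ν _).measurableSet
  have hline : ∀ ν ∈ N, ∫ x in A ν, φ x ^ 2 ≤ (C * ρ) ^ 2 * ∫ x, ‖fderiv ℝ φ x‖ ^ 2 :=
    fun ν hν => line_poincare hφ hc (hN ν hν) hCρ (hAm ν) fun x hx => hx
  have hsub : {x | x ∈ D ∧ infDist x Dᶜ < ρ} ⊆ ⋃ ν ∈ N, A ν := by
    rintro x ⟨hxD, hx⟩
    obtain ⟨ν, hν, s, hs', hns⟩ := hext x hxD ρ hx hρ
    refine mem_iUnion₂.mpr ⟨ν, hν, s, hs', ?_⟩
    exact image_eq_zero_of_notMem_tsupport fun hcon => hns (hs hcon)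
  have hms : MeasurableSet {x | x ∈ D ∧ infDist x Dᶜ < ρ} :=
    (hDo.inter (isOpen_lt (continuous_infDist_pt _) continuous_const)).measurableSet
  calc ∫ x in {x | x ∈ D ∧ infDist x Dᶜ < ρ}, φ x ^ 2
      = ∫ x, indicator {x | x ∈ D ∧ infDist x Dᶜ < ρ} (fun x => φ x ^ 2) x :=
        (integral_indicator hms).symm
    _ ≤ ∫ x, ∑ ν ∈ N, indicator (A ν) (fun x => φ x ^ 2) x := by
        refine integral_mono (hφi.indicator hms)
          (integrable_finsetSum _ fun ν _ => hφi.indicator (hAm ν)) fun x => ?_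
        by_cases hx : x ∈ {x | x ∈ D ∧ infDist x Dᶜ < ρ}
        · obtain ⟨ν, hν, hxν⟩ := mem_iUnion₂.mp (hsub hx)
          rw [indicator_of_mem hx]
          calc φ x ^ 2 = indicator (A ν) (fun x => φ x ^ 2) x := by rw [indicator_of_mem hxν]
            _ ≤ ∑ ν ∈ N, indicator (A ν) (fun x => φ x ^ 2) x :=
              Finset.single_le_sum (f := fun ν => indicator (A ν) (fun x => φ x ^ 2) x)
                (fun i _ => indicator_nonneg (fun y _ => sq_nonneg _) x) hν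
        · rw [indicator_of_notMem hx]
          exact Finset.sum_nonneg fun i _ => indicator_nonneg (fun y _ => sq_nonneg _) x
    _ = ∑ ν ∈ N, ∫ x in A ν, φ x ^ 2 := by
        rw [integral_finsetSum _ fun ν _ => hφi.indicator (hAm ν)]
        exact Finset.sum_congr rfl fun ν _ => integral_indicator (hAm ν)
    _ ≤ ∑ ν ∈ N, (C * ρ) ^ 2 * ∫ x, ‖fderiv ℝ φ x‖ ^ 2 := Finset.sum_le_sum hline
    _ = N.card * (C * ρ) ^ 2 * ∫ x, ‖fderiv ℝ φ x‖ ^ 2 := by
        rw [Finset.sum_const, nsmul_eq_mul]; ring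

end

end Pool.Agent.Lib.MP_79abb3_an.WG
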