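import Pool.Agent.Lib.MP_79abb3_an.WG.Def

/-!
Theorem W, block G: Poincaré inequality along a direction.
-/

set_option autoImplicit false
set_option linter.unusedSectionVars false
set_option linter.unusedVariables false

open MeasureTheory Set Filter Topology Metric Laplacian
open scoped ContDiff InnerProductSpace

namespace Pool.Agent.Lib.MP_79abb3_an.WG

/-- Cauchy-Schwarz on an interval. -/
private theorem stripA_cs {u : ℝ → ℝ} (hu : Continuous u) {s : ℝ} (hs : 0 ≤ s) :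
    (∫ t in (0 : ℝ)..s, u t) ^ 2 ≤ s * ∫ t in (0 : ℝ)..s, u t ^ 2 := by
  rcases hs.eq_or_lt with rfl | hs'
  · simp
  set I := ∫ t in (0 : ℝ)..s, u t with hI
  have h1 : 0 ≤ ∫ t in (0 : ℝ)..s, (s * u t - I) ^ 2 :=
    intervalIntegral.integral_nonneg hs fun t _ => sq_nonneg _
  have h2 : ∫ t in (0 : ℝ)..s, (s * u t - I) ^ 2 =
      s ^ 2 * (∫ t in (0 : ℝ)..s, u t ^ 2) - 2 * s * I * I + s * I ^ 2 := by
    have e : (fun t => (s * u t - I) ^ 2) =
        fun t => s ^ 2 * u t ^ 2 - 2 * s * I * u t + I ^ 2 := by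
      ext t; ring
    rw [e, intervalIntegral.integral_add, intervalIntegral.integral_sub,
      intervalIntegral.integral_const_mul, intervalIntegral.integral_const_mul,
      intervalIntegral.integral_const, ← hI]
    · simp
    · exact (continuous_const.mul (hu.pow 2)).intervalIntegrable _ _
    · exact (continuous_const.mul hu).intervalIntegrable _ _
    · exact ((continuous_const.mul (hu.pow 2)).sub (continuous_const.mul hu)).intervalIntegrable _ _
    · exact continuous_const.intervalIntegrable _ _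
  rw [h2] at h1
  have h3 : 0 ≤ s * (s * (∫ t in (0 : ℝ)..s, u t ^ 2) - I ^ 2) := by nlinarith
  have h4 := nonneg_of_mul_nonneg_right h3 hs'
  linarith

section
variable {E : Type} [NormedAddCommGroup E] [InnerProductSpace ℝ E] [FiniteDimensional ℝ E]
  [MeasurableSpace E] [BorelSpace E] {D : Set E}

/-- The pointwise inequality. -/
private theorem stripA_pt {φ : E → ℝ} (hφ : ContDiff ℝ 1 φ) {ν : E} (hν : ‖ν‖ = 1)
    {L : ℝ} {x : E} {s : ℝ} (hs : s ∈ Icc (0 : ℝ) L) (hz : φ (x + s • ν) = 0) :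
    φ x ^ 2 ≤ L * ∫ σ in (0 : ℝ)..L, ‖fderiv ℝ φ (x + σ • ν)‖ ^ 2 := by
  have hd : ∀ σ : ℝ, HasDerivAt (fun σ : ℝ => φ (x + σ • ν)) (fderiv ℝ φ (x + σ • ν) ν) σ := by
    intro σ
    have h1 : HasFDerivAt φ (fderiv ℝ φ (x + σ • ν)) (x + σ • ν) :=
      (hφ.differentiable one_ne_zero _).hasFDerivAt
    have h2 : HasDerivAt (fun σ : ℝ => x + σ • ν) ν σ := by
      have := ((hasDerivAt_id σ).smul_const ν).const_add x
      simpa using this
    exact h1.comp_hasDerivAt σ h2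
  have hline : Continuous fun σ : ℝ => x + σ • ν := by fun_prop
  have hcf : Continuous fun σ : ℝ => fderiv ℝ φ (x + σ • ν) :=
    (hφ.continuous_fderiv one_ne_zero).comp hline
  have hcd : Continuous fun σ : ℝ => fderiv ℝ φ (x + σ • ν) ν := hcf.clm_apply continuous_const
  have h3 : ∫ σ in (0 : ℝ)..s, fderiv ℝ φ (x + σ • ν) ν = - φ x := by
    rw [intervalIntegral.integral_eq_sub_of_hasDerivAt (fun σ _ => hd σ)
      (hcd.intervalIntegrable _ _), hz]
    simp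
  have h4 := stripA_cs hcd hs.1
  rw [h3, neg_sq] at h4
  refine h4.trans ?_
  have h5 : ∫ σ in (0 : ℝ)..s, (fderiv ℝ φ (x + σ • ν) ν) ^ 2 ≤
      ∫ σ in (0 : ℝ)..s, ‖fderiv ℝ φ (x + σ • ν)‖ ^ 2 := by
    refine intervalIntegral.integral_mono_on hs.1 ((hcd.pow 2).intervalIntegrable _ _)
      ((hcf.norm.pow 2).intervalIntegrable _ _) fun σ _ => ?_
    have h6 := (fderiv ℝ φ (x + σ • ν)).le_opNorm ν
    rw [hν, mul_one, Real.norm_eq_abs] at h6
    rw [← sq_abs]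
    exact pow_le_pow_left₀ (abs_nonneg _) h6 2
  have h7 : ∫ σ in (0 : ℝ)..s, ‖fderiv ℝ φ (x + σ • ν)‖ ^ 2 ≤
      ∫ σ in (0 : ℝ)..L, ‖fderiv ℝ φ (x + σ • ν)‖ ^ 2 :=
    intervalIntegral.integral_mono_interval le_rfl hs.1 hs.2
      (Eventually.of_forall fun σ => sq_nonneg _) ((hcf.norm.pow 2).intervalIntegrable _ _)
  have h8 : 0 ≤ ∫ σ in (0 : ℝ)..L, ‖fderiv ℝ φ (x + σ • ν)‖ ^ 2 :=
    intervalIntegral.integral_nonneg (hs.1.trans hs.2) fun σ _ => sq_nonneg _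
  calc s * ∫ σ in (0 : ℝ)..s, (fderiv ℝ φ (x + σ • ν) ν) ^ 2
      ≤ s * ∫ σ in (0 : ℝ)..L, ‖fderiv ℝ φ (x + σ • ν)‖ ^ 2 :=
        mul_le_mul_of_nonneg_left (h5.trans h7) hs.1
    _ ≤ _ := mul_le_mul_of_nonneg_right hs.2 h8

/-- PROOF. For `x` in the set, `φ (x + s ν) = 0` for some `0 ≤ s ≤ L`, so `φ x = -∫_0^s ∂_ν φ (x + σ ν) dσ` and
`φ x ² ≤ L ∫_0^L (fderiv ℝ φ (x + σ ν) ν)² dσ`; the right side is defined for all `x`, so the set need not be
measurable: `∫ x in A ≤ ...` for any measurable `A ⊆ {..}`; integrate over `x` and use Fubini and the translation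
invariance. -/
theorem line_poincare {φ : E → ℝ} (hφ : ContDiff ℝ 1 φ) (hc : HasCompactSupport φ) {ν : E} (hν : ‖ν‖ = 1)
    {L : ℝ} (hL : 0 ≤ L) {A : Set E} (hA : MeasurableSet A)
    (h : ∀ x ∈ A, ∃ s ∈ Icc (0 : ℝ) L, φ (x + s • ν) = 0) :
    ∫ x in A, φ x ^ 2 ≤ L ^ 2 * ∫ x, ‖fderiv ℝ φ x‖ ^ 2 := by
  have hgc : Continuous fun x => ‖fderiv ℝ φ x‖ ^ 2 := (hφ.continuous_fderiv one_ne_zero).norm.pow 2
  have hgs : HasCompactSupport fun x => ‖fderiv ℝ φ x‖ ^ 2 := by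
    have := (hc.fderiv (𝕜 := ℝ)).norm
    exact this.comp_left (g := fun t : ℝ => t ^ 2) (by norm_num)
  have hgi : Integrable fun x => ‖fderiv ℝ φ x‖ ^ 2 := hgc.integrable_of_hasCompactSupport hgs
  have hφs : HasCompactSupport fun x => φ x ^ 2 :=
    hc.comp_left (g := fun t : ℝ => t ^ 2) (by norm_num)
  have hφi : Integrable fun x => φ x ^ 2 :=
    Continuous.integrable_of_hasCompactSupport (hφ.continuous.pow 2) hφs
  -- integrability on the product
  have hprod : Integrable (fun p : E × ℝ => ‖fderiv ℝ φ (p.1 + p.2 • ν)‖ ^ 2)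
      ((volume : Measure E).prod (volume.restrict (Ioc (0 : ℝ) L))) := by
    have hpc : Continuous fun p : E × ℝ => ‖fderiv ℝ φ (p.1 + p.2 • ν)‖ ^ 2 :=
      hgc.comp (by fun_prop : Continuous fun p : E × ℝ => p.1 + p.2 • ν)
    rw [integrable_prod_iff' hpc.aestronglyMeasurable]
    constructor
    · exact Eventually.of_forall fun σ => hgi.comp_add_right (σ • ν)
    · have e : (fun σ : ℝ => ∫ x : E, ‖‖fderiv ℝ φ (x + σ • ν)‖ ^ 2‖) =
          fun _ => ∫ x : E, ‖fderiv ℝ φ x‖ ^ 2 := by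
        ext σ
        simp only [norm_pow, norm_norm]
        exact integral_add_right_eq_self (fun x : E => ‖fderiv ℝ φ x‖ ^ 2) (σ • ν)
      rw [e]
      exact integrable_const _
  have hswap : ∫ x : E, ∫ σ in Ioc (0 : ℝ) L, ‖fderiv ℝ φ (x + σ • ν)‖ ^ 2 =
      L * ∫ x, ‖fderiv ℝ φ x‖ ^ 2 := by
    rw [integral_integral_swap (f := fun (x : E) (σ : ℝ) => ‖fderiv ℝ φ (x + σ • ν)‖ ^ 2) hprod]
    have e : (fun σ : ℝ => ∫ x : E, ‖fderiv ℝ φ (x + σ • ν)‖ ^ 2) =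
        fun _ => ∫ x : E, ‖fderiv ℝ φ x‖ ^ 2 := by
      ext σ
      exact integral_add_right_eq_self (fun x : E => ‖fderiv ℝ φ x‖ ^ 2) (σ • ν)
    rw [e, integral_const]
    simp [hL]
  have hinner : Integrable fun x : E => ∫ σ in Ioc (0 : ℝ) L, ‖fderiv ℝ φ (x + σ • ν)‖ ^ 2 :=
    hprod.integral_prod_left
  have hpos : ∀ x : E, 0 ≤ ∫ σ in Ioc (0 : ℝ) L, ‖fderiv ℝ φ (x + σ • ν)‖ ^ 2 := fun x =>
    integral_nonneg fun σ => sq_nonneg _
  calc ∫ x in A, φ x ^ 2 ≤ ∫ x in A, L * ∫ σ in Ioc (0 : ℝ) L, ‖fderiv ℝ φ (x + σ • ν)‖ ^ 2 := by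
        refine setIntegral_mono_on hφi.integrableOn (hinner.const_mul L).integrableOn hA
          fun x hx => ?_
        obtain ⟨s, hs, hz⟩ := h x hx
        have := stripA_pt hφ hν hs hz
        rwa [intervalIntegral.integral_of_le hL] at this
    _ ≤ ∫ x, L * ∫ σ in Ioc (0 : ℝ) L, ‖fderiv ℝ φ (x + σ • ν)‖ ^ 2 :=
        setIntegral_le_integral (hinner.const_mul L)
          (Eventually.of_forall fun x => mul_nonneg hL (hpos x))
    _ = L ^ 2 * ∫ x, ‖fderiv ℝ φ x‖ ^ 2 := by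
        rw [integral_const_mul, hswap]; ring

end

end Pool.Agent.Lib.MP_79abb3_an.WG
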